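import Pool.Agent.H36.MQ.Rf

/-!
MP_78d38b_MQ: the algebra (helper36: Pool/Agent/H36/MQ/Ra .. Rf; linked pairs allowed).
-/

set_option autoImplicit false
open scoped Classical

namespace H26MQ

theorem alg {ι J Pt : Type} [Fintype ι] [Finite J] (hι : 3 ≤ Fintype.card ι) (C : Pt → Set J)
    (one : ∀ i, ∃ p, i ∈ C p) (sep : ∀ i l m, i ≠ l → i ≠ m → l ≠ m →
      (∃ p, i ∈ C p ∧ l ∉ C p) ∨ ∃ p, i ∈ C p ∧ m ∉ C p)
    (R : (J → AddSubgroup (US ι)) → Prop) (hR : ∀ s, R s → ∀ j, Lag (s j))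
    (step : ∀ s, R s → ∀ p a b, qf a = 1 → qf b = 1 →
      R fun j => if j ∈ C p then ((s j).map (rho a)).map (rho b) else s j)
    (s : J → AddSubgroup (US ι)) (hs : R s) (hev : ∀ j, ∃ k, Nat.card ↥(s j ⊓ WW ι) = 4 ^ k) :
    ∃ s, R s ∧ ∀ j, s j ⊓ WW ι = ⊥ :=
  H36MQ.alg hι C one sep R hR step s hs hev

/-- Isotropic subgroups with at least `2 ^ n` elements are maximal. -/
theorem lag_of_card {ι : Type} [Fintype ι] {Λ : AddSubgroup (US ι)} (h : ∀ x ∈ Λ, qf x = 0)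
    (hc : 2 ^ Fintype.card ι ≤ Nat.card Λ) : Lag Λ :=
  H36MQ.lag_of_card h hc

/-- Maximal isotropic subgroups have `2 ^ n` elements. -/
theorem Lag.card {ι : Type} [Fintype ι] {Λ : AddSubgroup (US ι)} (h : Lag Λ) :
    Nat.card Λ = 2 ^ Fintype.card ι :=
  H36MQ.lag_card h

end H26MQ
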