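import Mathlib

/-!
MP_78d38b_MQ (helper26): definitions. Note: /team-store/H26_78d38b_MQ.md.
-/

set_option autoImplicit false
open scoped Classical

namespace H26MQ

/-- The quadratic space: the coordinates are the ramified part `u` and the other coordinate `r`. -/
abbrev US (ι : Type) : Type := ι → ZMod 2 × ZMod 2

section Quad

variable {ι : Type} [Fintype ι]

/-- The quadratic form. -/
def qf (z : US ι) : ZMod 2 := ∑ i, (z i).1 * (z i).2

/-- The bilinear form. -/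
def bf (z w : US ι) : ZMod 2 := ∑ i, ((z i).1 * (w i).2 + (z i).2 * (w i).1)

theorem bf_add (z w w' : US ι) : bf z (w + w') = bf z w + bf z w' := by
  unfold bf
  rw [← Finset.sum_add_distrib]
  refine Finset.sum_congr rfl fun i _ => ?_
  simp only [Pi.add_apply, Prod.fst_add, Prod.snd_add]
  ring

theorem bf_comm (z w : US ι) : bf z w = bf w z := by
  unfold bf
  refine Finset.sum_congr rfl fun i _ => ?_
  ring

theorem add_bf (z z' w : US ι) : bf (z + z') w = bf z w + bf z' w := by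
  rw [bf_comm, bf_add, bf_comm w z, bf_comm w z']

theorem bf_zero (z : US ι) : bf z 0 = 0 := by
  unfold bf
  simp

theorem zero_bf (z : US ι) : bf 0 z = 0 := by
  rw [bf_comm, bf_zero]

theorem qf_add (z w : US ι) : qf (z + w) = qf z + qf w + bf z w := by
  unfold qf bf
  rw [← Finset.sum_add_distrib, ← Finset.sum_add_distrib]
  refine Finset.sum_congr rfl fun i _ => ?_
  simp only [Pi.add_apply, Prod.fst_add, Prod.snd_add]
  ring

/-- The orthogonal transvection `z ↦ z + <a, z> a` (a reflection if `qf a = 1`). -/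
def rho (a : US ι) : US ι →+ US ι where
  toFun z := z + bf a z • a
  map_zero' := by
    rw [bf_zero, zero_smul, add_zero]
  map_add' z w := by
    rw [bf_add, add_smul]
    abel

theorem rho_apply (a z : US ι) : rho a z = z + bf a z • a := rfl

/-- Maximal isotropic subgroups. -/
structure Lag (Λ : AddSubgroup (US ι)) : Prop where
  iso : ∀ x ∈ Λ, qf x = 0
  max : ∀ z, (∀ x ∈ Λ, bf z x = 0) → z ∈ Λ

end Quad

/-- The unramified elements. -/
def WW (ι : Type) : AddSubgroup (US ι) where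
  carrier := {z | ∀ i, (z i).1 = 0}
  zero_mem' := fun _ => rfl
  add_mem' := fun {x y} hx hy i => by
    rw [Pi.add_apply, Prod.fst_add, hx i, hy i, add_zero]
  neg_mem' := fun {x} hx i => by
    rw [Pi.neg_apply, Prod.fst_neg, hx i, neg_zero]

theorem mem_WW {ι : Type} {z : US ι} : z ∈ WW ι ↔ ∀ i, (z i).1 = 0 := Iff.rfl

/-- The system of functionals. -/
structure Sys (J X Q P : Type) [AddCommGroup X] where
  XX : J → AddSubgroup X
  u : Q → X →+ ZMod 2
  r : Q → X →+ ZMod 2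
  u1 : P → X →+ ZMod 2
  u2 : P → X →+ ZMod 2
  r1 : P → X →+ ZMod 2
  r2 : P → X →+ ZMod 2
  ep : J → P → ZMod 2

/-- A state: the primes of type two and one at which the twist is ramified, and the classes at the
latter. -/
structure St (Q P : Type) where
  T : Finset Q
  T1 : Finset P
  e : P → ZMod 2

variable {J X Q P : Type} [AddCommGroup X]

namespace Sys

/-- The elements which are unramified outside `T` and `T1`. -/
def FF (S : Sys J X Q P) (T : Finset Q) (T1 : Finset P) : AddSubgroup X where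
  carrier := {x | (∀ q, q ∉ T → S.u q x = 0) ∧ ∀ v, v ∉ T1 → S.u1 v x = 0 ∧ S.u2 v x = 0}
  zero_mem' := ⟨fun _ _ => map_zero _, fun _ _ => ⟨map_zero _, map_zero _⟩⟩
  add_mem' := fun {x y} hx hy => ⟨fun q hq => by rw [map_add, hx.1 q hq, hy.1 q hq, add_zero],
    fun v hv => ⟨by rw [map_add, (hx.2 v hv).1, (hy.2 v hv).1, add_zero],
      by rw [map_add, (hx.2 v hv).2, (hy.2 v hv).2, add_zero]⟩⟩
  neg_mem' := fun {x} hx => ⟨fun q hq => by rw [map_neg, hx.1 q hq, neg_zero],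
    fun v hv => ⟨by rw [map_neg, (hx.2 v hv).1, neg_zero], by rw [map_neg, (hx.2 v hv).2, neg_zero]⟩⟩

theorem mem_FF {S : Sys J X Q P} {T : Finset Q} {T1 : Finset P} {x : X} : x ∈ S.FF T T1 ↔
    (∀ q, q ∉ T → S.u q x = 0) ∧ ∀ v, v ∉ T1 → S.u1 v x = 0 ∧ S.u2 v x = 0 := Iff.rfl

/-- The group of the structure `j` in the state `s`, relaxed at `T0`. -/
def R (S : Sys J X Q P) (s : St Q P) (T0 : Finset Q) (j : J) : AddSubgroup X where
  carrier := {x | x ∈ S.XX j ∧ (∀ q, q ∉ s.T → q ∉ T0 → S.u q x = 0) ∧ (∀ q ∈ s.T, S.r q x = 0) ∧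
    (∀ v, v ∉ s.T1 → S.u1 v x = 0 ∧ S.u2 v x = 0) ∧
    ∀ v ∈ s.T1, S.r1 v x = (s.e v + S.ep j v) * S.u2 v x ∧ S.r2 v x = (s.e v + S.ep j v) * S.u1 v x}
  zero_mem' := ⟨zero_mem _, fun _ _ _ => map_zero _, fun _ _ => map_zero _,
    fun _ _ => ⟨map_zero _, map_zero _⟩, fun _ _ => by
      rw [map_zero, map_zero, map_zero, map_zero, mul_zero]
      exact ⟨rfl, rfl⟩⟩
  add_mem' := fun {x y} hx hy => ⟨add_mem hx.1 hy.1,
    fun q h1 h2 => by rw [map_add, hx.2.1 q h1 h2, hy.2.1 q h1 h2, add_zero],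
    fun q h1 => by rw [map_add, hx.2.2.1 q h1, hy.2.2.1 q h1, add_zero],
    fun v hv => ⟨by rw [map_add, (hx.2.2.2.1 v hv).1, (hy.2.2.2.1 v hv).1, add_zero],
      by rw [map_add, (hx.2.2.2.1 v hv).2, (hy.2.2.2.1 v hv).2, add_zero]⟩,
    fun v hv => ⟨by rw [map_add, map_add, (hx.2.2.2.2 v hv).1, (hy.2.2.2.2 v hv).1, mul_add],
      by rw [map_add, map_add, (hx.2.2.2.2 v hv).2, (hy.2.2.2.2 v hv).2, mul_add]⟩⟩
  neg_mem' := fun {x} hx => ⟨neg_mem hx.1,
    fun q h1 h2 => by rw [map_neg, hx.2.1 q h1 h2, neg_zero],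
    fun q h1 => by rw [map_neg, hx.2.2.1 q h1, neg_zero],
    fun v hv => ⟨by rw [map_neg, (hx.2.2.2.1 v hv).1, neg_zero],
      by rw [map_neg, (hx.2.2.2.1 v hv).2, neg_zero]⟩,
    fun v hv => ⟨by rw [map_neg, map_neg, (hx.2.2.2.2 v hv).1, mul_neg],
      by rw [map_neg, map_neg, (hx.2.2.2.2 v hv).2, mul_neg]⟩⟩

theorem mem_R {S : Sys J X Q P} {s : St Q P} {T0 : Finset Q} {j : J} {x : X} : x ∈ S.R s T0 j ↔
    x ∈ S.XX j ∧ (∀ q, q ∉ s.T → q ∉ T0 → S.u q x = 0) ∧ (∀ q ∈ s.T, S.r q x = 0) ∧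
    (∀ v, v ∉ s.T1 → S.u1 v x = 0 ∧ S.u2 v x = 0) ∧
    ∀ v ∈ s.T1, S.r1 v x = (s.e v + S.ep j v) * S.u2 v x ∧
      S.r2 v x = (s.e v + S.ep j v) * S.u1 v x := Iff.rfl

/-- The properties of the system; `C` are the patterns. -/
structure Ok {Pt : Type} (S : Sys J X Q P) (C : Pt → Set J) : Prop where
  two : ∀ x : X, x + x = 0
  fin : ∀ T T1, Finite (S.FF T T1)
  card : ∀ j T T1, 2 ^ (T.card + 2 * T1.card) ≤ Nat.card ↥(S.XX j ⊓ S.FF T T1)
  quad : ∀ j T T1, ∀ x ∈ S.XX j, x ∈ S.FF T T1 → ∑ q ∈ T, S.u q x * S.r q x +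
    ∑ v ∈ T1, (S.u1 v x * S.r1 v x + S.u2 v x * S.r2 v x) = 0
  cheb2 : ∀ T T1 (φ : X →+ ZMod 2), ∃ q, q ∉ T ∧ ∀ x ∈ S.FF T T1, S.r q x = φ x
  cheb1 : ∀ p T T1, ∃ v, v ∉ T1 ∧ (∀ x ∈ S.FF T T1, S.r1 v x = 0 ∧ S.r2 v x = 0) ∧
    ∀ i j, S.ep i v = S.ep j v ↔ (i ∈ C p ↔ j ∈ C p)

/-- The local components at `T0`. -/
def loc (S : Sys J X Q P) (T0 : Finset Q) : X →+ US {q // q ∈ T0} where
  toFun x := fun q => (S.u q.1 x, S.r q.1 x)
  map_zero' := by
    funext q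
    rw [map_zero, map_zero]
    rfl
  map_add' x y := by
    funext q
    rw [map_add, map_add]
    rfl

/-- Clean states. -/
def Clean (S : Sys J X Q P) (s : St Q P) (T0 : Finset Q) : Prop :=
  ∀ j, ∀ x ∈ S.R s T0 j, S.loc T0 x = 0 → x = 0

end Sys

end H26MQ
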