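import Pool.Agent.H26.MQ.Df
import Pool.Agent.H30.OR.Cd
import Pool.Agent.H30.OR.Tm
import Pool.Agent.H30.OR.Tl
import Pool.Agent.H42.GN.Ig
import Pool.Agent.H88.RE.Ib

/-!
MP_78d38b_MQ (helper26): the number-theoretic system (definitions). `S : H88OD.Ext K K L a b θ`, `L = K(θ)`; the curves are the twists
`E_{d j * D0}`, `j ∈ J`.
-/

set_option autoImplicit false
set_option linter.unusedSectionVars false
open scoped Classical

open WithZero NumberField IsDedekindDomain H38RT
open H38T1 (SC sc scu rep eo la si OddP)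
open H76PP (Cub LC ev scm dn)
open H30ZO (HH nb Wc)
open H30OR (LocD)
open H88OD (Ext ClOk)

namespace H26MQ

/-- The primes outside `Sg` with two places of `L` above. -/
abbrev Q2 (K L : Type) [Field K] [NumberField K] [Field L] [NumberField L] [Algebra K L]
    (Sg : Finset (HeightOneSpectrum (𝓞 K))) : Type :=
  {v : HeightOneSpectrum (𝓞 K) // v ∉ Sg ∧ nb K L v = 2}

/-- The primes outside `Sg` with three places of `L` above. -/
abbrev P3 (K L : Type) [Field K] [NumberField K] [Field L] [NumberField L] [Algebra K L]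
    (Sg : Finset (HeightOneSpectrum (𝓞 K))) : Type :=
  {v : HeightOneSpectrum (𝓞 K) // v ∉ Sg ∧ nb K L v = 3}

variable {K L : Type} [Field K] [NumberField K] [Field L] [NumberField L] [Algebra K L] {a b : K}
  {θ : L}

/-- The data. -/
structure NT (S : Ext K K L a b θ) (Sg : Finset (HeightOneSpectrum (𝓞 K))) (D0 : K) {J : Type}
    (d : J → K) where
  ok0 : S.Ok D0 Sg
  ok : ∀ j, S.Ok (d j * D0) Sg
  three : ∀ v : HeightOneSpectrum (𝓞 K), v ∉ Sg → v.valuation K 3 = 1
  cl : ClOk K Sg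
  /-- uniformisers -/
  pi : HeightOneSpectrum (𝓞 K) → K
  pi0 : ∀ v, v ∉ Sg → pi v ≠ 0
  pio : ∀ v, v ∉ Sg → ord (v.valuation K) (pi v) = 1
  /-- the functionals at the primes of type two -/
  f2 : Q2 K L Sg → (SC L →+ ZMod 2)
  g2 : Q2 K L Sg → (SC L →+ ZMod 2)
  loc2 : ∀ q : Q2 K L Sg, LocD (show Cub K L a b θ from S.cub) q.1 1 (pi q.1)
    (fun _ : Fin 1 => f2 q) (fun _ : Fin 1 => g2 q)
  /-- the functionals at the primes of type one -/
  f3 : P3 K L Sg → Fin 2 → (SC L →+ ZMod 2)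
  g3 : P3 K L Sg → Fin 2 → (SC L →+ ZMod 2)
  loc3 : ∀ v : P3 K L Sg, LocD (show Cub K L a b θ from S.cub) v.1 1 (pi v.1) (f3 v) (g3 v)
  /-- the local conditions at `Sg` and at the real places -/
  XX : J → AddSubgroup (HH K L)
  hXX : ∀ j (c : HH K L), c ∈ XX j ↔ (∀ v ∈ Sg, S.Lv (d j * D0) v c) ∧
    ∀ s : K →+* ℝ, S.Lr (d j * D0) s c

variable {S : Ext K K L a b θ} {Sg : Finset (HeightOneSpectrum (𝓞 K))} {D0 : K} {J : Type}
  {d : J → K}

/-- The system. -/
noncomputable def NT.sys (N : NT S Sg D0 d) : Sys J (HH K L) (Q2 K L Sg) (P3 K L Sg) where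
  XX := N.XX
  u q := (N.f2 q).comp (HH K L).subtype
  r q := (N.g2 q).comp (HH K L).subtype
  u1 v := (N.f3 v 0).comp (HH K L).subtype
  u2 v := (N.f3 v 1).comp (HH K L).subtype
  r1 v := (N.g3 v 0).comp (HH K L).subtype
  r2 v := (N.g3 v 1).comp (HH K L).subtype
  ep j v := la v.1 (sc (d j))

/-- The patterns: a functional on the square classes of `K` which vanishes on the class of the discriminant, and a
value. -/
abbrev Pat (K : Type) [Field K] [NumberField K] (a b : K) : Type :=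
  {χ : SC K →+ ZMod 2 // χ (sc (-(4 * a ^ 3 + 27 * b ^ 2))) = 0} × ZMod 2

/-- The set of a pattern. -/
def CC (a b : K) (d : J → K) (p : Pat K a b) : Set J := {j | p.1.1 (sc (d j)) = p.2}

end H26MQ
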