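import Pool.Agent.H26.MQ.Na
import Pool.Agent.H88.OD.Fa

/-!
ROW MQ/Nb (project MP_78d38b_MQ, about 110 lines): the number-theoretic system exists.

Proof. `exists_ok` (Pool/Agent/H88/OD/Fa.lean; its proof shows that `{v | v.valuation K x ≠ 1}` is finite for `x ≠ 0`) for `D0`, `d j * D0` (`j ∈ J`, finite) and the element `3`; `H88RE.exists_cl` (Pool/Agent/H88/RE/Ib.lean; check the namespace) for the class group. `Ok` is monotone in `Sg`. `pi`: `H76PP`/Mathlib `v.valuation_exists_uniformizer K`. `f2, g2, f3, g3`: `H42GN.locD_of` (Pool/Agent/H42/GN/Ig.lean) with `D = 1`, `E = pi v`; it gives `m` with `nb = m + 1`, so `m = 1` or `m = 2` (`subst`/`cases`, `Fin 1`: `r = fun _ => r 0`). The subgroup `XX j`: `AddSubgroup.comap (HH K L).subtype` of the intersection of the subgroups of `H88OD.Gb_Wv` and `H88OD.Gb_Ws` (Pool/Agent/H88/OD/Gb.lean), or by hand.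
-/

set_option autoImplicit false
set_option linter.unusedSectionVars false
open scoped Classical

open WithZero NumberField IsDedekindDomain H38RT
open H38T1 (SC sc scu rep eo la si OddP)
open H76PP (Cub LC ev scm dn)
open H30ZO (HH nb Wc)
open H30OR (LocD)
open H88OD (Ext ClOk)

namespace H26MQ

variable {K L : Type} [Field K] [NumberField K] [Field L] [NumberField L] [Algebra K L] {a b : K}
  {θ : L}

private theorem Nb_fin {x : K} (hx : x ≠ 0) :
    {v : HeightOneSpectrum (𝓞 K) | v.valuation K x ≠ 1}.Finite := by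
  obtain ⟨α, β, hβ, hxy⟩ := IsFractionRing.div_surjective (A := 𝓞 K) x
  have hβ0 : β ≠ 0 := nonZeroDivisors.ne_zero hβ
  have hα0 : α ≠ 0 := by
    rintro rfl
    apply hx
    rw [← hxy, map_zero, zero_div]
  refine ((H30MQ.fin_mem hα0).union (H30MQ.fin_mem hβ0)).subset fun v hv => ?_
  by_contra h
  rw [Set.mem_union, not_or] at h
  apply hv
  rw [← hxy, map_div₀, v.valuation_eq_one_iff_notMem.mpr h.1, v.valuation_eq_one_iff_notMem.mpr h.2,
    div_one]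

private theorem Nb_loc (S : Ext K K L a b θ) {v : HeightOneSpectrum (𝓞 K)}
    (h2 : v.valuation K 2 = 1) (h3 : v.valuation K 3 = 1)
    (hd : v.valuation K (4 * a ^ 3 + 27 * b ^ 2) = 1) {E : K} (hE : E ≠ 0)
    (hEo : ord (v.valuation K) E = 1) :
    ∃ (m : ℕ) (r u : Fin m → (SC L →+ ZMod 2)), nb K L v = m + 1 ∧
      LocD (show Cub K L a b θ from S.cub) v 1 E r u := by
  obtain ⟨m, r, u, h1, h4, -⟩ := H42GN.locD_of (show Cub K L a b θ from S.cub) S.ha S.hb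
    (v := v) (D := 1) (E := E) h2 h3 hd one_ne_zero
    (by
      have h5 : ord (v.valuation K) (1 : K) = 0 := by
        unfold ord
        rw [map_one, log_one, neg_zero]
      rw [h5]
      exact Even.zero) hE
    (by rw [hEo]; exact odd_one)
  exact ⟨m, r, u, h1, h4⟩

private theorem Nb_loc2 (S : Ext K K L a b θ) {v : HeightOneSpectrum (𝓞 K)}
    (h2 : v.valuation K 2 = 1) (h3 : v.valuation K 3 = 1)
    (hd : v.valuation K (4 * a ^ 3 + 27 * b ^ 2) = 1) {E : K} (hE : E ≠ 0)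
    (hEo : ord (v.valuation K) E = 1) (hnb : nb K L v = 2) :
    ∃ f g : SC L →+ ZMod 2, LocD (show Cub K L a b θ from S.cub) v 1 E
      (fun _ : Fin 1 => f) (fun _ : Fin 1 => g) := by
  obtain ⟨m, r, u, h1, h4⟩ := Nb_loc S h2 h3 hd hE hEo
  have hm : m = 1 := by omega
  subst hm
  refine ⟨r 0, u 0, ?_⟩
  have e1 : (fun _ : Fin 1 => r 0) = r := by
    funext i
    rw [Subsingleton.elim i 0]
  have e2 : (fun _ : Fin 1 => u 0) = u := by
    funext i
    rw [Subsingleton.elim i 0]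
  rw [e1, e2]
  exact h4

private theorem Nb_loc3 (S : Ext K K L a b θ) {v : HeightOneSpectrum (𝓞 K)}
    (h2 : v.valuation K 2 = 1) (h3 : v.valuation K 3 = 1)
    (hd : v.valuation K (4 * a ^ 3 + 27 * b ^ 2) = 1) {E : K} (hE : E ≠ 0)
    (hEo : ord (v.valuation K) E = 1) (hnb : nb K L v = 3) :
    ∃ f g : Fin 2 → (SC L →+ ZMod 2), LocD (show Cub K L a b θ from S.cub) v 1 E f g := by
  obtain ⟨m, r, u, h1, h4⟩ := Nb_loc S h2 h3 hd hE hEo
  have hm : m = 2 := by omega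
  subst hm
  exact ⟨r, u, h4⟩

private theorem Nb_XX (S : Ext K K L a b θ) {D : K} (hD : D ≠ 0)
    (Sg : Finset (HeightOneSpectrum (𝓞 K))) :
    ∃ X : AddSubgroup (HH K L), ∀ c : HH K L, c ∈ X ↔ (∀ v ∈ Sg, S.Lv D v c) ∧
      ∀ s : K →+* ℝ, S.Lr D s c := by
  choose Wv hWv using fun v => H88OD.Gb_Wv S hD v
  choose Ws hWs using fun s => H88OD.Gb_Ws S hD s
  refine ⟨((⨅ v : {v : HeightOneSpectrum (𝓞 K) // v ∈ Sg}, Wv v) ⊓ (⨅ s, Ws s)).comap
    (HH K L).subtype, fun c => ?_⟩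
  rw [AddSubgroup.mem_comap, AddSubgroup.mem_inf, AddSubgroup.mem_iInf, AddSubgroup.mem_iInf]
  constructor
  · rintro ⟨h1, h2⟩
    exact ⟨fun v hv => ((hWv v _).1 (h1 ⟨v, hv⟩)).2, fun s => ((hWs s _).1 (h2 s)).2⟩
  · rintro ⟨h1, h2⟩
    exact ⟨fun v => (hWv v _).2 ⟨c.2, h1 v v.2⟩, fun s => (hWs s _).2 ⟨c.2, h2 s⟩⟩

theorem exists_NT (S : Ext K K L a b θ) {D0 : K} (hD0 : D0 ≠ 0) {J : Type} [Finite J] {d : J → K}
    (hd : ∀ j, d j ≠ 0) (S0 : Finset (HeightOneSpectrum (𝓞 K))) :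
    ∃ Sg, S0 ⊆ Sg ∧ Nonempty (NT S Sg D0 d) := by
  have hdD : ∀ j, d j * D0 ≠ 0 := fun j => mul_ne_zero (hd j) hD0
  have hU : (⋃ j, {v : HeightOneSpectrum (𝓞 K) | v.valuation K (d j * D0) ≠ 1}).Finite :=
    Set.finite_iUnion fun j => Nb_fin (hdD j)
  obtain ⟨Sg, hSg, hcl⟩ := H88OD.exists_cl (K := K)
    (S0 ∪ ((Nb_fin (K := K) two_ne_zero).toFinset ∪ ((Nb_fin (K := K) three_ne_zero).toFinset ∪
      ((Nb_fin S.dne).toFinset ∪ ((Nb_fin hD0).toFinset ∪ hU.toFinset)))))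
  have hout : ∀ v : HeightOneSpectrum (𝓞 K), v ∉ Sg → v.valuation K 2 = 1 ∧
      v.valuation K 3 = 1 ∧ v.valuation K (4 * a ^ 3 + 27 * b ^ 2) = 1 ∧
      v.valuation K D0 = 1 ∧ ∀ j, v.valuation K (d j * D0) = 1 := by
    intro v hv
    have h1 := mt (@hSg v) hv
    simp only [Finset.mem_union, Set.Finite.mem_toFinset, Set.mem_ofPred_eq, Set.mem_iUnion, not_or,
      not_exists, not_not, ne_eq] at h1
    exact ⟨h1.2.1, h1.2.2.1, h1.2.2.2.1, h1.2.2.2.2.1, h1.2.2.2.2.2⟩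
  have hc : ClOk K Sg := hcl Sg subset_rfl
  have hpi : ∀ v : HeightOneSpectrum (𝓞 K), ∃ π : K, v ∉ Sg →
      π ≠ 0 ∧ ord (v.valuation K) π = 1 := by
    intro v
    by_cases hv : v ∉ Sg
    · obtain ⟨π, h1, h2, -⟩ := hc v hv
      exact ⟨π, fun _ => ⟨h1, h2⟩⟩
    · exact ⟨1, fun h' => absurd h' hv⟩
  choose pi hpi using hpi
  have hl2 : ∀ q : Q2 K L Sg, ∃ f g : SC L →+ ZMod 2,
      LocD (show Cub K L a b θ from S.cub) q.1 1 (pi q.1)
        (fun _ : Fin 1 => f) (fun _ : Fin 1 => g) := fun q =>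
    Nb_loc2 S (hout _ q.2.1).1 (hout _ q.2.1).2.1 (hout _ q.2.1).2.2.1 (hpi _ q.2.1).1
      (hpi _ q.2.1).2 q.2.2
  have hl3 : ∀ q : P3 K L Sg, ∃ f g : Fin 2 → (SC L →+ ZMod 2),
      LocD (show Cub K L a b θ from S.cub) q.1 1 (pi q.1) f g := fun q =>
    Nb_loc3 S (hout _ q.2.1).1 (hout _ q.2.1).2.1 (hout _ q.2.1).2.2.1 (hpi _ q.2.1).1
      (hpi _ q.2.1).2 q.2.2
  choose f2 g2 hloc2 using hl2
  choose f3 g3 hloc3 using hl3
  choose XX hXX using fun j => Nb_XX S (hdD j) Sg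
  refine ⟨Sg, Finset.subset_union_left.trans hSg, ⟨{
    ok0 := ⟨hD0, fun v hv => (hout v hv).1, fun v hv => (hout v hv).2.2.1,
      fun v hv => (hout v hv).2.2.2.1⟩
    ok := fun j => ⟨hdD j, fun v hv => (hout v hv).1, fun v hv => (hout v hv).2.2.1,
      fun v hv => (hout v hv).2.2.2.2 j⟩
    three := fun v hv => (hout v hv).2.1
    cl := hc
    pi := pi
    pi0 := fun v hv => (hpi v hv).1
    pio := fun v hv => (hpi v hv).2
    f2 := f2
    g2 := g2
    loc2 := hloc2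
    f3 := f3
    g3 := g3
    loc3 := hloc3
    XX := XX
    hXX := hXX }⟩⟩

end H26MQ
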