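import Pool.Agent.H26.MQ.Na

/-!
ROW MQ/Nc (project MP_78d38b_MQ, about 120 lines): the group `FF` and the valuations.

f2_iff, f3_iff: `LocD.hr` and `H30OR.Wc_even` (Pool/Agent/H30/OR/Tf.lean) with `E = 1` (for the rewriting see `H42GN.ig_good`; `1 ^ 2 * a`, `algebraMap K L 1 * θ` are as in `LocD`). ev_one: there is exactly one place `w` above `v` (`nb K L v = 1`; `nb` is the number of places above, Pool/Agent/H30/ZO); the norm of a representative `y` of `c` is a square, its order at `v` is `f(w) * ord_w(y)` where `f(w) e(w) = 3` is odd (alternatively: `H42GN.locD_of` has `m = 0`, so `Wc` holds for all `c`, then `H30OR.Wc_even`: THIS IS THE SHORT WAY). mem_FF: `H30OR.nb_ge1`, `H30OR.nb_le3` (Pool/Agent/H30/OR/Te.lean). fin_FF: `H24TD.fin_US`, `H88OD.Gb_fin`.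
-/

set_option autoImplicit false
set_option linter.unusedSectionVars false
open scoped Classical

open WithZero NumberField IsDedekindDomain H38RT
open H38T1 (SC sc scu rep eo la si OddP)
open H76PP (Cub LC ev scm dn)
open H30ZO (HH nb Wc)
open H30OR (LocD)
open H88OD (Ext ClOk)

namespace H26MQ

variable {K L : Type} [Field K] [NumberField K] [Field L] [NumberField L] [Algebra K L] {a b : K}
  {θ : L} {S : Ext K K L a b θ} {Sg : Finset (HeightOneSpectrum (𝓞 K))} {D0 : K} {J : Type}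
  {d : J → K}

private theorem Nc_iff (N : NT S Sg D0 d) {v : HeightOneSpectrum (𝓞 K)} (hv : v ∉ Sg) {E : K}
    {ι : Type} [Fintype ι] {r u : ι → (SC L →+ ZMod 2)}
    (h : LocD (show Cub K L a b θ from S.cub) v 1 E r u) {c : SC L} (hc : c ∈ HH K L) :
    (∀ i, r i c = 0) ↔ ∀ w : HeightOneSpectrum (𝓞 L), dn K w = v → eo w c = 0 := by
  rw [← h.hr c hc]
  exact H30OR.Wc_even (show Cub K L a b θ from S.cub) (S.ha v) (S.hb v) (N.ok0.two v hv)
    (N.ok0.dis v hv) one_ne_zero (by rw [H38RT.Od_ord_one]; exact Even.zero) hc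

/-- At a prime with one place above there is no condition. -/
private theorem Nc_loc (N : NT S Sg D0 d) {v : HeightOneSpectrum (𝓞 K)} (hv : v ∉ Sg)
    (h : nb K L v = 1) {E : K} (hE : E ≠ 0) (hEo : Odd (ord (v.valuation K) E)) :
    ∃ r u : Fin 0 → (SC L →+ ZMod 2), LocD (show Cub K L a b θ from S.cub) v 1 E r u := by
  obtain ⟨m, r, u, hm, hl, -⟩ := H42GN.locD_of (v := v) (show Cub K L a b θ from S.cub) S.ha S.hb
    (N.ok0.two v hv) (N.three v hv) (N.ok0.dis v hv) (D := 1) (E := E) one_ne_zero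
    (by rw [H38RT.Od_ord_one]; exact Even.zero) hE hEo
  have h5 : m = 0 := by omega
  subst h5
  exact ⟨r, u, hl⟩

theorem f2_iff (N : NT S Sg D0 d) (q : Q2 K L Sg) {c : SC L} (hc : c ∈ HH K L) :
    N.f2 q c = 0 ↔ ∀ w : HeightOneSpectrum (𝓞 L), dn K w = q.1 → eo w c = 0 := by
  rw [← Nc_iff N q.2.1 (N.loc2 q) hc]
  exact ⟨fun h _ => h, fun h => h 0⟩

theorem f3_iff (N : NT S Sg D0 d) (v : P3 K L Sg) {c : SC L} (hc : c ∈ HH K L) :
    (N.f3 v 0 c = 0 ∧ N.f3 v 1 c = 0) ↔ ∀ w : HeightOneSpectrum (𝓞 L), dn K w = v.1 → eo w c = 0 := by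
  rw [← Nc_iff N v.2.1 (N.loc3 v) hc, Fin.forall_fin_two]

theorem ev_one (N : NT S Sg D0 d) {v : HeightOneSpectrum (𝓞 K)} (hv : v ∉ Sg) (h : nb K L v = 1)
    {c : SC L} (hc : c ∈ HH K L) {w : HeightOneSpectrum (𝓞 L)} (hw : dn K w = v) : eo w c = 0 := by
  obtain ⟨r, u, hl⟩ := Nc_loc N hv h (N.pi0 v hv) (by rw [N.pio v hv]; exact odd_one)
  exact (Nc_iff N hv hl hc).1 (fun i => i.elim0) w hw

/-- All local conditions hold at a prime of type three. -/
theorem Wc_one (N : NT S Sg D0 d) {v : HeightOneSpectrum (𝓞 K)} (hv : v ∉ Sg) (h : nb K L v = 1)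
    {E : K} (hE : E ≠ 0) {c : SC L} (hc : c ∈ HH K L) : S.Lv E v c := by
  rcases Int.even_or_odd (ord (v.valuation K) E) with hEe | hEo
  · exact (H30OR.Wc_even (show Cub K L a b θ from S.cub) (S.ha v) (S.hb v) (N.ok0.two v hv)
      (N.ok0.dis v hv) hE hEe hc).2 fun w hw => ev_one N hv h hc hw
  · obtain ⟨r, u, hl⟩ := Nc_loc N hv h hE hEo
    exact (hl.hu c hc).2 fun i => i.elim0

theorem mem_FF (N : NT S Sg D0 d) (T : Finset (Q2 K L Sg)) (T1 : Finset (P3 K L Sg)) (x : HH K L) :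
    x ∈ N.sys.FF T T1 ↔ ∀ w : HeightOneSpectrum (𝓞 L), dn K w ∉ Sg → (∀ q ∈ T, dn K w ≠ q.1) →
      (∀ v ∈ T1, dn K w ≠ v.1) → eo w (x : SC L) = 0 := by
  rw [Sys.mem_FF]
  constructor
  · rintro ⟨h1, h2⟩ w hw hT hT1
    have e1 := H30OR.nb_ge1 K L (dn K w)
    have e2 := H30OR.nb_le3 (show Cub K L a b θ from S.cub) (dn K w)
    obtain e3 | e3 | e3 : nb K L (dn K w) = 1 ∨ nb K L (dn K w) = 2 ∨ nb K L (dn K w) = 3 := by
      omega
    · exact ev_one N hw e3 x.2 rfl
    · refine (f2_iff N ⟨dn K w, hw, e3⟩ x.2).1 (h1 _ fun h => hT _ h rfl) w rfl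
    · refine (f3_iff N ⟨dn K w, hw, e3⟩ x.2).1 (h2 _ fun h => hT1 _ h rfl) w rfl
  · intro h
    refine ⟨fun q hq => ?_, fun v hv => ?_⟩
    · refine (f2_iff N q x.2).2 fun w hw => h w (by rw [hw]; exact q.2.1) (fun q' hq' e => ?_)
        fun v' _ e => ?_
      · rw [hw] at e
        rw [Subtype.ext e] at hq
        exact hq hq'
      · have e1 := q.2.2
        have e2 := v'.2.2
        rw [hw] at e
        rw [← e, e1] at e2
        omega
    · refine (f3_iff N v x.2).2 fun w hw => h w (by rw [hw]; exact v.2.1) (fun q' _ e => ?_)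
        fun v' hv' e => ?_
      · have e1 := v.2.2
        have e2 := q'.2.2
        rw [hw] at e
        rw [← e, e1] at e2
        omega
      · rw [hw] at e
        rw [Subtype.ext e] at hv
        exact hv hv'

theorem fin_FF (N : NT S Sg D0 d) (T : Finset (Q2 K L Sg)) (T1 : Finset (P3 K L Sg)) :
    Finite (N.sys.FF T T1) := by
  have hA : (((Sg : Set (HeightOneSpectrum (𝓞 K))) ∪ (Subtype.val '' (T : Set (Q2 K L Sg)))) ∪
      (Subtype.val '' (T1 : Set (P3 K L Sg)))).Finite :=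
    (Sg.finite_toSet.union (T.finite_toSet.image _)).union (T1.finite_toSet.image _)
  have h1 := H24TD.fin_US (H88OD.Gb_fin (M := K) (M' := L) hA)
  have _ := h1.to_subtype
  refine Finite.of_injective
    (β := {c : SC L | ∀ v, v ∉ {w : HeightOneSpectrum (𝓞 L) | dn K w ∈
      ((Sg : Set (HeightOneSpectrum (𝓞 K))) ∪ (Subtype.val '' (T : Set (Q2 K L Sg)))) ∪
      (Subtype.val '' (T1 : Set (P3 K L Sg)))} → eo v c = 0})
    (fun x => ⟨(x.1 : SC L), fun w hw => ?_⟩) (fun x y h => ?_)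
  · refine (mem_FF N T T1 x.1).1 x.2 w (fun h => hw ?_) (fun q hq h => hw ?_) fun v hv h => hw ?_
    · exact Or.inl (Or.inl h)
    · exact Or.inl (Or.inr ⟨q, hq, h.symm⟩)
    · exact Or.inr ⟨v, hv, h.symm⟩
  · have h2 := congrArg Subtype.val h
    exact Subtype.ext (Subtype.ext h2)

end H26MQ
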