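import Pool.Agent.H26.MQ.Nc

/-!
ROW MQ/Nd (project MP_78d38b_MQ, about 130 lines; do not wait for MQ/Nc): the lower bound for the relaxed groups.

Proof. `H30OR.card_Y3` (Pool/Agent/H30/OR/Cd.lean) for `D = d j * D0`, `ok j`, `T' = T.map val ∪ T1.map val` (a finite set of primes of `K`, disjoint from `Sg`), `m v = 1` on `T` and `2` on `T1` (for example `m v = nb K L v - 1`), `Y` = the image of `XX j ⊓ FF T T1` under `(HH K L).subtype`; `c ∈ Y ↔ S.Y (d j * D0) Sg T' c` by `N.hXX` and `mem_FF` (`dn K v = v` for primes of `K`: `H88OD.dn_self`). `Nat.card` of the image of an injective map.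
-/

set_option autoImplicit false
set_option linter.unusedSectionVars false
open scoped Classical

open WithZero NumberField IsDedekindDomain H38RT
open H38T1 (SC sc scu rep eo la si OddP)
open H76PP (Cub LC ev scm dn)
open H30ZO (HH nb Wc)
open H30OR (LocD)
open H88OD (Ext ClOk)

namespace H26MQ

variable {K L : Type} [Field K] [NumberField K] [Field L] [NumberField L] [Algebra K L] {a b : K}
  {θ : L} {S : Ext K K L a b θ} {Sg : Finset (HeightOneSpectrum (𝓞 K))} {D0 : K} {J : Type}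
  {d : J → K}

theorem card_FF (N : NT S Sg D0 d) (j : J) (T : Finset (Q2 K L Sg)) (T1 : Finset (P3 K L Sg)) :
    2 ^ (T.card + 2 * T1.card) ≤ Nat.card ↥(N.sys.XX j ⊓ N.sys.FF T T1) := by
  obtain ⟨T', hT'⟩ : ∃ T' : Finset (HeightOneSpectrum (𝓞 K)),
      T' = T.map ⟨Subtype.val, Subtype.val_injective⟩ ∪
        T1.map ⟨Subtype.val, Subtype.val_injective⟩ := ⟨_, rfl⟩
  have hm' : ∀ v, v ∈ T' ↔ (∃ q ∈ T, q.1 = v) ∨ ∃ q ∈ T1, q.1 = v := by
    intro v
    rw [hT', Finset.mem_union, Finset.mem_map, Finset.mem_map]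
    rfl
  have hd : Disjoint Sg T' := by
    rw [Finset.disjoint_left]
    intro v hv hv'
    rcases (hm' v).1 hv' with ⟨q, -, rfl⟩ | ⟨q, -, rfl⟩
    · exact q.2.1 hv
    · exact q.2.1 hv
  have hT : ∀ v ∈ T', nb K L v = (nb K L v - 1) + 1 := by
    intro v hv
    rcases (hm' v).1 hv with ⟨q, -, rfl⟩ | ⟨q, -, rfl⟩
    · rw [q.2.2]
    · rw [q.2.2]
  have hY : ∀ c, c ∈ (N.sys.XX j ⊓ N.sys.FF T T1).map (HH K L).subtype ↔
      S.Y (d j * D0) Sg T' c := by
    intro c
    constructor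
    · rintro ⟨x, ⟨hx1, hx2⟩, rfl⟩
      have h1 := (N.hXX j x).1 hx1
      have h2 := (mem_FF N T T1 x).1 hx2
      refine ⟨x.2, ?_, h1.2, ?_⟩
      · intro v hv
        rw [H88OD.dn_self] at hv
        exact h1.1 v hv
      · intro w hw hw'
        rw [H88OD.dn_self] at hw hw'
        refine h2 w hw (fun q hq e => ?_) (fun q hq e => ?_)
        · exact hw' ((hm' _).2 (Or.inl ⟨q, hq, e.symm⟩))
        · exact hw' ((hm' _).2 (Or.inr ⟨q, hq, e.symm⟩))
    · intro h
      refine ⟨⟨c, h.hh⟩, ⟨(N.hXX j ⟨c, h.hh⟩).2 ⟨fun v hv => h.fin v ?_, h.inf⟩,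
        (mem_FF N T T1 ⟨c, h.hh⟩).2 fun w hw h1 h2 => h.ev w ?_ ?_⟩, rfl⟩
      · rw [H88OD.dn_self]
        exact hv
      · rw [H88OD.dn_self]
        exact hw
      · rw [H88OD.dn_self]
        intro h3
        rcases (hm' _).1 h3 with ⟨q, hq, e⟩ | ⟨q, hq, e⟩
        · exact h1 q hq e.symm
        · exact h2 q hq e.symm
  have h1 := (H30OR.card_Y3 (N.ok j) hd hT hY).2
  have h2 : ∑ v ∈ T', (nb K L v - 1) = T.card + 2 * T1.card := by
    rw [hT', Finset.sum_union, Finset.sum_map, Finset.sum_map]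
    · have h3 : ∀ q ∈ T, nb K L ((⟨Subtype.val, Subtype.val_injective⟩ :
          Q2 K L Sg ↪ HeightOneSpectrum (𝓞 K)) q) - 1 = 1 := by
        intro q _
        show nb K L q.1 - 1 = 1
        rw [q.2.2]
      have h4 : ∀ q ∈ T1, nb K L ((⟨Subtype.val, Subtype.val_injective⟩ :
          P3 K L Sg ↪ HeightOneSpectrum (𝓞 K)) q) - 1 = 2 := by
        intro q _
        show nb K L q.1 - 1 = 2
        rw [q.2.2]
      rw [Finset.sum_congr rfl h3, Finset.sum_congr rfl h4, Finset.sum_const, Finset.sum_const,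
        smul_eq_mul, smul_eq_mul, mul_one, mul_comm T1.card 2]
    · rw [Finset.disjoint_left]
      intro v hv hv'
      rw [Finset.mem_map] at hv hv'
      obtain ⟨q, -, hq⟩ := hv
      obtain ⟨q', -, hq'⟩ := hv'
      have e1 : q.1 = v := hq
      have e2 : q'.1 = v := hq'
      have e3 := q.2.2
      have e4 := q'.2.2
      rw [e1] at e3
      rw [e2, e3] at e4
      omega
  rw [h2] at h1
  refine h1.trans (le_of_eq ?_)
  exact (Nat.card_congr (AddSubgroup.equivMapOfInjective (N.sys.XX j ⊓ N.sys.FF T T1)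
    (HH K L).subtype Subtype.val_injective).toEquiv).symm

end H26MQ
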