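import Pool.Agent.H26.MQ.Nc

/-!
ROW MQ/Ne (project MP_78d38b_MQ, about 130 lines; do not wait for MQ/Nc): reciprocity.

Proof. `H30OR.rec_gen` (Pool/Agent/H30/OR/Tj.lean) with `D = d j * D0`, `Q = ∅`, `T' = T.map val ∪ T1.map val` (a finite set of primes), `E' v = N.pi v`; the local data: `N.loc2`, `N.loc3`, where `D = 1` is replaced by `d j * D0` (in `LocD` only the field `hr` changes; both conditions are `∀ w, dn K w = v → eo w c = 0` by `H30OR.Wc_even`, `N.ok j`: the valuation of `d j * D0` at `v ∉ Sg` is one). Outside `T'`: at `Sg` by `N.hXX`; at the other primes the condition is `eo w c = 0` (`H30OR.Wc_even`, `mem_FF`); real places: `N.hXX`. To apply rec_gen take `ι v = Fin (nb K L v - 1)` or apply `H30OR.rec_allQ` directly (same file, Hilbert symbols `hsv v (al h y) (be h y) = q v`, with `q v` defined by cases), which avoids dependent types: RECOMMENDED.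
-/

set_option autoImplicit false
set_option linter.unusedSectionVars false
open scoped Classical

open WithZero NumberField IsDedekindDomain H38RT
open H38T1 (SC sc scu rep eo la si OddP)
open H76PP (Cub LC ev scm dn)
open H30ZO (HH nb Wc)
open H30OR (LocD)
open H88OD (Ext ClOk)

namespace H26MQ

variable {K L : Type} [Field K] [NumberField K] [Field L] [NumberField L] [Algebra K L] {a b : K}
  {θ : L} {S : Ext K K L a b θ} {Sg : Finset (HeightOneSpectrum (𝓞 K))} {D0 : K} {J : Type}
  {d : J → K}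

/-- the local value -/
private noncomputable def Ne_q (N : NT S Sg D0 d) (c : SC L) (v : HeightOneSpectrum (𝓞 K)) : ZMod 2 :=
  if h2 : v ∉ Sg ∧ nb K L v = 2 then N.f2 ⟨v, h2⟩ c * N.g2 ⟨v, h2⟩ c
  else if h3 : v ∉ Sg ∧ nb K L v = 3 then
    N.f3 ⟨v, h3⟩ 0 c * N.g3 ⟨v, h3⟩ 0 c + N.f3 ⟨v, h3⟩ 1 c * N.g3 ⟨v, h3⟩ 1 c
  else 0

private theorem Ne_q2 (N : NT S Sg D0 d) (c : SC L) (q : Q2 K L Sg) :
    Ne_q N c q.1 = N.f2 q c * N.g2 q c := by
  unfold Ne_q
  rw [dif_pos q.2]

private theorem Ne_q3 (N : NT S Sg D0 d) (c : SC L) (v : P3 K L Sg) :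
    Ne_q N c v.1 = N.f3 v 0 c * N.g3 v 0 c + N.f3 v 1 c * N.g3 v 1 c := by
  have h2 : ¬ (v.1 ∉ Sg ∧ nb K L v.1 = 2) := by
    intro h
    have := v.2.2
    omega
  unfold Ne_q
  rw [dif_neg h2, dif_pos v.2]

private theorem Ne_sum (N : NT S Sg D0 d) (c : SC L) (T : Finset (Q2 K L Sg))
    (T1 : Finset (P3 K L Sg)) :
    ∑ v ∈ T.map (Function.Embedding.subtype _) ∪ T1.map (Function.Embedding.subtype _), Ne_q N c v =
      ∑ q ∈ T, N.f2 q c * N.g2 q c +
      ∑ v ∈ T1, (N.f3 v 0 c * N.g3 v 0 c + N.f3 v 1 c * N.g3 v 1 c) := by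
  rw [Finset.sum_union, Finset.sum_map, Finset.sum_map]
  · congr 1
    · exact Finset.sum_congr rfl fun q _ => Ne_q2 N c q
    · exact Finset.sum_congr rfl fun v _ => Ne_q3 N c v
  · rw [Finset.disjoint_left]
    intro v h1 h2
    obtain ⟨q, _, rfl⟩ := Finset.mem_map.1 h1
    obtain ⟨v', _, h3⟩ := Finset.mem_map.1 h2
    have h4 : v'.1 = q.1 := h3
    have h5 := v'.2.2
    rw [h4, q.2.2] at h5
    omega

theorem quad_FF (N : NT S Sg D0 d) (j : J) (T : Finset (Q2 K L Sg)) (T1 : Finset (P3 K L Sg)) :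
    ∀ x ∈ N.sys.XX j, x ∈ N.sys.FF T T1 → ∑ q ∈ T, N.sys.u q x * N.sys.r q x +
      ∑ v ∈ T1, (N.sys.u1 v x * N.sys.r1 v x + N.sys.u2 v x * N.sys.r2 v x) = 0 := by
  intro x hx hF
  obtain ⟨c, hc⟩ := x
  have hE : d j * D0 ≠ 0 := (N.ok j).ne
  have h : Cub K L a b θ := S.cub
  obtain ⟨hXv, hXr⟩ := (N.hXX j ⟨c, hc⟩).1 hx
  have hev := (mem_FF N T T1 ⟨c, hc⟩).1 hF
  have key := H30OR.rec_allQ (T := T.map (Function.Embedding.subtype _) ∪
      T1.map (Function.Embedding.subtype _)) (Q := ∅) (q := Ne_q N c) (qs := fun _ => 0)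
      (show Cub K L a b θ from S.cub) (c := c) hc (by
        intro v hv y hy hyc hal hbe
        rcases Finset.mem_union.1 hv with h1 | h1
        · obtain ⟨q, _, rfl⟩ := Finset.mem_map.1 h1
          have h2 := (N.loc2 q).hq c hc y hy hyc hal hbe
          rw [Fin.sum_univ_one] at h2
          exact h2.trans (Ne_q2 N c q).symm
        · obtain ⟨v', _, rfl⟩ := Finset.mem_map.1 h1
          have h2 := (N.loc3 v').hq c hc y hy hyc hal hbe
          rw [Fin.sum_univ_two] at h2
          exact h2.trans (Ne_q3 N c v').symm)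
      (by
        intro s hs
        exact absurd hs (Finset.notMem_empty s))
      (by
        intro v hv
        rw [Finset.mem_union, not_or] at hv
        refine H30OD.conAt_of_Wc (show Cub K L a b θ from S.cub) hE v ?_
        by_cases hSg : v ∈ Sg
        · exact hXv v hSg
        · have h0 : ord (v.valuation K) (d j * D0) = 0 := by
            unfold ord
            rw [(N.ok j).val v hSg, log_one, neg_zero]
          refine (H30OR.Wc_even (show Cub K L a b θ from S.cub) (S.ha v) (S.hb v)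
            ((N.ok j).two v hSg) ((N.ok j).dis v hSg) hE (by rw [h0]; exact Even.zero) hc).2 ?_
          intro w hw
          refine hev w (by rw [hw]; exact hSg) (fun q hq h1 => hv.1 ?_) (fun v' hv' h1 => hv.2 ?_)
          · exact Finset.mem_map.2 ⟨q, hq, by rw [← hw, h1]; rfl⟩
          · exact Finset.mem_map.2 ⟨v', hv', by rw [← hw, h1]; rfl⟩)
      (by
        intro s _
        exact H30OD.conR_of_Wc (show Cub K L a b θ from S.cub) hE s (hXr s))
  rw [Finset.sum_empty, add_zero, Ne_sum] at key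
  exact key

end H26MQ
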