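import Pool.Agent.H26.MQ.Na

/-!
ROW MQ/Nf (project MP_78d38b_MQ, about 60 lines): the patterns.

cc_one: the pattern `(0, 0)`. cc_sep: put `x = sc (d i) + sc (d l)`, `y = sc (d i) + sc (d m)`; `x`, `y` and `0` are different, so one of `x`, `y` is not in `{0, δ}`, `δ = sc (-(4 * a ^ 3 + 27 * b ^ 2))`; if `x` is not in `{0, δ}`, there is a homomorphism `χ : SC K →+ ZMod 2` with `χ δ = 0` and `χ x = 1` (linear algebra over `ZMod 2`; `SC K` is killed by two; `H88OD.Ib_sep`-type lemma in Pool/Agent/H88/RE/Ib.lean applied to `SC K ⧸ ⟨δ⟩`), take the pattern `(χ, χ (sc (d i)))`.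
-/

set_option autoImplicit false
set_option linter.unusedSectionVars false
open scoped Classical

open WithZero NumberField IsDedekindDomain H38RT
open H38T1 (SC sc scu rep eo la si OddP)

namespace H26MQ

variable {K : Type} [Field K] [NumberField K] {a b : K} {J : Type} {d : J → K}

private theorem Nf_two {K : Type} [Field K] (x : SC K) : x + x = 0 :=
  (two_nsmul x).symm.trans (SC.two_smul x)

private theorem Nf_sep {A : Type} [AddCommGroup A] (h2 : ∀ x : A, x + x = 0) {δ x : A}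
    (hx : x ≠ 0) (hxd : x ≠ δ) : ∃ χ : A →+ ZMod 2, χ δ = 0 ∧ χ x = 1 := by
  let _ : Module (ZMod 2) A := AddCommGroup.zmodModule (fun x => by
    rw [two_nsmul]
    exact h2 x)
  have hnot : x ∉ Submodule.span (ZMod 2) {δ} := by
    intro h
    obtain ⟨c, hc⟩ := Submodule.mem_span_singleton.1 h
    have h01 : ∀ c : ZMod 2, c = 0 ∨ c = 1 := by decide
    rcases h01 c with h | h
    · rw [h, zero_smul] at hc
      exact hx hc.symm
    · rw [h, one_smul] at hc
      exact hxd hc.symm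
  obtain ⟨f, hf, hp⟩ := Submodule.exists_le_ker_of_notMem hnot
  refine ⟨f.toAddMonoidHom, ?_, ?_⟩
  · exact hp (Submodule.mem_span_singleton_self δ)
  · have h01 : ∀ c : ZMod 2, c ≠ 0 → c = 1 := by decide
    exact h01 _ hf

theorem cc_one (i : J) : ∃ p : Pat K a b, i ∈ CC a b d p :=
  ⟨(⟨0, rfl⟩, 0), rfl⟩

theorem cc_sep (hinj : ∀ i j, i ≠ j → sc (d i) ≠ sc (d j)) : ∀ i l m : J, i ≠ l → i ≠ m → l ≠ m →
    (∃ p : Pat K a b, i ∈ CC a b d p ∧ l ∉ CC a b d p) ∨
      ∃ p : Pat K a b, i ∈ CC a b d p ∧ m ∉ CC a b d p := by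
  intro i l m hil him hlm
  have key : ∀ l : J, i ≠ l → sc (d i) + sc (d l) ≠ sc (-(4 * a ^ 3 + 27 * b ^ 2)) →
      ∃ p : Pat K a b, i ∈ CC a b d p ∧ l ∉ CC a b d p := by
    intro l hil hl
    have h0 : sc (d i) + sc (d l) ≠ 0 := by
      intro h
      apply hinj i l hil
      have h1 : sc (d i) + sc (d l) = sc (d l) + sc (d l) := by rw [h, Nf_two]
      exact add_right_cancel h1
    obtain ⟨χ, h1, h2⟩ := Nf_sep Nf_two h0 hl
    refine ⟨(⟨χ, h1⟩, χ (sc (d i))), rfl, ?_⟩
    intro h3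
    have h4 : χ (sc (d l)) = χ (sc (d i)) := h3
    rw [map_add, h4] at h2
    have h5 : ∀ c : ZMod 2, c + c ≠ 1 := by decide
    exact h5 _ h2
  by_cases hl : sc (d i) + sc (d l) = sc (-(4 * a ^ 3 + 27 * b ^ 2))
  · right
    apply key m him
    intro hm
    apply hinj l m hlm
    rw [← hl] at hm
    exact (add_left_cancel hm).symm
  · left
    exact key l hil hl

end H26MQ
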