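import Pool.Agent.H26.MQ.Nc
import Pool.Agent.H36.MQ.Cc
import Pool.Agent.H30.ZO.Ch
import Pool.Agent.H36.MX.Bf

/-!
MP_78d38b_MQ, MQ/Ni (helper36): the primes of type one with prescribed Legendre symbols (core theorem: Pool/Agent/H36/MQ/Cc.lean).

`x ∈ FF T T1` (finite): the values at `v` are zero, `la v` on the classes of `d j` is the given functional `χ` (which vanishes on the class of the discriminant).
-/

set_option autoImplicit false
set_option linter.unusedSectionVars false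
open scoped Classical

open WithZero NumberField IsDedekindDomain H38RT
open H38T1 (SC sc scu rep eo la si OddP)
open H76PP (Cub LC ev scm dn)
open H30ZO (HH nb Wc)
open H30OR (LocD)
open H88OD (Ext ClOk)

namespace H26MQ

variable {K L : Type} [Field K] [NumberField K] [Field L] [NumberField L] [Algebra K L] {a b : K}
  {θ : L} {S : Ext K K L a b θ} {Sg : Finset (HeightOneSpectrum (𝓞 K))} {D0 : K} {J : Type}
  {d : J → K}

/-- Classes which are trivial at all places above an odd place satisfy the local condition. -/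
theorem Ni_Wc {a b : K} {θ : L} (h : Cub K L a b θ) {v : HeightOneSpectrum (𝓞 K)} (hv : OddP v)
    (ha : v.valuation K a ≤ 1) (hb : v.valuation K b ≤ 1) (hD : 4 * a ^ 3 + 27 * b ^ 2 ≠ 0)
    {c : SC L} (hc : ∀ t : HeightOneSpectrum (𝓞 L), dn K t = v → eo t c = 0 ∧ la t c = 0) :
    Wc (algebraMap K (v.adicCompletion K)) a b θ c := by
  refine H30ZO.Sqv_le h v ha hb hD ((H30ZO.mem_Sqv).2 fun t ht => ?_)
  obtain ⟨h1, h2⟩ := hc t ht
  obtain ⟨y, hy, rfl⟩ := H38T1.sc_surj c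
  have hodd : OddP t := by
    have h3 : (dn K t).valuation K (2 : K) = 1 := by
      rw [ht]
      exact hv
    have h4 := H76PP.val_one h3
    rw [map_ofNat] at h4
    exact h4
  exact (H30ZO.mem_Sq hy).2 (H36MX.sq_of_la hodd hy h1 h2)

theorem cheb1_FF [Finite J] (N : NT S Sg D0 d) (p : Pat K a b) (T : Finset (Q2 K L Sg))
    (T1 : Finset (P3 K L Sg)) : ∃ v : P3 K L Sg, v ∉ T1 ∧
      (∀ x ∈ N.sys.FF T T1, N.sys.r1 v x = 0 ∧ N.sys.r2 v x = 0) ∧
      ∀ i j, N.sys.ep i v = N.sys.ep j v ↔ (i ∈ CC a b d p ↔ j ∈ CC a b d p) := by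
  obtain ⟨A, rfl⟩ := H38MR.Tc_int S.ha
  obtain ⟨B, rfl⟩ := H38MR.Tc_int S.hb
  have hcub : Cub K L (A : K) (B : K) θ := S.cub
  have hfin := fin_FF N T T1
  have hHf : (Subtype.val '' (N.sys.FF T T1 : Set (HH K L)) : Set (SC L)).Finite :=
    (Set.toFinite (N.sys.FF T T1 : Set (HH K L))).image _
  obtain ⟨v, hvA, hodd, ⟨e, he⟩, hv1, hv2⟩ := H36MQ.core hcub S.dsq hHf (by
      rintro c ⟨x, -, rfl⟩
      exact x.2) (Set.finite_range fun j => sc (d j)) p.1.1 p.1.2
    (A₀ := (Sg : Set (HeightOneSpectrum (𝓞 K))) ∪ Subtype.val '' (T1 : Set (P3 K L Sg)))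
    (Sg.finite_toSet.union (T1.finite_toSet.image _))
  have hvS : v ∉ Sg := fun h => hvA (Or.inl h)
  have hnb : nb K L v = 3 := H30OR.nb_eq3 hcub (N.ok0.dis v hvS) he
  refine ⟨⟨v, hvS, hnb⟩, fun h => hvA (Or.inr ⟨_, h, rfl⟩), fun x hx => ?_, fun i j => ?_⟩
  · have hE0 := N.pi0 v hvS
    have hle : v.valuation K (N.pi v) ≤ 1 := by
      have h1 := N.pio v hvS
      rw [H38RT.V_eq (V := v.valuation K) hE0, h1, ← exp_zero]
      exact exp_le_exp.2 (by norm_num)
    have hW := Ni_Wc (H76PP.Cub.twist hcub hE0) (v := v) hodd (by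
        rw [map_mul, map_pow]
        exact mul_le_one' (pow_le_one₀ zero_le hle) (v.valuation_le_one A)) (by
        rw [map_mul, map_pow]
        exact mul_le_one' (pow_le_one₀ zero_le hle) (v.valuation_le_one B)) (by
        have h1 : 4 * ((N.pi v) ^ 2 * (A : K)) ^ 3 + 27 * ((N.pi v) ^ 3 * (B : K)) ^ 2 =
            (N.pi v) ^ 6 * (4 * (A : K) ^ 3 + 27 * (B : K) ^ 2) := by ring
        rw [h1]
        exact mul_ne_zero (pow_ne_zero 6 hE0) S.dne)
      (c := (x : SC L)) (fun t ht => hv1 t ht x ⟨x, hx, rfl⟩)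
    have h2 := ((N.loc3 ⟨v, hvS, hnb⟩).hu (x : SC L) x.2).1 hW
    exact ⟨h2 0, h2 1⟩
  · have h3 : ∀ j, N.sys.ep j ⟨v, hvS, hnb⟩ = p.1.1 (sc (d j)) := fun j => hv2 _ ⟨j, rfl⟩
    rw [h3, h3]
    have h4 : ∀ j, j ∈ CC (A : K) (B : K) d p ↔ p.1.1 (sc (d j)) = p.2 := fun j => Iff.rfl
    rw [h4, h4]
    have h5 : ∀ x y z : ZMod 2, x = y ↔ (x = z ↔ y = z) := by decide
    exact h5 _ _ _

end H26MQ
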