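import Pool.Agent.H26.MQ.Nc
import Pool.Agent.H76.MQ2.N3
import Pool.Agent.H76.MQ2.N4

/-!
MP_78d38b_MQ (helper76): the local conditions of all twists at the primes of type two and one (loc_two, loc_three), cheb2_FF.
-/

set_option autoImplicit false
set_option linter.unusedSectionVars false
open scoped Classical

open WithZero NumberField IsDedekindDomain H38RT
open H38T1 (SC sc scu rep sc_surj sc_mul eo la si OddP unif)
open H36MX (hsv)
open H76MQ (al be)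
open H76PP (Cub LC ev scm dn)
open H30ZO (HH nb Wc)
open H30OR (LocD)
open H88OD (Ext ClOk)

namespace H26MQ

variable {K L : Type} [Field K] [NumberField K] [Field L] [NumberField L] [Algebra K L] {a b : K}
  {θ : L} {S : Ext K K L a b θ} {Sg : Finset (HeightOneSpectrum (𝓞 K))} {D0 : K} {J : Type}
  {d : J → K}

theorem nk_even (v : HeightOneSpectrum (𝓞 K)) : Even (ord (v.valuation K) (1 : K)) :=
  H76M2.even_one' v

theorem NT.nk_pio (N : NT S Sg D0 d) {v : HeightOneSpectrum (𝓞 K)} (hv : v ∉ Sg) :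
    Odd (ord (v.valuation K) (N.pi v)) := by
  rw [N.pio v hv]
  exact odd_one

theorem nk_int (S : Ext K K L a b θ) : ∃ A B : 𝓞 K, (A : K) = a ∧ (B : K) = b := by
  obtain ⟨A, hA⟩ := H76OD.Lt_int S.ha
  obtain ⟨B, hB⟩ := H76OD.Lt_int S.hb
  exact ⟨A, B, hA, hB⟩

/-- The condition of a twist of even order at a prime of type two. -/
theorem loc_two_even (N : NT S Sg D0 d) (q : Q2 K L Sg) {E : K} (hE : E ≠ 0)
    (hEe : Even (ord (q.1.valuation K) E)) {c : SC L} (hc : c ∈ HH K L) :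
    S.Lv E q.1 c ↔ N.f2 q c = 0 := by
  obtain ⟨A, B, rfl, rfl⟩ := nk_int S
  have h : Cub K L (A : K) (B : K) θ := S.cub
  obtain ⟨u, r, h1, h2, -⟩ := H76M2.type2 h (N.ok0.two _ q.2.1) (N.three _ q.2.1)
    (N.ok0.dis _ q.2.1) q.2.2
  have h3 := (N.loc2 q).hr c hc
  have h4 : (∀ i : Fin 1, (fun _ : Fin 1 => N.f2 q) i c = 0) ↔ N.f2 q c = 0 :=
    ⟨fun h => h 0, fun h _ => h⟩
  rw [h4] at h3
  rw [← h3]
  exact (h1 E hE hEe c hc).trans (h1 1 one_ne_zero (nk_even _) c hc).symm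

/-- The condition of a twist of odd order at a prime of type two. -/
theorem loc_two (N : NT S Sg D0 d) (q : Q2 K L Sg) {E : K} (hE : E ≠ 0)
    (hEo : Odd (ord (q.1.valuation K) E)) {c : SC L} (hc : c ∈ HH K L) :
    S.Lv E q.1 c ↔ N.g2 q c = 0 := by
  obtain ⟨A, B, rfl, rfl⟩ := nk_int S
  have h : Cub K L (A : K) (B : K) θ := S.cub
  obtain ⟨u, r, h1, h2, -⟩ := H76M2.type2 h (N.ok0.two _ q.2.1) (N.three _ q.2.1)
    (N.ok0.dis _ q.2.1) q.2.2
  have h3 := (N.loc2 q).hu c hc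
  have h4 : (∀ i : Fin 1, (fun _ : Fin 1 => N.g2 q) i c = 0) ↔ N.g2 q c = 0 :=
    ⟨fun h => h 0, fun h _ => h⟩
  rw [h4] at h3
  rw [← h3]
  exact (h2 E hE hEo c hc).trans (h2 _ (N.pi0 _ q.2.1) (N.nk_pio q.2.1) c hc).symm

/-- The condition of a twist of even order at a prime of type one. -/
theorem loc_three_even (N : NT S Sg D0 d) (v : P3 K L Sg) {E : K} (hE : E ≠ 0)
    (hEe : Even (ord (v.1.valuation K) E)) {c : SC L} (hc : c ∈ HH K L) :
    S.Lv E v.1 c ↔ N.f3 v 0 c = 0 ∧ N.f3 v 1 c = 0 := by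
  obtain ⟨A, B, rfl, rfl⟩ := nk_int S
  have h : Cub K L (A : K) (B : K) θ := S.cub
  obtain ⟨u1, u2, r1, r2, h1, -⟩ := H76M2.type1 h (N.ok0.two _ v.2.1) (N.three _ v.2.1)
    (N.ok0.dis _ v.2.1) v.2.2
  have h3 := (N.loc3 v).hr c hc
  rw [Fin.forall_fin_two] at h3
  rw [← h3]
  exact (h1 E hE hEe c hc).trans (h1 1 one_ne_zero (nk_even _) c hc).symm

/-- The condition of a twist of odd order at a prime of type one. -/
theorem loc_three (N : NT S Sg D0 d) (v : P3 K L Sg) {E : K} (hE : E ≠ 0)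
    (hEo : Odd (ord (v.1.valuation K) E)) {c : SC L} (hc : c ∈ HH K L) :
    S.Lv E v.1 c ↔ N.g3 v 0 c = la v.1 (sc (E * N.pi v.1)) * N.f3 v 1 c ∧
      N.g3 v 1 c = la v.1 (sc (E * N.pi v.1)) * N.f3 v 0 c := by
  obtain ⟨A, B, rfl, rfl⟩ := nk_int S
  have h : Cub K L (A : K) (B : K) θ := S.cub
  have hv : OddP v.1 := N.ok0.two _ v.2.1
  have hd := N.ok0.dis _ v.2.1
  have hp := N.pi0 _ v.2.1
  have hpo := N.nk_pio v.2.1
  obtain ⟨e, he⟩ : ∃ e : Fin 3 → v.1.adicCompletion K,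
      H30OR.R3 (algebraMap K (v.1.adicCompletion K) (A : K))
        (algebraMap K (v.1.adicCompletion K) (B : K)) e := by
    rcases H76M2.cases3 h hv (N.three _ v.2.1) hd with h4 | h4 | h4
    · exact h4.2
    · exact absurd (v.2.2.symm.trans h4.1) (by norm_num)
    · exact absurd (v.2.2.symm.trans h4) (by norm_num)
  obtain ⟨r, u, hL, hT, hS⟩ := H76M2.loc3N h hv (v.1.valuation_le_one A) (v.1.valuation_le_one B)
    hd v.2.2.le he
  have hL1 := hL 1 (N.pi v.1) one_ne_zero (nk_even _) hp hpo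
  have hE1 := (hL 1 E one_ne_zero (nk_even _) hE hEo).hu c hc
  obtain ⟨h6, h7⟩ := hT (N.pi v.1) E hp hE (by
    rw [H76M2.ord_mul' v.1 hp hE]
    exact hpo.add_odd hEo) c
  have h8 : ∀ x y : ZMod 2, x + y = 0 ↔ x = y := by decide
  rw [Fin.forall_fin_two, h6, h7, mul_comm (N.pi v.1) E, h8, h8] at hE1
  have h9 : S.Lv E v.1 c ↔ u (N.pi v.1) 0 c = la v.1 (sc (E * N.pi v.1)) * r 1 c ∧
      u (N.pi v.1) 1 c = la v.1 (sc (E * N.pi v.1)) * r 0 c := hE1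
  rw [h9]
  symm
  refine H76M2.transfer (HH K L) (f0 := N.f3 v 0) (f1 := N.f3 v 1) (g0 := N.g3 v 0)
    (g1 := N.g3 v 1) (r0 := r 0) (r1 := r 1) (u0 := u (N.pi v.1) 0) (u1 := u (N.pi v.1) 1)
    ?_ ?_ ?_ ?_ _ hc
  · intro c hc
    have h10 := (N.loc3 v).hr c hc
    have h11 := hL1.hr c hc
    rw [Fin.forall_fin_two] at h10 h11
    rw [← h10, ← h11]
  · intro c hc
    have h10 := (N.loc3 v).hu c hc
    have h11 := hL1.hu c hc
    rw [Fin.forall_fin_two] at h10 h11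
    rw [← h10, ← h11]
  · intro c hc
    obtain ⟨y, hy, hyc⟩ := sc_surj c
    obtain ⟨Y, hY, ha, hb⟩ := H76MX.exists_YX h hy
    have hy0 : y * Y ^ 2 ≠ 0 := mul_ne_zero hy (pow_ne_zero 2 hY)
    have hsc : sc (y * Y ^ 2) = c := by
      rw [sc_mul hy (pow_ne_zero 2 hY), H54MT.sc_sq hY, add_zero, hyc]
    have h10 := (N.loc3 v).hq c hc _ hy0 hsc ha hb
    have h11 := hL1.hq c hc _ hy0 hsc ha hb
    rw [Fin.sum_univ_two] at h10 h11
    exact h10.symm.trans h11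
  · intro s0 s1 t0 t1
    obtain ⟨c, hc, h5, h6⟩ := hS (N.pi v.1) hp hpo ![s0, s1] ![t0, t1]
    exact ⟨c, hc, h5 0, h5 1, h6 0, h6 1⟩

/-- **cheb2.** -/
theorem cheb2_FF (N : NT S Sg D0 d) (T : Finset (Q2 K L Sg)) (T1 : Finset (P3 K L Sg))
    (φ : HH K L →+ ZMod 2) : ∃ q, q ∉ T ∧ ∀ x ∈ N.sys.FF T T1, N.sys.r q x = φ x := by
  obtain ⟨ψ, hψ⟩ := H76M2.ext_fun (HH K L) φ
  have hfin := fin_FF N T T1
  obtain ⟨Y, hY⟩ : ∃ Y : Set (SC L), Y = Subtype.val '' (N.sys.FF T T1 : Set (HH K L)) := ⟨_, rfl⟩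
  have hYf : Y.Finite := by
    rw [hY]
    exact (Set.toFinite (N.sys.FF T T1 : Set (HH K L))).image _
  have hYH : ∀ c ∈ Y, c ∈ HH K L := by
    intro c hc
    rw [hY] at hc
    obtain ⟨x, -, rfl⟩ := hc
    exact x.2
  obtain ⟨A, B, rfl, rfl⟩ := nk_int S
  obtain ⟨q, h1, h2, h3, h4⟩ := H76M2.cheb2 (show Cub K L (A : K) (B : K) θ from S.cub) S.dne S.dsq
    Sg N.ok0.two N.ok0.dis hYf hYH ψ (T := ((T.image Subtype.val : Finset _) : Set _))
    (Finset.finite_toSet _)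
  have hqT : (⟨q, h1, h3⟩ : Q2 K L Sg) ∉ T := by
    intro h5
    apply h2
    rw [Finset.mem_coe, Finset.mem_image]
    exact ⟨_, h5, rfl⟩
  refine ⟨⟨q, h1, h3⟩, hqT, fun x hx => ?_⟩
  have h5 := h4 (fun c => N.f2 ⟨q, h1, h3⟩ c) (fun c => N.g2 ⟨q, h1, h3⟩ c)
    (fun E hE hEe c hc => loc_two_even N ⟨q, h1, h3⟩ hE hEe hc)
    (fun E hE hEo c hc => loc_two N ⟨q, h1, h3⟩ hE hEo hc) (x : SC L) (by
      rw [hY]
      exact ⟨x, hx, rfl⟩) (hx.1 _ hqT)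
  rw [← hψ x]
  exact h5

end H26MQ
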