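import Pool.Agent.H26.MQ.Sc

/-!
ROW Sf (project MP_78d38b_MQ, about 120 lines): the choice of `T0`; the refreshment. Elementary.

exists_T0. `V_j := R ⟨∅, ∅, 0⟩ ∅ j` is finite (`finR`). By induction over a finite set of elements `x ≠ 0` of the `V_j` (finitely
many `j`): for every such `x` there is a prime `q` outside any given finite set with `r q x = 1`: a functional `φ : X →+ ZMod 2` with
`φ x = 1` exists (`X` is a vector space over `ZMod 2` by `ok.two`: `H88OD.Ib_sep` in Pool/Agent/H88/RE/Ib.lean, or copy its proof: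
`AddCommGroup.zmodModule`, `Module.forall_dual_apply_eq_zero_iff`), `ok.cheb2`, `V_j ≤ FF ∅ ∅ ≤ FF T ∅`. Let `T0` be the set of these primes
together with three more (`ok.cheb2` with larger and larger `T` gives new primes). Clean: `x ∈ R s0 T0 j`, `loc x = 0`: for
`q ∈ T0`: `u q x = 0` (so `x ∈ V_j`) and `r q x = 0`, so `x = 0`.
refresh. `q1 ∉ A ∪ s.T` from cheb2 (any functional, e.g. 0), `q2` from `ok.cheb2 (insert q1 (A ∪ s.T)) s.T1 (S.u q1)`;
`s' := (s.add2 q1).add2 q2`. Let `x ∈ R s' ∅ j`. Then `r q1 x = r q2 x = 0`, `x ∈ R s {q1, q2} j`. By `cardR` (A := {q1}) there is `y ≠ 0` in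
`R s {q1} j`; `u q1 y = 1` (else `y ∈ R s ∅ j = ⊥`), `quadR`: `u q1 y * r q1 y = 0`, so `r q1 y = 0`. `r q2 y = u q1 y = 1`
(`y ∈ FF (insert q1 s.T) s.T1 ≤ FF (insert q1 (A ∪ s.T)) s.T1`), `u q2 y = 0`. `bilR` (A := {q1, q2}) for `x`, `y`:
`u q1 x * r q1 y + r q1 x * u q1 y + u q2 x * r q2 y + r q2 x * u q2 y = u q2 x = 0`. So `x ∈ R s {q1} j`, `x ∈ FF ..`, `r q2 x = u q1 x = 0`, so
`x ∈ R s ∅ j = ⊥`.
-/

set_option autoImplicit false
open scoped Classical

namespace H26MQ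

variable {J X Q P Pt : Type} [AddCommGroup X] {S : Sys J X Q P} {C : Pt → Set J}

private theorem sf_sep {M : Type} [AddCommGroup M] (h2 : ∀ m : M, m + m = 0) {m : M} (hm : m ≠ 0) :
    ∃ φ : M →+ ZMod 2, φ m = 1 := by
  by_contra hcon
  push Not at hcon
  apply hm
  have h3 : ∀ a : ZMod 2, a ≠ 1 → a = 0 := by decide
  let _ : Module (ZMod 2) M := AddCommGroup.zmodModule (n := 2) (fun x => by rw [two_nsmul, h2])
  have hp : Fact (Nat.Prime 2) := ⟨Nat.prime_two⟩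
  rw [← Module.forall_dual_apply_eq_zero_iff (ZMod 2) m]
  intro f
  exact h3 _ (hcon f.toAddMonoidHom)

theorem exists_T0 [Finite J] (ok : S.Ok C) :
    ∃ T0 : Finset Q, 3 ≤ T0.card ∧ S.Clean ⟨∅, ∅, 0⟩ T0 := by
  have hinf : Infinite Q := by
    by_contra hfin
    rw [not_infinite_iff_finite] at hfin
    have := Fintype.ofFinite Q
    obtain ⟨q, hq, -⟩ := ok.cheb2 Finset.univ ∅ 0
    exact hq (Finset.mem_univ q)
  have hZ : (⋃ j : J, (S.R ⟨∅, ∅, 0⟩ ∅ j : Set X)).Finite := by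
    refine Set.finite_iUnion fun j => ?_
    have h := finR ok (⟨∅, ∅, 0⟩ : St Q P) ∅ j
    exact Set.toFinite _
  have hch : ∀ x : X, ∃ q : Q, x ≠ 0 → x ∈ (⋃ j : J, (S.R ⟨∅, ∅, 0⟩ ∅ j : Set X)) →
      S.r q x = 1 := by
    intro x
    obtain ⟨q0⟩ : Nonempty Q := inferInstance
    by_cases hx : x ≠ 0 ∧ x ∈ (⋃ j : J, (S.R ⟨∅, ∅, 0⟩ ∅ j : Set X))
    · obtain ⟨hx0, hx1⟩ := hx
      obtain ⟨φ, hφ⟩ := sf_sep ok.two hx0
      obtain ⟨q, -, hq⟩ := ok.cheb2 ∅ ∅ φ
      refine ⟨q, fun _ _ => ?_⟩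
      rw [← hφ]
      refine hq x ?_
      obtain ⟨j, hj⟩ := Set.mem_iUnion.mp hx1
      have h := R_le (SetLike.mem_coe.mp hj)
      simpa using h.2
    · refine ⟨q0, fun h1 h2 => absurd ⟨h1, h2⟩ hx⟩
  choose c hc using hch
  obtain ⟨T0, hT0, hcard⟩ := Infinite.exists_superset_card_eq (hZ.toFinset.image c)
    ((hZ.toFinset.image c).card + 3) (by omega)
  refine ⟨T0, by omega, ?_⟩
  intro j x hx hl
  by_contra hx0
  have hl' : ∀ q ∈ T0, S.u q x = 0 ∧ S.r q x = 0 := by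
    intro q hq
    have h := congrFun hl ⟨q, hq⟩
    have h' : (S.u q x, S.r q x) = ((0 : ZMod 2), (0 : ZMod 2)) := h
    exact ⟨congrArg Prod.fst h', congrArg Prod.snd h'⟩
  have hx1 : x ∈ S.R ⟨∅, ∅, 0⟩ ∅ j := by
    rw [Sys.mem_R] at hx ⊢
    obtain ⟨h1, h2, h3, h4, h5⟩ := hx
    refine ⟨h1, fun q hq _ => ?_, h3, h4, h5⟩
    by_cases hqT : q ∈ T0
    · exact (hl' q hqT).1
    · exact h2 q hq hqT
  have hx2 : x ∈ (⋃ j : J, (S.R ⟨∅, ∅, 0⟩ ∅ j : Set X)) := Set.mem_iUnion.mpr ⟨j, hx1⟩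
  have h1 := hc x hx0 hx2
  have h2 : c x ∈ T0 := hT0 (Finset.mem_image.mpr ⟨x, hZ.mem_toFinset.mpr hx2, rfl⟩)
  rw [(hl' _ h2).2] at h1
  exact zero_ne_one h1

theorem refresh (ok : S.Ok C) {s : St Q P} (hs : ∀ j, S.R s ∅ j = ⊥) (A : Finset Q) :
    ∃ s' : St Q P, s'.T.card = s.T.card + 2 ∧ (∃ q ∈ s'.T, q ∉ A) ∧ ∀ j, S.R s' ∅ j = ⊥ := by
  obtain ⟨q1, hq1, -⟩ := ok.cheb2 (A ∪ s.T) s.T1 0
  obtain ⟨q2, hq2, hr2⟩ := ok.cheb2 (insert q1 (A ∪ s.T)) s.T1 (S.u q1)
  have hq1A : q1 ∉ A := fun h => hq1 (Finset.mem_union_left _ h)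
  have hq1T : q1 ∉ s.T := fun h => hq1 (Finset.mem_union_right _ h)
  have hq21 : q2 ≠ q1 := fun h => hq2 (h ▸ Finset.mem_insert_self _ _)
  have hq2T : q2 ∉ s.T := fun h =>
    hq2 (Finset.mem_insert_of_mem (Finset.mem_union_right _ h))
  have hz2 : ∀ a : ZMod 2, a ≠ 0 → a = 1 := by decide
  refine ⟨(s.add2 q1).add2 q2, ?_, ⟨q1, ?_, hq1A⟩, ?_⟩
  · change (insert q2 (insert q1 s.T)).card = s.T.card + 2
    rw [Finset.card_insert_of_notMem, Finset.card_insert_of_notMem hq1T]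
    rw [Finset.mem_insert, not_or]
    exact ⟨hq21, hq2T⟩
  · exact Finset.mem_insert_of_mem (Finset.mem_insert_self _ _)
  · intro j
    rw [eq_bot_iff]
    intro x hx
    rw [Sys.mem_R] at hx
    obtain ⟨hx1, hx2, hx3, hx4, hx5⟩ := hx
    have hxu : ∀ q, q ∉ s.T → q ≠ q1 → q ≠ q2 → S.u q x = 0 := by
      intro q h1 h2 h3
      refine hx2 q ?_ (Finset.notMem_empty q)
      change q ∉ insert q2 (insert q1 s.T)
      rw [Finset.mem_insert, Finset.mem_insert, not_or, not_or]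
      exact ⟨h3, h2, h1⟩
    have hxr : ∀ q ∈ s.T, S.r q x = 0 := fun q hq =>
      hx3 q (Finset.mem_insert_of_mem (Finset.mem_insert_of_mem hq))
    have hxr1 : S.r q1 x = 0 := hx3 q1 (Finset.mem_insert_of_mem (Finset.mem_insert_self _ _))
    have hxr2 : S.r q2 x = 0 := hx3 q2 (Finset.mem_insert_self _ _)
    have hdis : Disjoint s.T {q1} := Finset.disjoint_singleton_right.mpr hq1T
    have hdis2 : Disjoint s.T {q1, q2} := by
      rw [Finset.disjoint_insert_right]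
      exact ⟨hq1T, Finset.disjoint_singleton_right.mpr hq2T⟩
    have hfin := finR ok s {q1} j
    have hcard := cardR ok hdis j
    rw [Finset.card_singleton, pow_one] at hcard
    have hnt : Nontrivial (S.R s {q1} j) := Finite.one_lt_card_iff_nontrivial.mp (by omega)
    obtain ⟨⟨y, hy⟩, hy0⟩ := exists_ne (0 : S.R s {q1} j)
    have hy0' : y ≠ 0 := fun h => hy0 (Subtype.ext h)
    have hyR := hy
    rw [Sys.mem_R] at hyR
    obtain ⟨hy1, hy2, hy3, hy4, hy5⟩ := hyR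
    have huy : S.u q1 y = 1 := by
      refine hz2 _ fun h => hy0' ?_
      have hmem : y ∈ S.R s ∅ j := by
        rw [Sys.mem_R]
        refine ⟨hy1, fun q h1 _ => ?_, hy3, hy4, hy5⟩
        by_cases hq : q = q1
        · rw [hq]
          exact h
        · exact hy2 q h1 (by rw [Finset.mem_singleton]; exact hq)
      rw [hs j] at hmem
      exact hmem
    have hry : S.r q1 y = 0 := by
      have h := quadR ok hdis hy
      rw [Finset.sum_singleton, huy, one_mul] at h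
      exact h
    have hyF : y ∈ S.FF (insert q1 (A ∪ s.T)) s.T1 := by
      have h := (R_le hy).2
      rw [Sys.mem_FF] at h ⊢
      refine ⟨fun q hq => h.1 q fun hh => hq ?_, h.2⟩
      rw [Finset.mem_union, Finset.mem_singleton] at hh
      rw [Finset.mem_insert, Finset.mem_union]
      tauto
    have hr2y : S.r q2 y = 1 := by
      rw [hr2 y hyF, huy]
    have hu2y : S.u q2 y = 0 := hy2 q2 hq2T (by rw [Finset.mem_singleton]; exact hq21)
    have hxR2 : x ∈ S.R s {q1, q2} j := by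
      rw [Sys.mem_R]
      refine ⟨hx1, fun q h1 h2 => ?_, hxr, hx4, hx5⟩
      rw [Finset.mem_insert, Finset.mem_singleton, not_or] at h2
      exact hxu q h1 h2.1 h2.2
    have hyR2 : y ∈ S.R s {q1, q2} j := by
      rw [Sys.mem_R]
      refine ⟨hy1, fun q h1 h2 => hy2 q h1 fun hh => h2 ?_, hy3, hy4, hy5⟩
      rw [Finset.mem_singleton] at hh
      rw [hh]
      exact Finset.mem_insert_self _ _
    have hb := bilR ok hdis2 hxR2 hyR2
    rw [Finset.sum_pair (Ne.symm hq21), hxr1, hxr2, hry, hr2y, hu2y] at hb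
    have hu2x : S.u q2 x = 0 := by
      simpa using hb
    have hxR1 : x ∈ S.R s {q1} j := by
      rw [Sys.mem_R]
      refine ⟨hx1, fun q h1 h2 => ?_, hxr, hx4, hx5⟩
      rw [Finset.mem_singleton] at h2
      by_cases hq : q = q2
      · rw [hq]
        exact hu2x
      · exact hxu q h1 h2 hq
    have hxF : x ∈ S.FF (insert q1 (A ∪ s.T)) s.T1 := by
      have h := (R_le hxR1).2
      rw [Sys.mem_FF] at h ⊢
      refine ⟨fun q hq => h.1 q fun hh => hq ?_, h.2⟩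
      rw [Finset.mem_union, Finset.mem_singleton] at hh
      rw [Finset.mem_insert, Finset.mem_union]
      tauto
    have hu1x : S.u q1 x = 0 := by
      rw [← hr2 x hxF]
      exact hxr2
    have hmem : x ∈ S.R s ∅ j := by
      rw [Sys.mem_R]
      refine ⟨hx1, fun q h1 _ => ?_, hxr, hx4, hx5⟩
      by_cases hq : q = q1
      · rw [hq]
        exact hu1x
      · by_cases hq' : q = q2
        · rw [hq']
          exact hu2x
        · exact hxu q h1 hq hq'
    rw [hs j] at hmem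
    exact hmem

end H26MQ
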