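import Pool.Agent.H26.MQ.Se
import Pool.Agent.H26.MQ.Sf

/-!
MP_78d38b_MQ (helper26): the main theorem of the system part.
-/

set_option autoImplicit false
open scoped Classical

namespace H26MQ

variable {J X Q P Pt : Type} [AddCommGroup X] {S : Sys J X Q P} {C : Pt → Set J}

theorem clean_bot {s : St Q P} {T0 : Finset Q} (hT : Disjoint s.T T0) (hcl : S.Clean s T0) (j : J)
    (h : (S.R s T0 j).map (S.loc T0) ⊓ WW _ = ⊥) : S.R s ∅ j = ⊥ := by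
  rw [eq_bot_iff]
  intro x hx
  rw [Sys.mem_R] at hx
  have h1 : ∀ q ∈ T0, S.u q x = 0 := fun q hq =>
    hx.2.1 q (fun h2 => Finset.disjoint_left.1 hT h2 hq) (Finset.notMem_empty q)
  have h2 : x ∈ S.R s T0 j := by
    rw [Sys.mem_R]
    exact ⟨hx.1, fun q h3 _ => hx.2.1 q h3 (Finset.notMem_empty q), hx.2.2⟩
  have h3 : S.loc T0 x ∈ (S.R s T0 j).map (S.loc T0) ⊓ WW _ :=
    ⟨⟨x, h2, rfl⟩, fun q => h1 q.1 q.2⟩
  rw [h] at h3
  exact AddSubgroup.mem_bot.2 (hcl j x h2 (AddSubgroup.mem_bot.1 h3))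

theorem card_inf {s : St Q P} {T0 : Finset Q} (hT : Disjoint s.T T0) (hcl : S.Clean s T0) (j : J) :
    Nat.card ↥((S.R s T0 j).map (S.loc T0) ⊓ WW _) = Nat.card (S.R s ∅ j) := by
  refine (Nat.card_congr (Equiv.ofBijective
    (fun x : S.R s ∅ j => (⟨S.loc T0 x, ?_⟩ : ↥((S.R s T0 j).map (S.loc T0) ⊓ WW _))) ?_)).symm
  · have hx := (Sys.mem_R.1 x.2)
    refine ⟨⟨x, ?_, rfl⟩, fun q => hx.2.1 q.1 (fun h2 => Finset.disjoint_left.1 hT h2 q.2)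
      (Finset.notMem_empty _)⟩
    rw [SetLike.mem_coe, Sys.mem_R]
    exact ⟨hx.1, fun q h3 _ => hx.2.1 q h3 (Finset.notMem_empty q), hx.2.2⟩
  · have hle : ∀ x ∈ S.R s ∅ j, x ∈ S.R s T0 j := by
      intro x hx
      rw [Sys.mem_R] at hx ⊢
      exact ⟨hx.1, fun q h3 _ => hx.2.1 q h3 (Finset.notMem_empty q), hx.2.2⟩
    constructor
    · intro x y hxy
      have h1 : S.loc T0 ((x : X) - y) = 0 := by
        rw [map_sub, sub_eq_zero]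
        exact congrArg Subtype.val hxy
      exact Subtype.ext (sub_eq_zero.1 (hcl j _ (hle _ (sub_mem x.2 y.2)) h1))
    · rintro ⟨z, ⟨x, hx, rfl⟩, hz⟩
      refine ⟨⟨x, ?_⟩, rfl⟩
      rw [SetLike.mem_coe, Sys.mem_R] at hx
      rw [Sys.mem_R]
      refine ⟨hx.1, fun q h1 _ => ?_, hx.2.2⟩
      by_cases hq : q ∈ T0
      · exact hz ⟨q, hq⟩
      · exact hx.2.1 q h1 hq

theorem sys_main [Finite J] (ok : S.Ok C) (one : ∀ i, ∃ p, i ∈ C p)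
    (sep : ∀ i l m, i ≠ l → i ≠ m → l ≠ m → (∃ p, i ∈ C p ∧ l ∉ C p) ∨ ∃ p, i ∈ C p ∧ m ∉ C p)
    (hev : ∀ j, ∃ k, Nat.card (S.R ⟨∅, ∅, 0⟩ ∅ j) = 4 ^ k) (A : Finset Q) :
    ∃ s : St Q P, Even s.T.card ∧ (∃ q ∈ s.T, q ∉ A) ∧ ∀ j, S.R s ∅ j = ⊥ := by
  obtain ⟨T0, hT0, hcl⟩ := exists_T0 ok
  have hd0 : Disjoint (⟨∅, ∅, 0⟩ : St Q P).T T0 := Finset.disjoint_empty_left T0
  obtain ⟨Λ, ⟨s, h1, h2, h3, h4⟩, h5⟩ := alg (ι := {q // q ∈ T0}) (by rwa [Fintype.card_coe]) C one sep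
    (fun Λ => ∃ s : St Q P, Disjoint s.T T0 ∧ S.Clean s T0 ∧ Even s.T.card ∧
      Λ = fun j => (S.R s T0 j).map (S.loc T0))
    (by
      rintro Λ ⟨s, h1, h2, -, rfl⟩ j
      exact lagR ok h1 (h2 j))
    (by
      rintro Λ ⟨s, h1, h2, h3, rfl⟩ p a b ha hb
      obtain ⟨s', g1, g2, g3, g4⟩ := block ok h1 h2 p ha hb
      refine ⟨s', g1, g2, ?_, funext fun j => ((g4 j).symm)⟩
      rw [g3]
      exact h3.add even_two)
    (fun j => (S.R ⟨∅, ∅, 0⟩ T0 j).map (S.loc T0))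
    ⟨⟨∅, ∅, 0⟩, hd0, hcl, by simp, rfl⟩
    (by
      intro j
      obtain ⟨k, hk⟩ := hev j
      exact ⟨k, by rw [card_inf hd0 hcl, hk]⟩)
  obtain ⟨s', g1, g2, g3⟩ := refresh ok (s := s) (fun j => clean_bot h1 h2 j (by
    have h6 := h5 j
    rw [h4] at h6
    exact h6)) A
  exact ⟨s', by rw [g1]; exact h3.add even_two, g2, g3⟩

end H26MQ
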