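import Pool.Agent.H26.MQ.Nd
import Pool.Agent.H26.MQ.Ne
import Pool.Agent.H26.MQ.Nf
import Pool.Agent.H26.MQ.Ni
import Pool.Agent.H26.MQ.Nk
import Pool.Agent.H26.MQ.Sh

/-!
MP_78d38b_MQ (helper26): the number-theoretic system has the properties.
-/

set_option autoImplicit false
set_option linter.unusedSectionVars false
open scoped Classical

open WithZero NumberField IsDedekindDomain H38RT
open H38T1 (SC sc scu rep eo la si OddP)
open H76PP (Cub LC ev scm dn)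
open H30ZO (HH nb Wc)
open H30OR (LocD)
open H88OD (Ext ClOk)

namespace H26MQ

variable {K L : Type} [Field K] [NumberField K] [Field L] [NumberField L] [Algebra K L] {a b : K}
  {θ : L} {S : Ext K K L a b θ} {Sg : Finset (HeightOneSpectrum (𝓞 K))} {D0 : K} {J : Type}
  {d : J → K}

theorem okk [Finite J] (N : NT S Sg D0 d) : N.sys.Ok (CC a b d) where
  two x := Subtype.ext (by
    change (x : SC L) + (x : SC L) = 0
    rw [← two_nsmul, H38T1.SC.two_smul])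
  fin := fin_FF N
  card := card_FF N
  quad := quad_FF N
  cheb2 := cheb2_FF N
  cheb1 := cheb1_FF N

/-- The state without primes: the Selmer group of `E_{d D₀}`. -/
theorem mem_R0 (N : NT S Sg D0 d) (j : J) (x : HH K L) :
    x ∈ N.sys.R ⟨∅, ∅, 0⟩ ∅ j ↔ S.V (d j * D0) (x : SC L) := by
  have h1 : x ∈ N.sys.R ⟨∅, ∅, 0⟩ ∅ j ↔ x ∈ N.sys.XX j ∧ x ∈ N.sys.FF ∅ ∅ := by
    rw [Sys.mem_R, Sys.mem_FF]
    refine and_congr_right fun _ => ⟨fun h => ⟨fun q _ => h.1 q (Finset.notMem_empty _)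
      (Finset.notMem_empty _), fun v _ => h.2.2.1 v (Finset.notMem_empty _)⟩, fun h => ⟨fun q _ _ =>
      h.1 q (Finset.notMem_empty _), fun q hq => absurd hq (Finset.notMem_empty _), fun v _ =>
      h.2 v (Finset.notMem_empty _), fun v hv => absurd hv (Finset.notMem_empty _)⟩⟩
  have h2 : x ∈ N.sys.FF ∅ ∅ ↔ ∀ w : HeightOneSpectrum (𝓞 L), dn K w ∉ Sg → eo w (x : SC L) = 0 := by
    rw [mem_FF]
    exact ⟨fun h w hw => h w hw (fun q hq => absurd hq (Finset.notMem_empty _))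
      (fun q hq => absurd hq (Finset.notMem_empty _)), fun h w hw _ _ => h w hw⟩
  have h3 : x ∈ N.sys.XX j ↔ (∀ v ∈ Sg, S.Lv (d j * D0) v x) ∧
    ∀ s : K →+* ℝ, S.Lr (d j * D0) s x := N.hXX j x
  rw [h1, h2, h3, H88OD.V_iff_Y S (N.ok j)]
  constructor
  · rintro ⟨⟨h4, h5⟩, h6⟩
    refine ⟨x.2, fun v hv => h4 v ?_, h5, fun w hw _ => h6 w ?_⟩
    · rwa [H88OD.dn_self] at hv
    · rwa [H88OD.dn_self] at hw
  · rintro ⟨-, h4, h5, h6⟩
    refine ⟨⟨fun v hv => h4 v ?_, h5⟩, fun w hw => h6 w ?_ (Finset.notMem_empty _)⟩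
    · rwa [H88OD.dn_self]
    · rwa [H88OD.dn_self]

theorem card_R0 (N : NT S Sg D0 d) (j : J) :
    Nat.card (N.sys.R ⟨∅, ∅, 0⟩ ∅ j) = Nat.card {c : SC L // S.V (d j * D0) c} := by
  refine Nat.card_congr ⟨fun x => ⟨(x : HH K L), (mem_R0 N j x).1 x.2⟩,
    fun c => ⟨⟨c.1, c.2.hh⟩, (mem_R0 N j _).2 c.2⟩, fun x => rfl, fun c => rfl⟩

end H26MQ
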