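import Pool.Agent.H26.MQ.Nl
import Pool.Agent.H38.MR.Gc

/-!
MP_78d38b_MQ (helper26): the main theorem for the number-theoretic system.
-/

set_option autoImplicit false
set_option linter.unusedSectionVars false
open scoped Classical

open WithZero NumberField IsDedekindDomain H38RT
open H38T1 (SC sc scu rep eo la si OddP)
open H76PP (Cub LC ev scm dn)
open H30ZO (HH nb Wc)
open H30OR (LocD)
open H88OD (Ext ClOk)

namespace H26MQ

variable {K L : Type} [Field K] [NumberField K] [Field L] [NumberField L] [Algebra K L] {a b : K}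
  {θ : L} {S : Ext K K L a b θ} {Sg : Finset (HeightOneSpectrum (𝓞 K))} {D0 : K} {J : Type}
  {d : J → K}

theorem NT_main [Finite J] (N : NT S Sg D0 d) (hinj : ∀ i j, i ≠ j → sc (d i) ≠ sc (d j))
    (hev : ∀ j, ∃ k, Nat.card {c : SC L // S.V (d j * D0) c} = 4 ^ k)
    {A₀ : Set (HeightOneSpectrum (𝓞 K))} (hA₀ : A₀.Finite) :
    ∃ (D : K) (p : HeightOneSpectrum (𝓞 K)), p ∉ A₀ ∧ Odd (ord (p.valuation K) (D / D0)) ∧
      D ≠ 0 ∧ (∀ u ∈ Sg, IsSquare (algebraMap K (u.adicCompletion K) (D / D0))) ∧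
      (∀ t : K →+* ℝ, 0 < t (D / D0)) ∧ ∀ j c, S.V (d j * D) c → c = 0 := by
  obtain ⟨s, h1, -, h3⟩ := sys_main (okk N) cc_one (cc_sep hinj) (fun j => by
    obtain ⟨k, hk⟩ := hev j
    exact ⟨k, by rw [card_R0, hk]⟩) ∅
  obtain ⟨D, p, -, h4, h5, h6⟩ := H38MR.exists_D N s h1 hA₀
  refine ⟨D, p, h4, h5, h6.ne, h6.sq, h6.pos, fun j c hc => ?_⟩
  have h7 := (h6.V_iff j ⟨c, hc.hh⟩).1 hc
  rw [h3 j] at h7
  exact congrArg Subtype.val (AddSubgroup.mem_bot.1 h7)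

end H26MQ
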