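import Pool.Agent.H38.MR.Hc
import Pool.Agent.H76.MB.Bg
import Pool.Agent.H76.MB.Ci

/-!
MP_78d38b_MQ (helper26): the balance of the parities for a set of twists which is finite modulo squares (adapter to Pool/Agent/H76/MB).
-/

set_option autoImplicit false
set_option linter.unusedSectionVars false
open scoped Classical

open WithZero NumberField IsDedekindDomain H38RT WeierstrassCurve
open H38T1 (SC sc)
open H88PL (Ev)
open H30ZO (Tv)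
open H76MB (Bal CycAt)
open H76GM (EvS)

namespace H26MQ

variable {K : Type} [Field K] [NumberField K]

/-- The parities are balanced. -/
def BalP (Δ : Set K) (a b D : K) : Prop :=
  ∀ T : Finset K, (↑T : Set K) ⊆ Δ → Even T.card → IsSquare (∏ d ∈ T, d) →
    Even (T.filter fun d => ¬ Ev a b (d * D)).card

/-- At most two classes at `v`. -/
def CycP (Δ : Set K) (v : HeightOneSpectrum (𝓞 K)) : Prop :=
  ∀ d ∈ Δ, ∀ d' ∈ Δ, ∀ d'' ∈ Δ, IsSquare (algebraMap K (v.adicCompletion K) (d * d')) ∨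
    IsSquare (algebraMap K (v.adicCompletion K) (d' * d'')) ∨
    IsSquare (algebraMap K (v.adicCompletion K) (d * d''))

theorem ev_evS {a b : 𝓞 K} {D : K} : Ev (a : K) (b : K) D ↔ EvS K K a b D := Iff.rfl

theorem balP_iff {Δ : Set K} {a b : 𝓞 K} {D : K} : BalP Δ (a : K) (b : K) D ↔
    ∀ T : Finset K, (↑T : Set K) ⊆ Δ → Bal a b T D := by
  constructor
  · intro h T hT I hI h1 h2
    exact h I (fun x hx => hT (hI hx)) h1 h2
  · intro h T hT h1 h2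
    exact h T hT T subset_rfl h1 h2

theorem cyc_fin {Δ : Set K} {v : HeightOneSpectrum (𝓞 K)} (h : CycP Δ v) {T : Finset K}
    (hT : (↑T : Set K) ⊆ Δ) : CycAt T v :=
  fun d hd d' hd' d'' hd'' => h d (hT hd) d' (hT hd') d'' (hT hd'')

variable {a b : 𝓞 K}

theorem bal_nearP (hir : ∀ t : K, t ^ 3 + (a : K) * t + (b : K) ≠ 0)
    (hsq : ¬ IsSquare (-(4 * (a : K) ^ 3 + 27 * (b : K) ^ 2))) {Δ : Set K}
    (h0 : ∀ d ∈ Δ, d ≠ 0) {D0 D : K} (hD0 : D0 ≠ 0) (hD : D ≠ 0)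
    (h : ∀ v : HeightOneSpectrum (𝓞 K),
      IsSquare (algebraMap K (v.adicCompletion K) (D / D0)) ∨ CycP Δ v) :
    BalP Δ (a : K) (b : K) D0 ↔ BalP Δ (a : K) (b : K) D := by
  rw [balP_iff, balP_iff]
  refine forall_congr' fun T => forall_congr' fun hT => ?_
  exact H76MB.bal_near hir hsq (fun d hd => h0 d (hT hd)) hD0 hD fun v =>
    (h v).imp_right fun h1 => cyc_fin h1 hT

theorem bal_cycP (hir : ∀ t : K, t ^ 3 + (a : K) * t + (b : K) ≠ 0)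
    (hsq : ¬ IsSquare (-(4 * (a : K) ^ 3 + 27 * (b : K) ^ 2))) {Δ : Set K}
    (h0 : ∀ d ∈ Δ, d ≠ 0) (hc : ∀ v : HeightOneSpectrum (𝓞 K), CycP Δ v) {D : K} (hD : D ≠ 0) :
    BalP Δ (a : K) (b : K) D := by
  rw [balP_iff]
  intro T hT
  exact H76MB.bal_cyc hir hsq (fun d hd => h0 d (hT hd)) (fun v => cyc_fin (hc v) hT) hD

theorem bal_of_ev {Δ : Set K} {D : K} (h : ∀ d ∈ Δ, Ev (a : K) (b : K) (d * D)) :
    BalP Δ (a : K) (b : K) D := by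
  intro T hT _ _
  rw [Finset.filter_false_of_mem fun d hd => not_not.2 (h d (hT hd)), Finset.card_empty]
  exact Even.zero

/-- Triviality implies even rank. -/
theorem ev_of_tv (hir : ∀ t : K, t ^ 3 + (a : K) * t + (b : K) ≠ 0)
    (hsq : ¬ IsSquare (-(4 * (a : K) ^ 3 + 27 * (b : K) ^ 2))) {D : K} (hD : D ≠ 0)
    (h : Tv K (D ^ 2 * (a : K)) (D ^ 3 * (b : K))) : Ev (a : K) (b : K) D := by
  have hne : 4 * (a : K) ^ 3 + 27 * (b : K) ^ 2 ≠ 0 := by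
    intro h
    apply hsq
    rw [h, neg_zero]
    exact ⟨0, (mul_zero 0).symm⟩
  refine ⟨0, ?_⟩
  rw [pow_zero]
  exact H88OD.selCard_of_Tv (fun v => v.valuation_le_one a) (fun v => v.valuation_le_one b) hir hne
    hsq hD h

/-- Almost all curves. -/
theorem dens_balP {Δ : Set K} (hΔ : (sc '' Δ : Set (SC K)).Finite) (h0 : ∀ d ∈ Δ, d ≠ 0)
    (S : Finset (HeightOneSpectrum (𝓞 K))) {ε : ℝ} (hε : 0 < ε) :
    ∃ X₀ : ℝ, ∀ X : ℝ, X₀ ≤ X →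
      ({p : 𝓞 K × 𝓞 K | p ∈ H76PP.Bx K X ∧ ¬ ((∀ t : K, t ^ 3 + (p.1 : K) * t + (p.2 : K) ≠ 0) ∧
        ¬ IsSquare (-(4 * (p.1 : K) ^ 3 + 27 * (p.2 : K) ^ 2)) ∧
        ∀ D₀ : K, D₀ ≠ 0 → BalP Δ (p.1 : K) (p.2 : K) D₀ →
          ∃ D, H38MR.Nr S D₀ D ∧ ∀ d ∈ Δ, Ev (p.1 : K) (p.2 : K) (d * D))}.ncard : ℝ) ≤
        ε * ((H76PP.Bx K X).ncard : ℝ) := by
  obtain ⟨J, hJ, d, hd, -, hrep⟩ := H38MR.exists_rep hΔ h0
  have := Fintype.ofFinite J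
  obtain ⟨X₀, h1⟩ := H76MB.dens_bal (K := K) (Δ := Finset.univ.image d) (fun x hx => by
    obtain ⟨j, -, rfl⟩ := Finset.mem_image.1 hx
    exact h0 _ (hd j)) S hε
  refine ⟨X₀, fun X hX => ?_⟩
  refine le_trans (Nat.cast_le.2 ?_) (h1 X hX)
  refine Set.ncard_le_ncard ?_ ((H76PP.Bx_fin K X).subset fun p hp => hp.1)
  rintro p ⟨hp, hno⟩
  refine ⟨hp, fun hh => hno ⟨hh.1, hh.2.1, fun D₀ hD₀ hb => ?_⟩⟩
  obtain ⟨D, h2, h3⟩ := hh.2.2 D₀ hD₀ (balP_iff.1 hb _ (by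
    intro x hx
    rw [Finset.mem_coe] at hx
    obtain ⟨j, -, rfl⟩ := Finset.mem_image.1 hx
    exact hd j))
  refine ⟨D, ⟨h2.n1, h2.sq, h2.pos⟩, fun x hx => ?_⟩
  obtain ⟨j, hj⟩ := hrep x hx
  have hne : 4 * (p.1 : K) ^ 3 + 27 * (p.2 : K) ^ 2 ≠ 0 := by
    intro h
    apply hh.2.1
    rw [h, neg_zero]
    exact ⟨0, (mul_zero 0).symm⟩
  obtain ⟨L, _, _, _, θ, ⟨S'⟩⟩ := H88OD.exists_self (fun v => v.valuation_le_one p.1)
    (fun v => v.valuation_le_one p.2) hh.1 hne hh.2.1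
  refine (H38MR.ev_sq S' (mul_ne_zero (h0 _ (hd j)) h2.n1) (mul_ne_zero (h0 x hx) h2.n1) ?_).1
    (h3 (d j) (Finset.mem_image.2 ⟨j, Finset.mem_univ _, rfl⟩))
  rwa [mul_div_mul_right _ _ h2.n1]

end H26MQ
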