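import Pool.Agent.H30.QC.E1
import Pool.Agent.H30.QC.V1
import Pool.Agent.H26.GN.G1
import Pool.Agent.H88.PL.Pf
import Pool.Agent.H88.GN.Kd
import Pool.Agent.H38.MR.Hc

/-!
Project MP_78d38b_QC (helper26, after row F1 by helper88): the number of twists which are trivial over all
fields between `K` and `N`, for finitely many multipliers at the same time.
-/

set_option autoImplicit false
set_option linter.unusedSectionVars false
open scoped Classical

open NumberField IsDedekindDomain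
open H26GX (Pk)

namespace H26MQ

private theorem fin_val {K : Type} [Field K] [NumberField K] {x : K} (hx : x ≠ 0) :
    {v : HeightOneSpectrum (𝓞 K) | v.valuation K x ≠ 1}.Finite := by
  obtain ⟨α, β, hβ, hxy⟩ := IsFractionRing.div_surjective (A := 𝓞 K) x
  have hβ0 : β ≠ 0 := nonZeroDivisors.ne_zero hβ
  have hα0 : α ≠ 0 := by
    rintro rfl
    apply hx
    rw [← hxy, map_zero, zero_div]
  refine ((H30MQ.fin_mem hα0).union (H30MQ.fin_mem hβ0)).subset fun v hv => ?_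
  by_contra h
  rw [Set.mem_union, not_or] at h
  apply hv
  rw [← hxy, map_div₀, v.valuation_eq_one_iff_notMem.mpr h.1, v.valuation_eq_one_iff_notMem.mpr h.2,
    div_one]

theorem many_twists_T {K N : Type} [Field K] [NumberField K] [Field N] [NumberField N]
    [Algebra K N] [IsGalois K N] {ι : Type} [Fintype ι] (a b : ι → 𝓞 K)
    (hir : ∀ (j : ι) (t : K), t ^ 3 + (a j : K) * t + (b j : K) ≠ 0)
    (hind : ∀ I : Finset ι, I.Nonempty →
      ¬ IsSquare (algebraMap K N (∏ j ∈ I, H26OD.dd3 (a j : K) (b j : K))))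
    (T : Finset K) (hT : ∀ t ∈ T, t ≠ 0) {D1 : K} (hD1 : D1 ≠ 0)
    (htv : ∀ j, ∀ t ∈ T, H30ZO.Tv N (algebraMap K N ((t * D1) ^ 2 * (a j : K)))
      (algebraMap K N ((t * D1) ^ 3 * (b j : K))))
    (S : Finset (HeightOneSpectrum (𝓞 K))) :
    ∃ e : ℝ, 0 < e ∧ ∃ X₀ : ℝ, ∀ X : ℝ, X₀ ≤ X → ∃ F : Finset (𝓞 K),
      X ^ Module.finrank ℚ K / Real.log X ^ (1 - e) ≤ (F.card : ℝ) ∧
      (∀ D ∈ F, ∀ D' ∈ F, IsSquare ((D : K) * (D' : K)) → D = D') ∧
      ∀ D ∈ F, (D : K) ≠ 0 ∧ (∀ s : K →+* ℂ, ‖s (D : K)‖ ≤ X) ∧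
        (∀ v ∈ S, IsSquare (algebraMap K (v.adicCompletion K) ((D : K) / D1))) ∧
        (∀ s : K →+* ℝ, 0 < s ((D : K) / D1)) ∧
        (∀ v : HeightOneSpectrum (𝓞 K), v ∉ H26OD.Zs K N →
          IsSquare (v.valuation K ((D : K) / D1))) ∧
        ∀ j, ∀ t ∈ T, H88PL.TvN K N (a j : K) (b j : K) (t * (D : K)) := by
  have hsq : ∀ j, ¬ IsSquare (algebraMap K N (H26OD.dd3 (a j : K) (b j : K))) := by
    intro j h
    apply hind {j} (Finset.singleton_nonempty j)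
    rwa [Finset.prod_singleton]
  have p : ∀ j, Pk K N (a j : K) (b j : K) := fun j =>
    (H26GX.exists_pk (a j) (b j) (hir j) (hsq j)).some
  have hTD : ∀ t ∈ T, t * D1 ≠ 0 := fun t ht => mul_ne_zero (hT t ht) hD1
  have hS1 : ∀ t ∈ T, ∃ Sg' : Finset (HeightOneSpectrum (𝓞 K)), ∀ j, (p j).S.Ok (t * D1) Sg' := by
    intro t ht
    obtain ⟨Sg1, -, hok1, -⟩ := H26GX.ok_all p (hTD t ht) S
    exact ⟨Sg1, hok1⟩
  choose! Sgt hokt using hS1
  obtain ⟨Sc, hSc, hcl0⟩ := H88OD.exists_cl (K := K)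
    ((S ∪ T.biUnion Sgt) ∪ ((fin_val (K := K) two_ne_zero).toFinset ∪ (fin_val hD1).toFinset))
  have hcl : H88OD.ClOk K Sc := hcl0 Sc (Finset.Subset.refl _)
  have h1 : ∀ t ∈ T, ∀ v, v ∉ Sc → v ∉ Sgt t := fun t ht v hv h =>
    hv (hSc (Finset.mem_union_left _ (Finset.mem_union_right _ (Finset.mem_biUnion.2 ⟨t, ht, h⟩))))
  have h2 : ∀ v : HeightOneSpectrum (𝓞 K), v ∉ Sc → v.valuation K 2 = 1 := by
    intro v hv
    by_contra h
    exact hv (hSc (Finset.mem_union_right _ (Finset.mem_union_left _ (by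
      rw [Set.Finite.mem_toFinset]
      exact h))))
  have h3 : ∀ v : HeightOneSpectrum (𝓞 K), v ∉ Sc → v.valuation K D1 = 1 := by
    intro v hv
    by_contra h
    exact hv (hSc (Finset.mem_union_right _ (Finset.mem_union_right _ (by
      rw [Set.Finite.mem_toFinset]
      exact h))))
  have hok : ∀ j, ∀ t ∈ T, (p j).S.Ok (t * D1) Sc := fun j t ht =>
    ⟨hTD t ht, fun v hv => (hokt t ht j).two v (h1 t ht v hv),
      fun v hv => (hokt t ht j).dis v (h1 t ht v hv), fun v hv => (hokt t ht j).val v (h1 t ht v hv)⟩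
  obtain ⟨e, he, X₀, hX⟩ := H30QC.family (N := N) a b hir hind h2 hcl hD1 h3
  refine ⟨e, he, X₀, fun X hXX => ?_⟩
  obtain ⟨F, hF, hdif, hD⟩ := hX X hXX
  refine ⟨F, hF, hdif, fun D hDF => ?_⟩
  obtain ⟨hsize, δ, γ, hδ, hγ, hDe, hsqS, hpos, hout⟩ := hD D hDF
  have hD0 : (D : K) ≠ 0 := by
    rw [hDe]
    exact mul_ne_zero (mul_ne_zero hD1 hδ) (pow_ne_zero 2 hγ)
  have hq : (D : K) / D1 = δ * γ ^ 2 := by
    rw [hDe]
    field_simp
  refine ⟨hD0, hsize, fun v hv => ?_, fun s => ?_, fun v hv => ?_, fun j t ht => ?_⟩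
  · rw [hq, map_mul, map_pow]
    exact (hsqS v (hSc (Finset.mem_union_left _ (Finset.mem_union_left _ hv)))).mul ⟨_, sq _⟩
  · rw [hq, map_mul, map_pow]
    have h5 : s γ ≠ 0 := (map_ne_zero s).2 hγ
    exact mul_pos (hpos s) (by positivity)
  · rw [hq, map_mul, map_pow]
    refine IsSquare.mul ?_ ⟨_, sq _⟩
    by_cases hvS : v ∈ Sc
    · obtain ⟨r, hr⟩ := hsqS v hvS
      have h6 : v.valuation K δ = Valued.v (algebraMap K (v.adicCompletion K) δ) :=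
        (v.valuedAdicCompletion_eq_valuation' δ).symm
      rw [h6, hr, map_mul]
      exact ⟨_, rfl⟩
    · by_contra h7
      apply hv
      refine (hout v hvS ?_).2.1
      intro h8
      apply h7
      rw [h8]
      exact ⟨1, (mul_one 1).symm⟩
  · have hV0 : (p j).V0 (t * D1) := fun c hc => H88GN.V_of_tv (p j).S (hTD t ht) (htv j t ht) c hc
    have hV : ∀ c, (p j).S.V (t * (D : K)) c → c = 0 := by
      intro c hc
      apply hV0 c
      have he : t * (D : K) = t * D1 * δ * γ ^ 2 := by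
        rw [hDe]
        ring
      rw [he] at hc
      refine (H30QC.V_fam (p j).S (hok j t ht) hδ hγ hsqS hpos (fun u hu hu1 => ?_) c).1 hc
      obtain ⟨-, g1, g2, -⟩ := hout u hu hu1
      exact ⟨g1, fun t ht => H26OD.val_NR (g2 j) t ht⟩
    exact fun M _ _ _ _ _ => H88GX.tv_between (p j).S (mul_ne_zero (hT t ht) hD0) hV M

/-- The case `N = K` and one curve. -/
theorem many_K {K : Type} [Field K] [NumberField K] {a b : 𝓞 K}
    (hir : ∀ t : K, t ^ 3 + (a : K) * t + (b : K) ≠ 0)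
    (hsq : ¬ IsSquare (-(4 * (a : K) ^ 3 + 27 * (b : K) ^ 2))) {Δ : Set K}
    (hΔ : (H38T1.sc '' Δ : Set (H38T1.SC K)).Finite) (h0 : ∀ d ∈ Δ, d ≠ 0) {D1 : K} (hD1 : D1 ≠ 0)
    (htv : ∀ d ∈ Δ, H30ZO.Tv K ((d * D1) ^ 2 * (a : K)) ((d * D1) ^ 3 * (b : K)))
    (S : Finset (HeightOneSpectrum (𝓞 K))) :
    ∃ e : ℝ, 0 < e ∧ ∃ X₀ : ℝ, ∀ X : ℝ, X₀ ≤ X → ∃ F : Finset (𝓞 K),
      X ^ Module.finrank ℚ K / Real.log X ^ (1 - e) ≤ (F.card : ℝ) ∧
      (∀ D ∈ F, ∀ D' ∈ F, IsSquare ((D : K) * (D' : K)) → D = D') ∧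
      ∀ D ∈ F, (D : K) ≠ 0 ∧ (∀ s : K →+* ℂ, ‖s (D : K)‖ ≤ X) ∧
        (∀ v ∈ S, IsSquare (algebraMap K (v.adicCompletion K) ((D : K) / D1))) ∧
        (∀ s : K →+* ℝ, 0 < s ((D : K) / D1)) ∧
        ∀ d ∈ Δ, H30ZO.Tv K ((d * (D : K)) ^ 2 * (a : K)) ((d * (D : K)) ^ 3 * (b : K)) := by
  have hne : 4 * (a : K) ^ 3 + 27 * (b : K) ^ 2 ≠ 0 := by
    intro h
    apply hsq
    rw [h, neg_zero]
    exact ⟨0, (mul_zero 0).symm⟩
  obtain ⟨L, _, _, _, θ, ⟨Sx⟩⟩ := H88OD.exists_self (fun v => v.valuation_le_one a)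
    (fun v => v.valuation_le_one b) hir hne hsq
  obtain ⟨J, _, d, hd, hinj, hrep⟩ := H38MR.exists_rep hΔ h0
  have hJ := Fintype.ofFinite J
  obtain ⟨e, he, X₀, hX⟩ := many_twists_T (K := K) (N := K) (ι := Unit) (fun _ => a) (fun _ => b)
    (fun _ => hir) (fun I hI => by
      have hI1 : I = {()} := by
        obtain ⟨y, hy⟩ := hI
        ext x
        exact ⟨fun _ => Finset.mem_singleton.2 rfl, fun _ => hy⟩
      rw [hI1, Finset.prod_singleton]
      exact hsq) (Finset.univ.image d) (by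
      intro t ht
      obtain ⟨j, -, rfl⟩ := Finset.mem_image.1 ht
      exact h0 _ (hd j)) hD1 (by
      intro _ t ht
      obtain ⟨j, -, rfl⟩ := Finset.mem_image.1 ht
      exact htv _ (hd j)) S
  refine ⟨e, he, X₀, fun X hXX => ?_⟩
  obtain ⟨F, hF, hdif, hD⟩ := hX X hXX
  refine ⟨F, hF, hdif, fun D hDF => ?_⟩
  obtain ⟨h1, h2, h3, h4, -, h5⟩ := hD D hDF
  refine ⟨h1, h2, h3, h4, fun x hx => ?_⟩
  obtain ⟨j, hj⟩ := hrep x hx
  have h6 := h5 () (d j) (Finset.mem_image.2 ⟨j, Finset.mem_univ _, rfl⟩) K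
  refine H38MR.tv_sq Sx (mul_ne_zero (h0 _ (hd j)) h1) (mul_ne_zero (h0 x hx) h1) ?_ h6
  rwa [mul_div_mul_right _ _ h1]

end H26MQ
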