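import Pool.Agent.H26.MQ.Pd
import Pool.Agent.H26.MQ.Qt

/-!
Project MP_78d38b_MQ (helper26): changes of signs at real places.
-/

set_option autoImplicit false
set_option linter.unusedSectionVars false
open scoped Classical

open NumberField IsDedekindDomain
open H38T1 (SC sc)
open H88PL (Ev)
open H30ZO (Tv)

namespace H26MQ

variable {K : Type} [Field K] [NumberField K]

/-- The change of all the parities at the same time. -/
theorem par_all {a b : 𝓞 K} (hir : ∀ t : K, t ^ 3 + (a : K) * t + (b : K) ≠ 0)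
    (hsq : ¬ IsSquare (-(4 * (a : K) ^ 3 + 27 * (b : K) ^ 2))) {Δ : Set K}
    (hΔ : (sc '' Δ : Set (SC K)).Finite) (h0 : ∀ d ∈ Δ, d ≠ 0) {D0 : K} (hD0 : D0 ≠ 0) :
    ∃ S0 : Finset (HeightOneSpectrum (𝓞 K)), ∀ D : K, D ≠ 0 →
      (∀ v ∈ S0, IsSquare (algebraMap K (v.adicCompletion K) (D / D0))) →
      ∀ d ∈ Δ, ((Ev (a : K) (b : K) (d * D0) ↔ Ev (a : K) (b : K) (d * D)) ↔
        Even (Nat.card {s : K →+* ℝ // s (D / D0) < 0})) := by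
  have hne : 4 * (a : K) ^ 3 + 27 * (b : K) ^ 2 ≠ 0 := by
    intro h
    apply hsq
    rw [h, neg_zero]
    exact ⟨0, (mul_zero 0).symm⟩
  obtain ⟨L, _, _, _, θ, ⟨S⟩⟩ := H88OD.exists_self (fun v => v.valuation_le_one a)
    (fun v => v.valuation_le_one b) hir hne hsq
  obtain ⟨J, _, d, hd, hinj, hrep⟩ := H38MR.exists_rep hΔ h0
  have hd0 : ∀ j, d j ≠ 0 := fun j => h0 _ (hd j)
  obtain ⟨Sg, -, ⟨N⟩⟩ := H26MQ.exists_NT S hD0 hd0 ∅
  refine ⟨Sg, fun D hD h1 x hx => ?_⟩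
  obtain ⟨j, hj⟩ := hrep x hx
  have e : d j * D / (d j * D0) = D / D0 := mul_div_mul_left _ _ (hd0 j)
  have h4 := H88PL.par_sgn S (N.ok j) N.three (mul_ne_zero (hd0 j) hD) (fun v hv => by
    rw [e]
    exact h1 v hv)
  rw [e] at h4
  have hq : ∀ E : K, E ≠ 0 → IsSquare (x * E / (d j * E)) := by
    intro E hE
    rwa [mul_div_mul_right _ _ hE]
  rw [← H38MR.ev_sq S (mul_ne_zero (hd0 j) hD0) (mul_ne_zero (h0 x hx) hD0) (hq D0 hD0),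
    ← H38MR.ev_sq S (mul_ne_zero (hd0 j) hD) (mul_ne_zero (h0 x hx) hD) (hq D hD)]
  exact h4

/-- An element which is negative at one real place only. -/
theorem exists_sgn {a b : 𝓞 K} (hir : ∀ t : K, t ^ 3 + (a : K) * t + (b : K) ≠ 0)
    (hsq : ¬ IsSquare (-(4 * (a : K) ^ 3 + 27 * (b : K) ^ 2))) (s0 : K →+* ℝ)
    (Sg : Finset (HeightOneSpectrum (𝓞 K))) :
    ∃ δ : K, δ ≠ 0 ∧ (∀ u ∈ Sg, IsSquare (algebraMap K (u.adicCompletion K) δ)) ∧ s0 δ < 0 ∧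
      ∀ s : K →+* ℝ, s ≠ s0 → 0 < s δ := by
  obtain ⟨δ, h1, h2, h3, h4, -⟩ := H88PL.exists_sign (K := K) (N := K) (ι := Unit) (fun _ => a)
    (fun _ => b) (fun _ => hir) (fun I hI => by
      have hI1 : I = {()} := by
        obtain ⟨y, hy⟩ := hI
        ext x
        exact ⟨fun _ => Finset.mem_singleton.2 rfl, fun _ => hy⟩
      rw [hI1, Finset.prod_singleton]
      exact hsq) s0 Sg
  exact ⟨δ, h1, h2, h3, h4⟩

/-- The criterion with changes of signs: necessity. -/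
theorem nec_R {a b : 𝓞 K} (hir : ∀ t : K, t ^ 3 + (a : K) * t + (b : K) ≠ 0)
    (hsq : ¬ IsSquare (-(4 * (a : K) ^ 3 + 27 * (b : K) ^ 2))) {Δ : Set K}
    (hΔ : (sc '' Δ : Set (SC K)).Finite) (h0 : ∀ d ∈ Δ, d ≠ 0) {D0 : K} (hD0 : D0 ≠ 0) :
    ∃ S0 : Finset (HeightOneSpectrum (𝓞 K)), ∀ (R : Set (K →+* ℝ)) (D : K), D ≠ 0 →
      (∀ v ∈ S0, IsSquare (algebraMap K (v.adicCompletion K) (D / D0))) →
      (∀ s : K →+* ℝ, s ∉ R → 0 < s (D / D0)) →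
      (∀ d ∈ Δ, Tv K ((d * D) ^ 2 * (a : K)) ((d * D) ^ 3 * (b : K))) →
      (∀ d ∈ Δ, Ev (a : K) (b : K) (d * D0)) ∨
        (R.Nonempty ∧ ∀ d ∈ Δ, ¬ Ev (a : K) (b : K) (d * D0)) := by
  obtain ⟨S0, hS0⟩ := par_all hir hsq hΔ h0 hD0
  refine ⟨S0, fun R D hD h1 h2 h3 => ?_⟩
  have h4 := hS0 D hD h1
  have h5 : ∀ d ∈ Δ, Ev (a : K) (b : K) (d * D) := fun d hd =>
    ev_of_tv hir hsq (mul_ne_zero (h0 d hd) hD) (h3 d hd)
  by_cases hE : Even (Nat.card {s : K →+* ℝ // s (D / D0) < 0})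
  · exact Or.inl fun d hd => ((h4 d hd).2 hE).2 (h5 d hd)
  · refine Or.inr ⟨?_, fun d hd h => hE ((h4 d hd).1 ⟨fun _ => h5 d hd, fun _ => h⟩)⟩
    by_contra hR
    rw [Set.not_nonempty_iff_eq_empty] at hR
    apply hE
    have h6 : IsEmpty {s : K →+* ℝ // s (D / D0) < 0} :=
      ⟨fun z => absurd z.2 (not_lt.2 (h2 z.1 (by rw [hR]; exact Set.notMem_empty _)).le)⟩
    rw [Nat.card_of_isEmpty]
    exact ⟨0, rfl⟩

/-- If all ranks are odd they become even after a change of the sign at one real place. -/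
theorem flip_R {a b : 𝓞 K} (hir : ∀ t : K, t ^ 3 + (a : K) * t + (b : K) ≠ 0)
    (hsq : ¬ IsSquare (-(4 * (a : K) ^ 3 + 27 * (b : K) ^ 2))) {Δ : Set K}
    (hΔ : (sc '' Δ : Set (SC K)).Finite) (h0 : ∀ d ∈ Δ, d ≠ 0) {D0 : K} (hD0 : D0 ≠ 0)
    (hno : ∀ d ∈ Δ, ¬ Ev (a : K) (b : K) (d * D0)) (s0 : K →+* ℝ)
    (S : Finset (HeightOneSpectrum (𝓞 K))) :
    ∃ D : K, D ≠ 0 ∧ (∀ v ∈ S, IsSquare (algebraMap K (v.adicCompletion K) (D / D0))) ∧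
      (∀ s : K →+* ℝ, s ≠ s0 → 0 < s (D / D0)) ∧ ∀ d ∈ Δ, Ev (a : K) (b : K) (d * D) := by
  obtain ⟨S0, hS0⟩ := par_all hir hsq hΔ h0 hD0
  obtain ⟨δ, h1, h2, h3, h4⟩ := exists_sgn hir hsq s0 (S0 ∪ S)
  have e : D0 * δ / D0 = δ := mul_div_cancel_left₀ _ hD0
  refine ⟨D0 * δ, mul_ne_zero hD0 h1, fun v hv => ?_, fun s hs => ?_, fun d hd => ?_⟩
  · rw [e]
    exact h2 v (Finset.mem_union_right _ hv)
  · rw [e]
    exact h4 s hs
  · have h5 := hS0 (D0 * δ) (mul_ne_zero hD0 h1) (fun v hv => by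
      rw [e]
      exact h2 v (Finset.mem_union_left _ hv)) d hd
    rw [e] at h5
    have h6 : Nat.card {s : K →+* ℝ // s δ < 0} = 1 := by
      rw [Nat.card_eq_one_iff_unique]
      have h7 : ∀ z : {s : K →+* ℝ // s δ < 0}, z.1 = s0 := by
        intro z
        by_contra hz
        exact absurd (h4 z.1 hz) (not_lt.2 z.2.le)
      exact ⟨⟨fun x y => Subtype.ext (by rw [h7 x, h7 y])⟩, ⟨⟨s0, h3⟩⟩⟩
    rw [h6] at h5
    by_contra hcon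
    exact Nat.not_even_one (h5.1 ⟨fun h => absurd h (hno d hd), fun h => absurd h hcon⟩)

end H26MQ
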