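import Pool.Agent.H26.MQ.Pd

/-!
**The criterion for simultaneous quadratic twists.** Let `E : y² = x³ + A x + B` be an elliptic curve over
the number field `K` without point of order two over `K` and with discriminant not a square in `K`, and
let `Δ` be a set of nonzero elements of `K` which is finite modulo squares, for example the set of all
nonzero elements of `K` with a square root in a given finite extension of `K`. There are infinitely many
`D` modulo squares, near to `D₀`, such that for all `d ∈ Δ` the group `E_{dD}(K)` is finite of odd order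
and the Tate-Shafarevich group of `E_{dD}` over `K` has trivial two-primary part, if and only if the
two-Selmer ranks of the curves `E_{d D₀}`, `d ∈ Δ`, over `K` are even. For almost all curves, ordered by
height, and a fixed neighbourhood of `D₀`, they exist if and only if the parities of these ranks are
balanced with respect to the multiplicative relations modulo squares in `Δ`, and this is always true if
`Δ` has at most two classes at all completions of `K`. If `N / K` is multiquadratic and `Δ` is the set of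
all nonzero elements of `K` with a square root in `N`, then for these `D` the groups `E_{mD}(M)` and the
two-primary parts of the Tate-Shafarevich groups of `E_{mD}` over `M` are finite for all number fields `M`
between `K` and `N` and all `m ∈ M` with a square root in `N`.
-/

set_option autoImplicit false
open scoped Classical

namespace Pool.Agent.Results.MP_78d38b_nt.SimultaneousTwists

open NumberField WeierstrassCurve IsDedekindDomain Pool.Agent.H10

variable {K : Type} [Field K] [NumberField K]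

/-- `x³ + A x + B` has no root in `K` and `-(4 A³ + 27 B²)` is not a square in `K`, where
`p = (A, B)`. -/
def Full (p : 𝓞 K × 𝓞 K) : Prop :=
  (∀ t : K, t ^ 3 + (p.1 : K) * t + (p.2 : K) ≠ 0) ∧
    ¬ IsSquare (-(4 * (p.1 : K) ^ 3 + 27 * (p.2 : K) ^ 2))

/-- The quadratic twist `E_m : y² = x³ + m² A x + m³ B` over the extension `M` of `K` by an element `m`
of `M`, where `p = (A, B)`. -/
def twist (p : 𝓞 K × 𝓞 K) (M : Type) [Field M] [Algebra K M] (m : M) : WeierstrassCurve M :=
  ⟨0, 0, 0, m ^ 2 * algebraMap K M (p.1 : K), m ^ 3 * algebraMap K M (p.2 : K)⟩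

/-- The group `E_D(K)` is finite of odd order and the Tate-Shafarevich group of `E_D` over `K` has no
nontrivial element of two-power order. -/
def Triv (p : 𝓞 K × 𝓞 K) (D : K) : Prop :=
  Finite (twist p K D).toAffine.Point ∧ Odd (Nat.card (twist p K D).toAffine.Point) ∧
    Sha2Trivial K (twist p K D)

/-- The two-primary part of the Tate-Shafarevich group of `W` over `M` is finite: the locally constant
cocycles which are coboundaries at all places and of which a multiple by a power of two is a coboundary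
fall into finitely many classes modulo coboundaries. -/
def TwoPartFinite (M : Type) [Field M] [NumberField M] (W : WeierstrassCurve M) : Prop :=
  ∃ S : Set ((AlgebraicClosure M ≃ₐ[M] AlgebraicClosure M) →
      (W.baseChange (AlgebraicClosure M)).toAffine.Point), S.Finite ∧
    ∀ f : (AlgebraicClosure M ≃ₐ[M] AlgebraicClosure M) →
        (W.baseChange (AlgebraicClosure M)).toAffine.Point,
      IsCocycle M W f → IsLocTriv M W f → (∃ m : ℕ, IsCobound M W (fun σ => (2 ^ m) • f σ)) →
      ∃ g ∈ S, IsCobound M W (fun σ => f σ - g σ)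

/-- For all number fields `M` between `K` and `N` and all `m ≠ 0` in `M` with a square root in `N`, the
group `E_{mD}(M)` and the two-primary part of the Tate-Shafarevich group of `E_{mD}` over `M` are
finite. -/
def FinOver (N : Type) [Field N] [Algebra K N] (p : 𝓞 K × 𝓞 K) (D : K) : Prop :=
  ∀ (M : Type) [Field M] [NumberField M] [Algebra K M] [Algebra M N] [IsScalarTower K M N],
    ∀ m : M, m ≠ 0 → IsSquare (algebraMap M N m) →
      Finite (twist p M (m * algebraMap K M D)).toAffine.Point ∧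
        TwoPartFinite M (twist p M (m * algebraMap K M D))

section Selmer

variable {k : Type} [Field k] [NumberField k]

/-- Functions on the Galois group of `k` with values in `W(k̄)`. -/
abbrev Fun (W : WeierstrassCurve k) : Type :=
  (AlgebraicClosure k ≃ₐ[k] AlgebraicClosure k) →
    (W.baseChange (AlgebraicClosure k)).toAffine.Point

/-- The locally constant one-cocycles with values in the points killed by two which become
coboundaries in `W` over all completions of `k`. -/
def IsSel (W : WeierstrassCurve k) (f : Fun W) : Prop :=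
  IsCocycle k W f ∧ IsLocTriv k W f ∧ ∀ σ, f σ + f σ = 0

/-- The difference is the coboundary of a point killed by two. -/
def Cohom (W : WeierstrassCurve k) (f g : {f : Fun W // IsSel W f}) : Prop :=
  ∃ T : (W.baseChange (AlgebraicClosure k)).toAffine.Point,
    T + T = 0 ∧ ∀ σ : AlgebraicClosure k ≃ₐ[k] AlgebraicClosure k,
      f.1 σ - g.1 σ = (WeierstrassCurve.Affine.Point.map σ.toAlgHom :
        (W.baseChange (AlgebraicClosure k)).toAffine.Point →+
          (W.baseChange (AlgebraicClosure k)).toAffine.Point) T - T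

end Selmer

/-- The two-Selmer rank of `E_D` over `K` is even: the two-Selmer group of `E_D` over `K` has order
`4 ^ k` for some `k`. -/
def EvenRank (p : 𝓞 K × 𝓞 K) (D : K) : Prop :=
  ∃ k : ℕ, Nat.card (Quot (Cohom (twist p K D))) = 4 ^ k

/-- `D ≠ 0`, and `D / D₀` is a square in the completions at the primes of `S` and totally positive. -/
def Near (S : Finset (HeightOneSpectrum (𝓞 K))) (D₀ D : K) : Prop :=
  D ≠ 0 ∧ (∀ v ∈ S, IsSquare (algebraMap K (v.adicCompletion K) (D / D₀))) ∧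
    ∀ s : K →+* ℝ, 0 < s (D / D₀)

/-- `Δ` consists of nonzero elements of `K` and is finite modulo squares. -/
def FiniteModSquares (Δ : Set K) : Prop :=
  ∃ T : Finset K, ∀ d ∈ Δ, d ≠ 0 ∧ ∃ t ∈ T, t ≠ 0 ∧ IsSquare (t * d)

/-- There is a sequence of elements `D` of `K`, pairwise different modulo squares, which are near to
`D₀` and for which `Triv` holds for all `E_{dD}`, `d ∈ Δ`. -/
def Many (Δ : Set K) (p : 𝓞 K × 𝓞 K) (S : Finset (HeightOneSpectrum (𝓞 K))) (D₀ : K) : Prop :=
  ∃ f : ℕ → K, (∀ n, Near S D₀ (f n) ∧ ∀ d ∈ Δ, Triv p (d * f n)) ∧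
    ∀ m n, IsSquare (f m * f n) → m = n

/-- The extension `N / K` is multiquadratic. -/
def Multiquadratic (K N : Type) [Field K] [Field N] [Algebra K N] : Prop :=
  IsGalois K N ∧ ∀ g : N ≃ₐ[K] N, g * g = 1

/-- The nonzero elements of `K` with a square root in `N`. -/
def Roots (K N : Type) [Field K] [Field N] [Algebra K N] : Set K :=
  {d | d ≠ 0 ∧ IsSquare (algebraMap K N d)}

/-- Every finite subset of `Δ` with an even number of elements whose product is a square contains an even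
number of elements `d` for which the two-Selmer rank of `E_{dD}` over `K` is odd. -/
def Balanced (Δ : Set K) (p : 𝓞 K × 𝓞 K) (D : K) : Prop :=
  ∀ T : Finset K, (↑T : Set K) ⊆ Δ → Even T.card → IsSquare (∏ d ∈ T, d) →
    Even (T.filter fun d => ¬ EvenRank p (d * D)).card

/-- The elements of `Δ` have at most two classes modulo squares in the completion of `K` at `v`. -/
def TwoClasses (Δ : Set K) (v : HeightOneSpectrum (𝓞 K)) : Prop :=
  ∀ d ∈ Δ, ∀ d' ∈ Δ, ∀ d'' ∈ Δ, IsSquare (algebraMap K (v.adicCompletion K) (d * d')) ∨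
    IsSquare (algebraMap K (v.adicCompletion K) (d' * d'')) ∨
    IsSquare (algebraMap K (v.adicCompletion K) (d * d''))

variable (K) in
/-- The pairs `(A, B)` of algebraic integers of `K` of height at most `X`: the absolute values of all
complex conjugates of `A` are at most `X²` and those of `B` are at most `X³`. -/
def Box (X : ℝ) : Set (𝓞 K × 𝓞 K) :=
  {p | ∀ s : K →+* ℂ, ‖s (p.1 : K)‖ ≤ X ^ 2 ∧ ‖s (p.2 : K)‖ ≤ X ^ 3}

/-- Finite abelian groups of odd order. -/
private theorem odd_iff {G : Type} [AddCommGroup G] [Finite G] :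
    Odd (Nat.card G) ↔ ∀ P : G, P + P = 0 → P = 0 := by
  constructor
  · intro h P hP
    have h1 : addOrderOf P ∣ 2 := addOrderOf_dvd_of_nsmul_eq_zero (by rw [two_nsmul, hP])
    rcases (Nat.dvd_prime Nat.prime_two).1 h1 with h2 | h2
    · exact AddMonoid.addOrderOf_eq_one_iff.1 h2
    · exfalso
      have h3 := addOrderOf_dvd_natCard P
      rw [h2] at h3
      exact (Nat.not_even_iff_odd.2 h) (even_iff_two_dvd.2 h3)
  · intro h
    rw [← Nat.not_even_iff_odd, even_iff_two_dvd]
    intro h2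
    obtain ⟨P, hP⟩ := exists_prime_addOrderOf_dvd_card' 2 h2
    have h3 : P + P = 0 := by
      rw [← two_nsmul, ← hP]
      exact addOrderOf_nsmul_eq_zero P
    rw [h P h3, addOrderOf_zero] at hP
    norm_num at hP

private theorem triv_iff {p : 𝓞 K × 𝓞 K} {D : K} :
    Triv p D ↔ H30ZO.Tv K (D ^ 2 * (p.1 : K)) (D ^ 3 * (p.2 : K)) := by
  constructor
  · rintro ⟨h1, h2, h3⟩
    exact ⟨h1, (@odd_iff _ _ h1).1 h2, h3⟩
  · rintro ⟨h1, h2, h3⟩
    exact ⟨h1, (@odd_iff _ _ h1).2 h2, h3⟩

private theorem even_iff {p : 𝓞 K × 𝓞 K} {D : K} : EvenRank p D ↔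
    H88PL.Ev (p.1 : K) (p.2 : K) D :=
  Iff.rfl

omit [NumberField K] in
private theorem fin_sc {Δ : Set K} (h : FiniteModSquares Δ) :
    (H38T1.sc '' Δ : Set (H38T1.SC K)).Finite := by
  obtain ⟨T, hT⟩ := h
  refine (T.finite_toSet.image H38T1.sc).subset ?_
  rintro _ ⟨d, hd, rfl⟩
  obtain ⟨hd0, t, ht, ht0, hs⟩ := hT d hd
  refine ⟨t, ht, ?_⟩
  have h1 := (H38T1.sc_eq_zero (mul_ne_zero ht0 hd0)).2 hs
  rw [H38T1.sc_mul ht0 hd0] at h1
  have h2 : H38T1.sc d + H38T1.sc d = 0 := by
    rw [← two_nsmul, H38T1.SC.two_smul]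
  exact add_right_cancel (h1.trans h2.symm)

private theorem mainS {p : 𝓞 K × 𝓞 K} (hp : Full p) {Δ : Set K} (hΔ : FiniteModSquares Δ) {D₀ : K}
    (hD₀ : D₀ ≠ 0) :
    (∃ S₀ : Finset (HeightOneSpectrum (𝓞 K)), ∀ D, Near S₀ D₀ D → (∀ d ∈ Δ, Triv p (d * D)) →
      ∀ d ∈ Δ, EvenRank p (d * D₀)) ∧
    ((∀ d ∈ Δ, EvenRank p (d * D₀)) → ∀ S : Finset (HeightOneSpectrum (𝓞 K)), Many Δ p S D₀) := by
  obtain ⟨⟨S₀, hS₀⟩, hmain⟩ := H38MR.main_mq (fun v => v.valuation_le_one p.1)
    (fun v => v.valuation_le_one p.2) hp.1 hp.2 hD₀ (fin_sc hΔ) (fun d hd => by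
      obtain ⟨T, hT⟩ := hΔ
      exact (hT d hd).1)
  refine ⟨⟨S₀, fun D h1 h2 => hS₀ D h1 fun d hd => triv_iff.1 (h2 d hd)⟩, fun h S => ?_⟩
  obtain ⟨f, h1, h2⟩ := hmain h S
  exact ⟨f, fun n => ⟨(h1 n).1, fun d hd => triv_iff.2 ((h1 n).2 d hd)⟩, h2⟩

private theorem near_trans {S : Finset (HeightOneSpectrum (𝓞 K))} {D₀ D₁ D : K} (h0 : D₀ ≠ 0)
    (h1 : Near S D₀ D₁) (h : Near S D₁ D) : Near S D₀ D := by
  have e : D / D₀ = D / D₁ * (D₁ / D₀) := by
    have := h1.1
    field_simp
  refine ⟨h.1, fun v hv => ?_, fun s => ?_⟩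
  · rw [e, map_mul]
    exact (h.2.1 v hv).mul (h1.2.1 v hv)
  · rw [e, map_mul]
    exact mul_pos (h.2.2 s) (h1.2.2 s)

private theorem many_of {p : 𝓞 K × 𝓞 K} (hp : Full p) {Δ : Set K} (hΔ : FiniteModSquares Δ) {D₀ : K}
    (hD₀ : D₀ ≠ 0) {S : Finset (HeightOneSpectrum (𝓞 K))}
    (h : ∃ D, Near S D₀ D ∧ ∀ d ∈ Δ, EvenRank p (d * D)) : Many Δ p S D₀ := by
  obtain ⟨D, h1, h2⟩ := h
  obtain ⟨f, h3, h4⟩ := (mainS hp hΔ h1.1).2 h2 S
  exact ⟨f, fun n => ⟨near_trans hD₀ h1 (h3 n).1, (h3 n).2⟩, h4⟩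

private theorem bal_iff {p : 𝓞 K × 𝓞 K} {Δ : Set K} {D : K} :
    Balanced Δ p D ↔ H26MQ.BalP Δ (p.1 : K) (p.2 : K) D :=
  Iff.rfl

/-- Let `K` be a number field and `Δ` a set of nonzero elements of `K` which is finite modulo squares.
(1) Let `E : y² = x³ + A x + B`, `A, B ∈ 𝓞 K`, be a curve with `Full`, and `D₀ ≠ 0`. For some finite set
`S₀` of primes the following are equivalent: the two-Selmer ranks of all `E_{d D₀}`, `d ∈ Δ`, over `K` are
even; there is `D` near to `D₀` (for `S₀`) such that `Triv` holds for all `E_{dD}`, `d ∈ Δ`; for every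
finite set `S` of primes there are infinitely many such `D` modulo squares.
(2) Let `S` be a finite set of primes such that `Δ` has at most two classes modulo squares at the primes
outside `S`, and `ε > 0`. All but at most `ε * #(Box K X)` of the curves in `Box K X`, `X ≥ X₀`, are `Full`,
and for all `D₀ ≠ 0` there are infinitely many `D` near to `D₀` (for `S`) modulo squares such that `Triv`
holds for all `E_{dD}`, `d ∈ Δ`, if and only if `D₀` is `Balanced`.
(3) If `Δ` has at most two classes modulo squares at all primes then all `D₀ ≠ 0` are `Balanced` for all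
curves with `Full`.
(4) If `N / K` is a multiquadratic extension then the set `Roots K N` is finite modulo squares, and if
`D ≠ 0` and `Triv` holds for all `E_{dD}`, `d ∈ Roots K N`, for a curve with `Full`, then for all number
fields `M` between `K` and `N` and all `m ≠ 0` in `M` with a square root in `N` the group `E_{mD}(M)` and the
two-primary part of the Tate-Shafarevich group of `E_{mD}` over `M` are finite. -/
theorem result (K : Type) [Field K] [NumberField K] (Δ : Set K) (hΔ : FiniteModSquares Δ) :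
    (∀ p : 𝓞 K × 𝓞 K, Full p → ∀ D₀ : K, D₀ ≠ 0 →
      ∃ S₀ : Finset (HeightOneSpectrum (𝓞 K)),
        List.TFAE [∀ d ∈ Δ, EvenRank p (d * D₀),
          ∃ D : K, Near S₀ D₀ D ∧ ∀ d ∈ Δ, Triv p (d * D),
          ∀ S : Finset (HeightOneSpectrum (𝓞 K)), Many Δ p S D₀]) ∧
    (∀ S : Finset (HeightOneSpectrum (𝓞 K)), (∀ v, v ∉ S → TwoClasses Δ v) → ∀ ε : ℝ, 0 < ε →
      ∃ X₀ : ℝ, ∀ X : ℝ, X₀ ≤ X → (Box K X).Finite ∧
        ({p : 𝓞 K × 𝓞 K | p ∈ Box K X ∧ ¬ (Full p ∧ ∀ D₀ : K, D₀ ≠ 0 →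
          (Many Δ p S D₀ ↔ Balanced Δ p D₀))}.ncard : ℝ) ≤ ε * ((Box K X).ncard : ℝ)) ∧
    ((∀ v : HeightOneSpectrum (𝓞 K), TwoClasses Δ v) →
      ∀ p : 𝓞 K × 𝓞 K, Full p → ∀ D₀ : K, D₀ ≠ 0 → Balanced Δ p D₀) ∧
    ∀ (N : Type) [Field N] [NumberField N] [Algebra K N], Multiquadratic K N →
      FiniteModSquares (Roots K N) ∧
      ∀ p : 𝓞 K × 𝓞 K, Full p → ∀ D : K, D ≠ 0 → (∀ d ∈ Roots K N, Triv p (d * D)) →
        FinOver N p D := by
  have h0 : ∀ d ∈ Δ, d ≠ 0 := by
    obtain ⟨T, hT⟩ := hΔ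
    exact fun d hd => (hT d hd).1
  refine ⟨fun p hp D₀ hD₀ => ?_, fun S hS ε hε => ?_, fun hc p hp D₀ hD₀ => ?_,
    fun N _ _ _ hN => ⟨?_, fun p hp D hD h => ?_⟩⟩
  · obtain ⟨⟨S₀, hS₀⟩, hmain⟩ := mainS hp hΔ hD₀
    refine ⟨S₀, ?_⟩
    tfae_have 1 → 3 := hmain
    tfae_have 3 → 2 := by
      intro h
      obtain ⟨f, h1, -⟩ := h S₀
      exact ⟨f 0, h1 0⟩
    tfae_have 2 → 1 := by
      rintro ⟨D, h1, h2⟩
      exact hS₀ D h1 h2
    tfae_finish
  · obtain ⟨X₀, h2⟩ := H26MQ.dens_balP (fin_sc hΔ) h0 S hε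
    refine ⟨X₀, fun X hX => ?_⟩
    have hbox : Box K X = H76PP.Bx K X := by
      ext p
      exact ⟨fun h => ⟨fun s => (h s).1, fun s => (h s).2⟩, fun h s => ⟨h.1 s, h.2 s⟩⟩
    rw [hbox]
    refine ⟨H76PP.Bx_fin K X, ?_⟩
    refine le_trans (Nat.cast_le.2 ?_) (h2 X hX)
    refine Set.ncard_le_ncard ?_ ((H76PP.Bx_fin K X).subset fun p hp => hp.1)
    rintro p ⟨hp, hno⟩
    refine ⟨hp, fun hh => hno ⟨⟨hh.1, hh.2.1⟩, fun D₀ hD₀ => ⟨fun hm => ?_, fun hb => ?_⟩⟩⟩
    · obtain ⟨f, h3, -⟩ := hm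
      obtain ⟨h4, h5⟩ := h3 0
      rw [bal_iff, H26MQ.bal_nearP hh.1 hh.2.1 h0 hD₀ h4.1 fun v => ?_]
      · exact H26MQ.bal_of_ev fun d hd => H26MQ.ev_of_tv hh.1 hh.2.1 (mul_ne_zero (h0 d hd) h4.1)
          (triv_iff.1 (h5 d hd))
      · by_cases hv : v ∈ S
        · exact Or.inl (h4.2.1 v hv)
        · exact Or.inr (hS v hv)
    · exact many_of ⟨hh.1, hh.2.1⟩ hΔ hD₀ (hh.2.2 D₀ hD₀ hb)
  · exact H26MQ.bal_cycP hp.1 hp.2 h0 hc hD₀
  · have hgal := hN.1
    have hfin := H38MR.fin_Dl (K := K) (N := N)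
    obtain ⟨T, hT⟩ := hfin.exists_finset_coe
    refine ⟨T.image H38T1.rep, fun d hd => ⟨hd.1, H38T1.rep (H38T1.sc d),
      Finset.mem_image.2 ⟨H38T1.sc d, ?_, rfl⟩, H38T1.rep_ne _, ?_⟩⟩
    · rw [← Finset.mem_coe, hT]
      exact ⟨d, hd, rfl⟩
    · rw [← H38T1.sc_eq_zero (mul_ne_zero (H38T1.rep_ne _) hd.1),
        H38T1.sc_mul (H38T1.rep_ne _) hd.1, H38T1.sc_rep, ← two_nsmul, H38T1.SC.two_smul]
  · have hgal := hN.1
    have hne : 4 * (p.1 : K) ^ 3 + 27 * (p.2 : K) ^ 2 ≠ 0 := by
      intro h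
      apply hp.2
      rw [h, neg_zero]
      exact ⟨0, (mul_zero 0).symm⟩
    intro M _ _ _ _ _ m hm hs
    exact H38MR.fin_all hN.2 hne hD (fun d hd => triv_iff.1 (h d hd)) M hm hs

end Pool.Agent.Results.MP_78d38b_nt.SimultaneousTwists
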