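import Pool.Agent.H26.MQ.Df

/-!
ROW Sa (project MP_78d38b_MQ, about 80 lines): reciprocity for the relaxed groups. Elementary.

R_le: immediate from `mem_R`, `mem_FF` (a prime `q ∉ s.T ∪ A` is in neither).
bil: apply `ok.quad` to `x`, `y` and `x + y` (all in `XX j` and `FF T T1`): `quad (x + y) - quad x - quad y` is the
bilinear expression (expand `map_add`, `ring_nf`/`linear_combination` under the sums: `Finset.sum_add_distrib`).
quadR: `ok.quad` with `T := s.T ∪ A`, `T1 := s.T1`: `Finset.sum_union` (disjoint); the terms `q ∈ s.T` vanish (`r q x = 0`),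
the terms `v ∈ s.T1` are `u1 (e u2) + u2 (e u1) = 0` in `ZMod 2` (`CharTwo.add_self_eq_zero` after `ring`; or `generalize` and `decide`).
bilR: the same with `bil`: at `v ∈ s.T1`: `u1 x (e u2 y) + (e u2 x) u1 y + u2 x (e u1 y) + (e u1 x) u2 y = 0`.
-/

set_option autoImplicit false
open scoped Classical

namespace H26MQ

variable {J X Q P Pt : Type} [AddCommGroup X] {S : Sys J X Q P} {C : Pt → Set J}

theorem R_le {s : St Q P} {A : Finset Q} {j : J} {x : X} (hx : x ∈ S.R s A j) :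
    x ∈ S.XX j ∧ x ∈ S.FF (s.T ∪ A) s.T1 := by
  obtain ⟨h1, h2, _, h4, _⟩ := Sys.mem_R.mp hx
  refine ⟨h1, Sys.mem_FF.mpr ⟨fun q hq => ?_, h4⟩⟩
  rw [Finset.mem_union, not_or] at hq
  exact h2 q hq.1 hq.2

theorem bil (ok : S.Ok C) {j : J} {T : Finset Q} {T1 : Finset P} {x y : X} (hx : x ∈ S.XX j)
    (hx' : x ∈ S.FF T T1) (hy : y ∈ S.XX j) (hy' : y ∈ S.FF T T1) :
    ∑ q ∈ T, (S.u q x * S.r q y + S.r q x * S.u q y) + ∑ v ∈ T1, (S.u1 v x * S.r1 v y +
      S.r1 v x * S.u1 v y + S.u2 v x * S.r2 v y + S.r2 v x * S.u2 v y) = 0 := by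
  have h1 := ok.quad j T T1 x hx hx'
  have h2 := ok.quad j T T1 y hy hy'
  have h3 := ok.quad j T T1 (x + y) (add_mem hx hy) (add_mem hx' hy')
  have h4 : ∑ q ∈ T, S.u q (x + y) * S.r q (x + y) = ∑ q ∈ T, S.u q x * S.r q x +
      ∑ q ∈ T, S.u q y * S.r q y + ∑ q ∈ T, (S.u q x * S.r q y + S.r q x * S.u q y) := by
    rw [← Finset.sum_add_distrib, ← Finset.sum_add_distrib]
    refine Finset.sum_congr rfl fun q _ => ?_
    rw [map_add, map_add]
    ring
  have h5 : ∑ v ∈ T1, (S.u1 v (x + y) * S.r1 v (x + y) + S.u2 v (x + y) * S.r2 v (x + y)) =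
      ∑ v ∈ T1, (S.u1 v x * S.r1 v x + S.u2 v x * S.r2 v x) +
      ∑ v ∈ T1, (S.u1 v y * S.r1 v y + S.u2 v y * S.r2 v y) +
      ∑ v ∈ T1, (S.u1 v x * S.r1 v y + S.r1 v x * S.u1 v y + S.u2 v x * S.r2 v y +
        S.r2 v x * S.u2 v y) := by
    rw [← Finset.sum_add_distrib, ← Finset.sum_add_distrib]
    refine Finset.sum_congr rfl fun v _ => ?_
    rw [map_add, map_add, map_add, map_add]
    ring
  rw [h4, h5] at h3
  linear_combination h3 - h1 - h2

theorem quadR (ok : S.Ok C) {s : St Q P} {A : Finset Q} (hA : Disjoint s.T A) {j : J} {x : X}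
    (hx : x ∈ S.R s A j) : ∑ q ∈ A, S.u q x * S.r q x = 0 := by
  have h := ok.quad j (s.T ∪ A) s.T1 x (R_le hx).1 (R_le hx).2
  obtain ⟨_, _, h3, _, h5⟩ := Sys.mem_R.mp hx
  have h2 : (2 : ZMod 2) = 0 := rfl
  rw [Finset.sum_union hA, Finset.sum_eq_zero (s := s.T) (fun q hq => by rw [h3 q hq, mul_zero]),
    Finset.sum_eq_zero (s := s.T1), zero_add, add_zero] at h
  · exact h
  · intro v hv
    rw [(h5 v hv).1, (h5 v hv).2]
    linear_combination ((s.e v + S.ep j v) * S.u1 v x * S.u2 v x) * h2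

theorem bilR (ok : S.Ok C) {s : St Q P} {A : Finset Q} (hA : Disjoint s.T A) {j : J} {x y : X}
    (hx : x ∈ S.R s A j) (hy : y ∈ S.R s A j) :
    ∑ q ∈ A, (S.u q x * S.r q y + S.r q x * S.u q y) = 0 := by
  have h := bil ok (R_le hx).1 (R_le hx).2 (R_le hy).1 (R_le hy).2
  obtain ⟨_, _, h3, _, h5⟩ := Sys.mem_R.mp hx
  obtain ⟨_, _, h3', _, h5'⟩ := Sys.mem_R.mp hy
  have h2 : (2 : ZMod 2) = 0 := rfl
  rw [Finset.sum_union hA, Finset.sum_eq_zero (s := s.T)
    (fun q hq => by rw [h3 q hq, h3' q hq, mul_zero, zero_mul, add_zero]),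
    Finset.sum_eq_zero (s := s.T1), zero_add, add_zero] at h
  · exact h
  · intro v hv
    rw [(h5 v hv).1, (h5 v hv).2, (h5' v hv).1, (h5' v hv).2]
    linear_combination ((s.e v + S.ep j v) * (S.u1 v x * S.u2 v y + S.u2 v x * S.u1 v y)) * h2

end H26MQ
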