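import Pool.Agent.H26.MQ.Sa

/-!
ROW Sb (project MP_78d38b_MQ, about 90 lines): the number of elements of the relaxed groups. Elementary.

`G := S.XX j ⊓ S.FF (s.T ∪ A) s.T1` is finite (`ok.fin`, subgroup of `FF`) and has at least `2 ^ (|T| + |A| + 2 |T1|)` elements
(`ok.card`, `Finset.card_union_of_disjoint`). Let `f : G →+ (s.T → ZMod 2) × (s.T1 → ZMod 2 × ZMod 2)`,
`x ↦ (r q x)_q, (r1 v x + (e v + ep j v) u2 v x, r2 v x + (e v + ep j v) u1 v x)_v`. The kernel of `f` is in bijection with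
`S.R s A j` (`x + y = 0 ↔ x = y` in `ZMod 2`; `mem_R`; in both directions: `q ∉ s.T ∪ A` iff not in `s.T` and not in `A`).
`|G| = |ker f| |range f|` (`AddSubgroup.card_eq_card_quotient_mul_card_addSubgroup`/`AddMonoidHom.card..`,
`AddSubgroup.index_ker`, `AddSubgroup.card_mul_index`), `|range f| ≤ |codomain| = 2 ^ (|T| + 2 |T1|)` (`Nat.card_prod`, `Nat.card_pi`,
`Nat.card_zmod`; `Nat.card_le_card_of_injective _ Subtype.val_injective`). Hence `2 ^ |A| ≤ |R|`.
-/

set_option autoImplicit false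
open scoped Classical

namespace H26MQ

variable {J X Q P Pt : Type} [AddCommGroup X] {S : Sys J X Q P} {C : Pt → Set J}

theorem finR (ok : S.Ok C) (s : St Q P) (A : Finset Q) (j : J) : Finite (S.R s A j) := by
  have := ok.fin (s.T ∪ A) s.T1
  exact Finite.of_injective (fun x : S.R s A j => (⟨x.1, (R_le x.2).2⟩ : S.FF (s.T ∪ A) s.T1))
    fun x y h => Subtype.ext (congrArg (fun z : S.FF (s.T ∪ A) s.T1 => z.1) h)

/-- The conditions at the primes of `s`. -/
def fS (S : Sys J X Q P) (s : St Q P) (A : Finset Q) (j : J) :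
    ↥(S.XX j ⊓ S.FF (s.T ∪ A) s.T1) →+ (s.T → ZMod 2) × (s.T1 → ZMod 2 × ZMod 2) where
  toFun x := (fun q => S.r q.1 x.1, fun v =>
    (S.r1 v.1 x.1 + (s.e v.1 + S.ep j v.1) * S.u2 v.1 x.1,
      S.r2 v.1 x.1 + (s.e v.1 + S.ep j v.1) * S.u1 v.1 x.1))
  map_zero' := by
    refine Prod.ext (funext fun q => ?_) (funext fun v => Prod.ext ?_ ?_)
    · exact map_zero _
    · show S.r1 v.1 (0 : X) + (s.e v.1 + S.ep j v.1) * S.u2 v.1 (0 : X) = 0
      rw [map_zero, map_zero, mul_zero, add_zero]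
    · show S.r2 v.1 (0 : X) + (s.e v.1 + S.ep j v.1) * S.u1 v.1 (0 : X) = 0
      rw [map_zero, map_zero, mul_zero, add_zero]
  map_add' x y := by
    refine Prod.ext (funext fun q => ?_) (funext fun v => Prod.ext ?_ ?_)
    · exact map_add _ _ _
    · show S.r1 v.1 (x.1 + y.1) + (s.e v.1 + S.ep j v.1) * S.u2 v.1 (x.1 + y.1) =
        (S.r1 v.1 x.1 + (s.e v.1 + S.ep j v.1) * S.u2 v.1 x.1) +
          (S.r1 v.1 y.1 + (s.e v.1 + S.ep j v.1) * S.u2 v.1 y.1)
      rw [map_add, map_add]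
      ring
    · show S.r2 v.1 (x.1 + y.1) + (s.e v.1 + S.ep j v.1) * S.u1 v.1 (x.1 + y.1) =
        (S.r2 v.1 x.1 + (s.e v.1 + S.ep j v.1) * S.u1 v.1 x.1) +
          (S.r2 v.1 y.1 + (s.e v.1 + S.ep j v.1) * S.u1 v.1 y.1)
      rw [map_add, map_add]
      ring

theorem fS_mem {s : St Q P} {A : Finset Q} {j : J} {x : ↥(S.XX j ⊓ S.FF (s.T ∪ A) s.T1)}
    (hx : fS S s A j x = 0) : x.1 ∈ S.R s A j := by
  have h0 := x.2
  rw [AddSubgroup.mem_inf] at h0
  obtain ⟨h1, h2⟩ := h0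
  rw [Sys.mem_FF] at h2
  rw [Sys.mem_R]
  refine ⟨h1, fun q hq hqA => h2.1 q ?_, fun q hq => ?_, h2.2, fun v hv => ⟨?_, ?_⟩⟩
  · rw [Finset.mem_union]
    exact fun h => h.elim hq hqA
  · exact congrFun (congrArg Prod.fst hx) ⟨q, hq⟩
  · have h3 := congrArg Prod.fst (congrFun (congrArg Prod.snd hx) ⟨v, hv⟩)
    exact CharTwo.add_eq_zero.mp h3
  · have h3 := congrArg Prod.snd (congrFun (congrArg Prod.snd hx) ⟨v, hv⟩)
    exact CharTwo.add_eq_zero.mp h3

theorem cardR (ok : S.Ok C) {s : St Q P} {A : Finset Q} (hA : Disjoint s.T A) (j : J) :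
    2 ^ A.card ≤ Nat.card (S.R s A j) := by
  have := finR ok s A j
  have h1 := ok.card j (s.T ∪ A) s.T1
  rw [Finset.card_union_of_disjoint hA] at h1
  have h2 := AddSubgroup.card_mul_index (fS S s A j).ker
  rw [AddSubgroup.index_ker] at h2
  have h3 : Nat.card (fS S s A j).ker ≤ Nat.card (S.R s A j) :=
    Nat.card_le_card_of_injective
      (fun x : (fS S s A j).ker => (⟨x.1.1, fS_mem (AddMonoidHom.mem_ker.mp x.2)⟩ : S.R s A j))
      fun x y h => Subtype.ext (Subtype.ext (congrArg (fun z : S.R s A j => z.1) h))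
  have h4 : Nat.card (fS S s A j).range ≤ 2 ^ (s.T.card + 2 * s.T1.card) := by
    have h5 : Nat.card ((s.T → ZMod 2) × (s.T1 → ZMod 2 × ZMod 2)) =
        2 ^ (s.T.card + 2 * s.T1.card) := by
      rw [Nat.card_eq_fintype_card, Fintype.card_prod, Fintype.card_fun, Fintype.card_fun,
        Fintype.card_prod, ZMod.card, Fintype.card_coe, Fintype.card_coe, pow_add, pow_mul, sq]
    rw [← h5]
    exact Nat.card_le_card_of_injective _ Subtype.val_injective
  have h6 : 2 ^ A.card * 2 ^ (s.T.card + 2 * s.T1.card) ≤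
      Nat.card (S.R s A j) * 2 ^ (s.T.card + 2 * s.T1.card) := by
    calc 2 ^ A.card * 2 ^ (s.T.card + 2 * s.T1.card)
        = 2 ^ (s.T.card + A.card + 2 * s.T1.card) := by rw [← pow_add]; congr 1; ring
      _ ≤ Nat.card ↥(S.XX j ⊓ S.FF (s.T ∪ A) s.T1) := h1
      _ = Nat.card (fS S s A j).ker * Nat.card (fS S s A j).range := h2.symm
      _ ≤ Nat.card (S.R s A j) * 2 ^ (s.T.card + 2 * s.T1.card) := Nat.mul_le_mul h3 h4
  exact Nat.le_of_mul_le_mul_right h6 (pow_pos two_pos _)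

end H26MQ
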