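import Pool.Agent.H26.MQ.Sb
import Pool.Agent.H26.MQ.Ag

/-!
ROW Sc (project MP_78d38b_MQ, about 200 lines): adding a prime of type two. Elementary.

loc_qf: `qf (loc T0 x) = ∑ q ∈ T0, u q x * r q x` (`Finset.sum_coe_sort`), `bf (loc x) (loc y) = ∑ q ∈ T0, (u q x * r q y + r q x * u q y)`.
lagR: `H26MQ.lag_of_card` (file Ag.lean): isotropic by `quadR` with `A := T0`; the map `loc` is injective on `R s T0 j` by `hN`, so the
image has at least `2 ^ |T0|` elements by `cardR` (`Fintype.card {q // q ∈ T0} = T0.card`: `Fintype.card_coe`).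
stepA. `←`: `mem_R` (for `q = p`: `q ∉ s.T`, `q ∉ T0` gives `u p x = 0`, not needed for add2). `→`: let `x ∈ R (s.add2 p) T0 j`; then
`x ∈ R s (insert p T0) j` and `κ ∈ R s (insert p T0) j`. `bilR` with `A := insert p T0` (disjoint from `s.T`): the sum over `T0` is
`0` because all `u q κ = r q κ = 0` for `q ∈ T0` (h0); the term `p` is `u p x * r p κ + r p x * u p κ = u p x * 1 + 0` (`u p κ = 0`
because `p ∉ s.T`, `p ∉ T0`). So `u p x = 0`, and `x ∈ R s T0 j`; `r p x = 0` by `mem_R`.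
stepB. (0) Every `x ∈ R (s.add2 p) T0 j` is in `R s (insert p T0) j` and `r p x = 0`. If `u p x = 0`: `x ∈ R s T0 j` and
`bf a (loc x) = r p x = 0`, so `loc x = rho a (loc x)`. If `u p x = 1`: for every `y ∈ R s T0 j` (`u p y = 0`): `bilR` with
`A := insert p T0`: `bf (loc x) (loc y) + r p y = 0`, i.e. `bf (loc x + a) (loc y) = 0` (characteristic two); by `lagR.max`
`loc x + a = loc z` with `z ∈ R s T0 j`. `quadR` for `x` with `A := insert p T0`: `qf (loc x) + u p x * r p x = qf (loc x) = 0`.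
`loc x = loc z + a`, `qf (loc z) = 0`, `qf a = 1`: `0 = qf (loc z + a) = 1 + bf (loc z) a`, so `bf a (loc z) = 1` and
`loc x = loc z + a = rho a (loc z)`. (1) So the image of `R (s.add2 p) T0 j` is contained in the image of `R s T0 j` under `rho a`.
(2) If `loc x = 0`: if `u p x = 0` then `x = 0` by `hN`; if `u p x = 1` then `a = loc z` (as `z + a = 0`), `qf a = 0`: contradiction.
(3) Equality: `lagR` for the state `s.add2 p` (disjoint, (2)) gives `Lag` of the first image, `Lag.card`: it has `2 ^ n`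
elements; the second image has at most `|loc R s T0 j| = 2 ^ n` elements (`Lag.card`, image under a map; `Nat.card` of a map is
at most). `AddSubgroup.eq_of_le_of_card_ge`.
-/

set_option autoImplicit false
open scoped Classical

namespace H26MQ

variable {J X Q P Pt : Type} [AddCommGroup X] {S : Sys J X Q P} {C : Pt → Set J}

/-- The state with one more prime of type two. -/
noncomputable def St.add2 (s : St Q P) (p : Q) : St Q P := ⟨insert p s.T, s.T1, s.e⟩

theorem Sc_zo : ∀ y : ZMod 2, y = 0 ∨ y = 1 := by decide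

theorem Sc_two {ι : Type} (z : US ι) : z + z = 0 := by
  funext i
  have h : ∀ y : ZMod 2 × ZMod 2, y + y = 0 := by decide
  exact h (z i)

theorem loc_bf (T0 : Finset Q) (x y : X) : bf (S.loc T0 x) (S.loc T0 y) =
    ∑ q ∈ T0, (S.u q x * S.r q y + S.r q x * S.u q y) := by
  unfold bf
  exact Finset.sum_coe_sort T0 (fun q => S.u q x * S.r q y + S.r q x * S.u q y)

theorem loc_qf (T0 : Finset Q) (x : X) : qf (S.loc T0 x) = ∑ q ∈ T0, S.u q x * S.r q x := by
  unfold qf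
  exact Finset.sum_coe_sort T0 (fun q => S.u q x * S.r q x)

theorem Sc_loc0 {T0 : Finset Q} {x : X} (h : S.loc T0 x = 0) {q : Q} (hq : q ∈ T0) :
    S.u q x = 0 ∧ S.r q x = 0 := by
  have h1 := congrFun h ⟨q, hq⟩
  exact ⟨congrArg Prod.fst h1, congrArg Prod.snd h1⟩

theorem lagR (ok : S.Ok C) {s : St Q P} {T0 : Finset Q} (hT : Disjoint s.T T0) {j : J}
    (hN : ∀ x ∈ S.R s T0 j, S.loc T0 x = 0 → x = 0) : Lag ((S.R s T0 j).map (S.loc T0)) := by
  apply lag_of_card
  · rintro _ ⟨x, hx, rfl⟩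
    rw [loc_qf]
    exact quadR ok hT hx
  · rw [Fintype.card_coe]
    refine (cardR ok hT j).trans ?_
    let f : S.R s T0 j → (S.R s T0 j).map (S.loc T0) :=
      fun x => ⟨S.loc T0 x.1, AddSubgroup.mem_map_of_mem _ x.2⟩
    have hf : Function.Injective f := by
      intro x y hxy
      have h1 : S.loc T0 x.1 = S.loc T0 y.1 := congrArg Subtype.val hxy
      have h2 : S.loc T0 (x.1 - y.1) = 0 := by rw [map_sub, h1, sub_self]
      exact Subtype.ext (sub_eq_zero.1 (hN _ (sub_mem x.2 y.2) h2))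
    exact Nat.card_le_card_of_injective f hf

theorem Sc_ins {s : St Q P} {T0 : Finset Q} {p : Q} (hp : p ∉ s.T) (hT : Disjoint s.T T0) :
    Disjoint s.T (insert p T0) := by
  rw [Finset.disjoint_insert_right]
  exact ⟨hp, hT⟩

theorem Sc_up {s : St Q P} {T0 : Finset Q} {p : Q} {j : J} {x : X} (hx : x ∈ S.R s T0 j) :
    x ∈ S.R s (insert p T0) j := by
  obtain ⟨h1, h2, h3, h4, h5⟩ := Sys.mem_R.1 hx
  exact Sys.mem_R.2 ⟨h1, fun q hq hq' => h2 q hq fun h => hq' (Finset.mem_insert_of_mem h),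
    h3, h4, h5⟩

theorem Sc_add2 {s : St Q P} {T0 : Finset Q} {p : Q} {j : J} {x : X}
    (hx : x ∈ S.R (s.add2 p) T0 j) : x ∈ S.R s (insert p T0) j ∧ S.r p x = 0 := by
  obtain ⟨h1, h2, h3, h4, h5⟩ := Sys.mem_R.1 hx
  refine ⟨Sys.mem_R.2 ⟨h1, fun q hq hq' => ?_, fun q hq => h3 q (Finset.mem_insert_of_mem hq),
    h4, h5⟩, h3 p (Finset.mem_insert_self _ _)⟩
  rw [Finset.mem_insert, not_or] at hq'
  refine h2 q ?_ hq'.2
  intro h
  rcases Finset.mem_insert.1 h with h' | h'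
  · exact hq'.1 h'
  · exact hq h'

theorem Sc_down {s : St Q P} {T0 : Finset Q} {p : Q} {j : J} {x : X}
    (hx : x ∈ S.R s (insert p T0) j) (hu : S.u p x = 0) : x ∈ S.R s T0 j := by
  obtain ⟨h1, h2, h3, h4, h5⟩ := Sys.mem_R.1 hx
  refine Sys.mem_R.2 ⟨h1, fun q hq hq' => ?_, h3, h4, h5⟩
  by_cases h : q = p
  · rw [h]
    exact hu
  · exact h2 q hq fun h' => (Finset.mem_insert.1 h').elim h hq'

theorem stepA (ok : S.Ok C) {s : St Q P} {T0 : Finset Q} (hT : Disjoint s.T T0) {p : Q}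
    (hp : p ∉ s.T) (hp0 : p ∉ T0) {j : J} {κ : X} (hκ : κ ∈ S.R s T0 j) (h0 : S.loc T0 κ = 0)
    (h1 : S.r p κ = 1) (x : X) :
    x ∈ S.R (s.add2 p) T0 j ↔ x ∈ S.R s T0 j ∧ S.r p x = 0 := by
  constructor
  · intro hx
    obtain ⟨h2, h3⟩ := Sc_add2 hx
    refine ⟨Sc_down h2 ?_, h3⟩
    have h4 := bilR ok (Sc_ins hp hT) h2 (Sc_up (p := p) hκ)
    rw [Finset.sum_insert hp0] at h4
    have h5 : ∑ q ∈ T0, (S.u q x * S.r q κ + S.r q x * S.u q κ) = 0 := by
      apply Finset.sum_eq_zero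
      intro q hq
      obtain ⟨h6, h7⟩ := Sc_loc0 h0 hq
      rw [h6, h7, mul_zero, mul_zero, add_zero]
    have h6 : S.u p κ = 0 := (Sys.mem_R.1 hκ).2.1 p hp hp0
    rw [h5, h1, h6, mul_one, mul_zero, add_zero, add_zero] at h4
    exact h4
  · rintro ⟨hx, h2⟩
    obtain ⟨k1, k2, k3, k4, k5⟩ := Sys.mem_R.1 hx
    refine Sys.mem_R.2 ⟨k1, fun q hq hq' => k2 q (fun h => hq (Finset.mem_insert_of_mem h)) hq',
      fun q hq => ?_, k4, k5⟩
    rcases Finset.mem_insert.1 hq with h' | h'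
    · rw [h']
      exact h2
    · exact k3 q h'

theorem stepB (ok : S.Ok C) {s : St Q P} {T0 : Finset Q} (hT : Disjoint s.T T0) {p : Q}
    (hp : p ∉ s.T) (hp0 : p ∉ T0) {j : J} (hN : ∀ x ∈ S.R s T0 j, S.loc T0 x = 0 → x = 0)
    {a : US {q // q ∈ T0}} (ha : qf a = 1)
    (hφ : ∀ x ∈ S.R s T0 j, S.r p x = bf a (S.loc T0 x)) :
    (∀ x ∈ S.R (s.add2 p) T0 j, S.loc T0 x = 0 → x = 0) ∧
      (S.R (s.add2 p) T0 j).map (S.loc T0) = ((S.R s T0 j).map (S.loc T0)).map (rho a) := by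
  have hlag := lagR ok hT hN
  have hT2 : Disjoint (s.add2 p).T T0 := by
    show Disjoint (insert p s.T) T0
    rw [Finset.disjoint_insert_left]
    exact ⟨hp0, hT⟩
  have hq0 : ∀ z ∈ S.R s T0 j, qf (S.loc T0 z) = 0 := fun z hz =>
    hlag.iso _ (AddSubgroup.mem_map_of_mem _ hz)
  have hz : ∀ x ∈ S.R (s.add2 p) T0 j, S.u p x = 1 →
      ∃ z ∈ S.R s T0 j, S.loc T0 z = S.loc T0 x + a := by
    intro x hx hu
    obtain ⟨h2, h3⟩ := Sc_add2 hx
    have h4 : S.loc T0 x + a ∈ (S.R s T0 j).map (S.loc T0) := by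
      apply hlag.max
      rintro _ ⟨y, hy, rfl⟩
      rw [add_bf, ← hφ y hy, loc_bf]
      have h5 := bilR ok (Sc_ins hp hT) h2 (Sc_up (p := p) hy)
      rw [Finset.sum_insert hp0, hu, h3, one_mul, zero_mul, add_zero] at h5
      rw [add_comm]
      exact h5
    obtain ⟨z, hz, hze⟩ := h4
    exact ⟨z, hz, hze⟩
  have hN2 : ∀ x ∈ S.R (s.add2 p) T0 j, S.loc T0 x = 0 → x = 0 := by
    intro x hx h0
    rcases Sc_zo (S.u p x) with hu | hu
    · exact hN x (Sc_down (Sc_add2 hx).1 hu) h0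
    · obtain ⟨z, hz1, hz2⟩ := hz x hx hu
      rw [h0, zero_add] at hz2
      have h5 := hq0 z hz1
      rw [hz2, ha] at h5
      exact absurd h5 (by decide)
  refine ⟨hN2, ?_⟩
  have hlag2 := lagR ok hT2 hN2
  have hle : (S.R (s.add2 p) T0 j).map (S.loc T0) ≤
      ((S.R s T0 j).map (S.loc T0)).map (rho a) := by
    rintro _ ⟨x, hx, rfl⟩
    obtain ⟨h2, h3⟩ := Sc_add2 hx
    rcases Sc_zo (S.u p x) with hu | hu
    · have hx' := Sc_down h2 hu
      refine ⟨S.loc T0 x, AddSubgroup.mem_map_of_mem _ hx', ?_⟩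
      show rho a (S.loc T0 x) = S.loc T0 x
      rw [rho_apply, ← hφ x hx', h3, zero_smul, add_zero]
    · obtain ⟨z, hz1, hz2⟩ := hz x hx hu
      have h4 : S.loc T0 x = S.loc T0 z + a := by
        rw [hz2, add_assoc, Sc_two, add_zero]
      refine ⟨S.loc T0 z, AddSubgroup.mem_map_of_mem _ hz1, ?_⟩
      show rho a (S.loc T0 z) = S.loc T0 x
      have h5 : qf (S.loc T0 x) = 0 := by
        rw [loc_qf]
        exact quadR ok hT2 hx
      rw [h4, qf_add, hq0 z hz1, ha, zero_add] at h5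
      have h6 : bf (S.loc T0 z) a = 1 := by
        rcases Sc_zo (bf (S.loc T0 z) a) with h7 | h7
        · rw [h7] at h5
          exact absurd h5 (by decide)
        · exact h7
      rw [rho_apply, bf_comm, h6, one_smul, h4]
  refine AddSubgroup.eq_of_le_of_card_ge hle ?_
  rw [hlag2.card, ← hlag.card]
  exact Nat.card_image_le (Set.toFinite _)

end H26MQ
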