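import Pool.Agent.H26.MQ.Sc

/-!
ROW Sd (project MP_78d38b_MQ, about 250 lines): the marker prime. Elementary.

Let `v` be the prime of `ok.cheb1 p (s.T ∪ T0) s.T1`. `Rv j := {x ∈ XX j | conditions of R s T0 j except at v}`: for `x ∈ XX j`,
`u q x = 0` (`q ∉ s.T ∪ T0`), `r q x = 0` (`q ∈ s.T`), `u1 w x = u2 w x = 0` (`w ∉ s.T1`, `w ≠ v`), the two equations for `w ∈ s.T1`.
(1) (card) `2 ^ (|T0| + 2) ≤ |Rv j|`: as in Sb.lean with `FF (s.T ∪ T0) (insert v s.T1)` and conditions only at `s.T`, `s.T1`.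
(2) For `x ∈ Rv j` and `y ∈ R s T0 j`: `u1 v y = u2 v y = 0` (`v ∉ s.T1`), `r1 v y = r2 v y = 0` (cheb1, `R_le`), so by `bil` (with
`T := s.T ∪ T0`, `T1 := insert v s.T1`; the terms at `s.T`, `s.T1`, `v` vanish) `bf (loc x) (loc y) = 0`; so by `lagR.max`
`loc x = loc z`, `z ∈ R s T0 j`, and `x - z ∈ Rv j`, `loc (x - z) = 0`.
(3) `x ∈ Rv j`, `loc x = 0`, `u1 v x = u2 v x = 0` implies `x ∈ R s T0 j`, so `x = 0` (clean). So `(u1, u2)` is injective on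
`Nv j := {x ∈ Rv j | loc x = 0}`, `|Nv j| ≤ 4`; `|Rv j| ≤ |loc R| |Nv j| = 2 ^ |T0| |Nv j|` (`Lag.card`), so `|Nv j| = 4` and `(u1, u2)` is
bijective on `Nv j`.
(4) `ok.quad` (T := s.T ∪ T0, T1 := insert v s.T1) on `Nv j`: `u1 r1 + u2 r2 = 0` at `v`. Let `x, y ∈ Nv j` with `(u1, u2) = (1,0), (0,1)`:
`r1 x = 0`, `r2 y = 0`, and for `x + y`: `r1 y + r2 x = 0`. With `η_j := r2 x = r1 y`: `r1 = η_j u2`, `r2 = η_j u1` on `Nv j`.
(5) `η_j = η_k`: `x ∈ Nv j`, `x' ∈ Nv k` with `(u1, u2) = (1, 0)`: `x - x' ∈ FF (s.T ∪ T0) s.T1` (at `v` the `u`'s cancel), so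
`r2 x = r2 x'` by cheb1. Let `η` be the common value (0 if `J` is empty).
(6) choice of `c`: if some `j0 ∈ C p`: `c := η + 1 + ep j0 v`; else if some `j0 ∉ C p`: `c := η + ep j0 v`; else `0`. From cheb1:
`ep i v = ep j v` iff same side, and in `ZMod 2` different values differ by 1.
(7) `x ∈ R (s.add1 v c) T0 j ↔ x ∈ Rv j ∧ r1 v x = (c + ep j v) u2 v x ∧ r2 v x = (c + ep j v) u1 v x` (`Function.update`; for
`w ∈ s.T1`: `w ≠ v` as `v ∉ s.T1`). For `j ∈ C p`: write `x = z + n`, `z ∈ R s T0 j` (all four components at `v` are 0), `n ∈ Nv j`: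
`r1 = η u2 = (η + 1) u2` gives `u2 v n = 0`, similarly `u1 v n = 0`, so `n = 0`. For `j ∉ C p`: all of `Rv j` satisfies the condition at `v`.
-/

set_option autoImplicit false
open scoped Classical

namespace H26MQ

variable {J X Q P Pt : Type} [AddCommGroup X] {S : Sys J X Q P} {C : Pt → Set J}

/-- The state with one more prime of type one. -/
noncomputable def St.add1 (s : St Q P) (v : P) (c : ZMod 2) : St Q P :=
  ⟨s.T, insert v s.T1, Function.update s.e v c⟩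

/-- The marker prime `v` for the pattern `p`. -/
structure Mark (S : Sys J X Q P) (C : Pt → Set J) (s : St Q P) (T0 : Finset Q) (p : Pt) (v : P)
    (c η : ZMod 2) : Prop where
  out : v ∉ s.T1
  cin : ∀ j, j ∈ C p → c + S.ep j v = η + 1
  cout : ∀ j, j ∉ C p → c + S.ep j v = η
  zero : ∀ j, ∀ x ∈ S.R s T0 j, S.u1 v x = 0 ∧ S.u2 v x = 0 ∧ S.r1 v x = 0 ∧ S.r2 v x = 0
  inn : ∀ j, j ∈ C p → ∀ x, x ∈ S.R (s.add1 v c) T0 j ↔ x ∈ S.R s T0 j
  sub : ∀ j, j ∉ C p → ∀ x ∈ S.R s T0 j, x ∈ S.R (s.add1 v c) T0 j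
  dec : ∀ j, j ∉ C p → ∀ x ∈ S.R (s.add1 v c) T0 j, ∃ y ∈ S.R s T0 j, S.loc T0 x = S.loc T0 y
  ex : ∀ j, j ∉ C p → ∀ m n : ZMod 2, ∃ κ ∈ S.R (s.add1 v c) T0 j, S.loc T0 κ = 0 ∧
    S.u1 v κ = m ∧ S.u2 v κ = n
  inj : ∀ j, j ∉ C p → ∀ κ ∈ S.R (s.add1 v c) T0 j, S.loc T0 κ = 0 → S.u1 v κ = 0 →
    S.u2 v κ = 0 → κ = 0

theorem Sd_count (G : AddSubgroup X) [Finite G] {B : Type} [AddCommGroup B] (f : X →+ B) :
    Nat.card G ≤ Nat.card (G.map f) * Nat.card ↥(G ⊓ f.ker) := by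
  have h1 := AddSubgroup.card_mul_index (f.comp G.subtype).ker
  have h2 : (f.comp G.subtype).ker.index = Nat.card (f.comp G.subtype).range :=
    AddSubgroup.index_ker _
  have h3 : (f.comp G.subtype).range = G.map f := by
    rw [AddMonoidHom.range_eq_map, ← AddSubgroup.map_map, ← AddMonoidHom.range_eq_map,
      AddSubgroup.range_subtype]
  have h4 : Nat.card (f.comp G.subtype).ker ≤ Nat.card ↥(G ⊓ f.ker) := by
    have hfin : Finite ↥(G ⊓ f.ker) :=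
      Finite.of_injective (fun x : ↥(G ⊓ f.ker) => (⟨x.1, x.2.1⟩ : G)) (by
        intro x y hxy
        apply Subtype.ext
        have h := congrArg Subtype.val hxy
        exact h)
    refine Nat.card_le_card_of_injective
      (fun x : (f.comp G.subtype).ker => (⟨x.1.1, x.1.2, x.2⟩ : ↥(G ⊓ f.ker))) ?_
    intro x y hxy
    apply Subtype.ext
    apply Subtype.ext
    have h := congrArg Subtype.val hxy
    exact h
  rw [← h1, h2, h3, mul_comm]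
  exact Nat.mul_le_mul_left _ h4

/-- The conditions at `s.T` and `s.T1`. -/
def Sd_f (S : Sys J X Q P) (s : St Q P) (j : J) :
    X →+ ((q : {q // q ∈ s.T}) → ZMod 2) × ((w : {w // w ∈ s.T1}) → ZMod 2 × ZMod 2) where
  toFun x := (fun q => S.r q.1 x, fun w => (S.r1 w.1 x + (s.e w.1 + S.ep j w.1) * S.u2 w.1 x,
    S.r2 w.1 x + (s.e w.1 + S.ep j w.1) * S.u1 w.1 x))
  map_zero' := by
    refine Prod.ext ?_ ?_
    · funext q
      exact map_zero _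
    · funext w
      refine Prod.ext ?_ ?_
      · show S.r1 w.1 0 + (s.e w.1 + S.ep j w.1) * S.u2 w.1 0 = 0
        rw [map_zero, map_zero, mul_zero, add_zero]
      · show S.r2 w.1 0 + (s.e w.1 + S.ep j w.1) * S.u1 w.1 0 = 0
        rw [map_zero, map_zero, mul_zero, add_zero]
  map_add' x y := by
    refine Prod.ext ?_ ?_
    · funext q
      exact map_add _ _ _
    · funext w
      refine Prod.ext ?_ ?_
      · show S.r1 w.1 (x + y) + (s.e w.1 + S.ep j w.1) * S.u2 w.1 (x + y) =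
          (S.r1 w.1 x + (s.e w.1 + S.ep j w.1) * S.u2 w.1 x) +
            (S.r1 w.1 y + (s.e w.1 + S.ep j w.1) * S.u2 w.1 y)
        rw [map_add, map_add]
        ring
      · show S.r2 w.1 (x + y) + (s.e w.1 + S.ep j w.1) * S.u1 w.1 (x + y) =
          (S.r2 w.1 x + (s.e w.1 + S.ep j w.1) * S.u1 w.1 x) +
            (S.r2 w.1 y + (s.e w.1 + S.ep j w.1) * S.u1 w.1 y)
        rw [map_add, map_add]
        ring

/-- The group with no condition at `v`. -/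
noncomputable def Rv (S : Sys J X Q P) (s : St Q P) (T0 : Finset Q) (v : P) (j : J) : AddSubgroup X :=
  (S.XX j ⊓ S.FF (s.T ∪ T0) (insert v s.T1)) ⊓ (Sd_f S s j).ker

theorem Sd_two : ∀ a b : ZMod 2, a + b = 0 ↔ a = b := by decide

theorem mem_Rv {s : St Q P} {T0 : Finset Q} {v : P} {j : J} {x : X} :
    x ∈ Rv S s T0 v j ↔ x ∈ S.XX j ∧ (∀ q, q ∉ s.T → q ∉ T0 → S.u q x = 0) ∧
      (∀ q ∈ s.T, S.r q x = 0) ∧ (∀ w, w ∉ s.T1 → w ≠ v → S.u1 w x = 0 ∧ S.u2 w x = 0) ∧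
      ∀ w ∈ s.T1, S.r1 w x = (s.e w + S.ep j w) * S.u2 w x ∧
        S.r2 w x = (s.e w + S.ep j w) * S.u1 w x := by
  constructor
  · rintro ⟨⟨h1, h2, h3⟩, h4⟩
    have h5 : Sd_f S s j x = 0 := h4
    have h6 := congrArg Prod.fst h5
    have h7 := congrArg Prod.snd h5
    refine ⟨h1, ?_, ?_, ?_, ?_⟩
    · intro q hq hq0
      apply h2
      rw [Finset.mem_union]
      rintro (h | h)
      · exact hq h
      · exact hq0 h
    · intro q hq
      exact congrFun h6 ⟨q, hq⟩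
    · intro w hw hwv
      apply h3
      rw [Finset.mem_insert]
      rintro (h | h)
      · exact hwv h
      · exact hw h
    · intro w hw
      have h8 := congrFun h7 ⟨w, hw⟩
      exact ⟨(Sd_two _ _).1 (congrArg Prod.fst h8), (Sd_two _ _).1 (congrArg Prod.snd h8)⟩
  · rintro ⟨h1, h2, h3, h4, h5⟩
    refine ⟨⟨h1, ?_, ?_⟩, ?_⟩
    · intro q hq
      rw [Finset.mem_union] at hq
      exact h2 q (fun h => hq (Or.inl h)) (fun h => hq (Or.inr h))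
    · intro w hw
      rw [Finset.mem_insert] at hw
      exact h4 w (fun h => hw (Or.inr h)) (fun h => hw (Or.inl h))
    · show Sd_f S s j x = 0
      refine Prod.ext ?_ ?_
      · funext q
        exact h3 q.1 q.2
      · funext w
        exact Prod.ext ((Sd_two _ _).2 (h5 w.1 w.2).1) ((Sd_two _ _).2 (h5 w.1 w.2).2)

theorem Sd_R_iff {s : St Q P} {T0 : Finset Q} {v : P} (hv : v ∉ s.T1) {j : J} {x : X} :
    x ∈ S.R s T0 j ↔ x ∈ Rv S s T0 v j ∧ S.u1 v x = 0 ∧ S.u2 v x = 0 := by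
  rw [mem_Rv, Sys.mem_R]
  constructor
  · rintro ⟨h1, h2, h3, h4, h5⟩
    exact ⟨⟨h1, h2, h3, fun w hw _ => h4 w hw, h5⟩, h4 v hv⟩
  · rintro ⟨⟨h1, h2, h3, h4, h5⟩, h6⟩
    refine ⟨h1, h2, h3, ?_, h5⟩
    intro w hw
    by_cases hwv : w = v
    · rw [hwv]
      exact h6
    · exact h4 w hw hwv

theorem Sd_add1_iff {s : St Q P} {T0 : Finset Q} {v : P} (hv : v ∉ s.T1) {c : ZMod 2} {j : J}
    {x : X} : x ∈ S.R (s.add1 v c) T0 j ↔ x ∈ Rv S s T0 v j ∧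
      S.r1 v x = (c + S.ep j v) * S.u2 v x ∧ S.r2 v x = (c + S.ep j v) * S.u1 v x := by
  rw [mem_Rv, Sys.mem_R]
  have hev : (s.add1 v c).e v = c := by
    unfold St.add1
    simp
  have hew : ∀ w ∈ s.T1, (s.add1 v c).e w = s.e w := by
    intro w hw
    have hwv : w ≠ v := by
      rintro rfl
      exact hv hw
    unfold St.add1
    simp [hwv]
  have hT1 : (s.add1 v c).T1 = insert v s.T1 := rfl
  have hT : (s.add1 v c).T = s.T := rfl
  rw [hT, hT1]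
  constructor
  · rintro ⟨h1, h2, h3, h4, h5⟩
    refine ⟨⟨h1, h2, h3, ?_, ?_⟩, ?_⟩
    · intro w hw hwv
      apply h4
      rw [Finset.mem_insert]
      rintro (h | h)
      · exact hwv h
      · exact hw h
    · intro w hw
      have h6 := h5 w (Finset.mem_insert_of_mem hw)
      rw [hew w hw] at h6
      exact h6
    · have h6 := h5 v (Finset.mem_insert_self _ _)
      rw [hev] at h6
      exact h6
  · rintro ⟨⟨h1, h2, h3, h4, h5⟩, h6⟩
    refine ⟨h1, h2, h3, ?_, ?_⟩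
    · intro w hw
      rw [Finset.mem_insert] at hw
      exact h4 w (fun h => hw (Or.inr h)) (fun h => hw (Or.inl h))
    · intro w hw
      rw [Finset.mem_insert] at hw
      rcases hw with rfl | hw
      · rw [hev]
        exact h6
      · rw [hew w hw]
        exact h5 w hw

theorem Sd_card (ok : S.Ok C) {s : St Q P} {T0 : Finset Q} (hT : Disjoint s.T T0) {v : P}
    (hv : v ∉ s.T1) (j : J) : Finite (Rv S s T0 v j) ∧ 2 ^ (T0.card + 2) ≤ Nat.card (Rv S s T0 v j) := by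
  have hF := ok.fin (s.T ∪ T0) (insert v s.T1)
  have hG : Finite ↥(S.XX j ⊓ S.FF (s.T ∪ T0) (insert v s.T1)) :=
    Finite.of_injective (fun x : ↥(S.XX j ⊓ S.FF (s.T ∪ T0) (insert v s.T1)) =>
      (⟨x.1, x.2.2⟩ : ↥(S.FF (s.T ∪ T0) (insert v s.T1)))) (by
        intro x y hxy
        apply Subtype.ext
        have h := congrArg Subtype.val hxy
        exact h)
  have hR : Finite (Rv S s T0 v j) :=
    Finite.of_injective (fun x : ↥(Rv S s T0 v j) =>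
      (⟨x.1, x.2.1⟩ : ↥(S.XX j ⊓ S.FF (s.T ∪ T0) (insert v s.T1)))) (by
        intro x y hxy
        apply Subtype.ext
        have h := congrArg Subtype.val hxy
        exact h)
  refine ⟨hR, ?_⟩
  have h1 := ok.card j (s.T ∪ T0) (insert v s.T1)
  have h2 := Sd_count (S.XX j ⊓ S.FF (s.T ∪ T0) (insert v s.T1)) (Sd_f S s j)
  have h3 : Nat.card ((S.XX j ⊓ S.FF (s.T ∪ T0) (insert v s.T1)).map (Sd_f S s j)) ≤
      2 ^ (s.T.card + 2 * s.T1.card) := by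
    refine (Nat.card_le_card_of_injective _ Subtype.val_injective).trans ?_
    rw [Nat.card_prod, Nat.card_fun, Nat.card_fun, Nat.card_prod, Nat.card_zmod,
      Nat.card_eq_fintype_card, Nat.card_eq_fintype_card, Fintype.card_coe, Fintype.card_coe,
      pow_add, pow_mul]
    norm_num
  have h4 : (s.T ∪ T0).card + 2 * (insert v s.T1).card =
      (s.T.card + 2 * s.T1.card) + (T0.card + 2) := by
    rw [Finset.card_union_of_disjoint hT, Finset.card_insert_of_notMem hv]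
    ring
  rw [h4, pow_add] at h1
  have h5 : 2 ^ (s.T.card + 2 * s.T1.card) * 2 ^ (T0.card + 2) ≤
      2 ^ (s.T.card + 2 * s.T1.card) * Nat.card (Rv S s T0 v j) :=
    h1.trans (h2.trans (Nat.mul_le_mul_right _ h3))
  exact Nat.le_of_mul_le_mul_left h5 (by positivity)

theorem Sd_four : ∀ k a b c d : ZMod 2,
    a * (k * d) + (k * b) * c + b * (k * c) + (k * a) * d = 0 := by decide

theorem Sd_quad2 : ∀ k a b : ZMod 2, a * (k * b) + b * (k * a) = 0 := by decide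

theorem Sd_bf (ok : S.Ok C) {s : St Q P} {T0 : Finset Q} (hT : Disjoint s.T T0) {v : P}
    (hv : v ∉ s.T1) (hv1 : ∀ x ∈ S.FF (s.T ∪ T0) s.T1, S.r1 v x = 0 ∧ S.r2 v x = 0) {j : J}
    {x y : X} (hx : x ∈ Rv S s T0 v j) (hy : y ∈ S.R s T0 j) :
    bf (S.loc T0 x) (S.loc T0 y) = 0 := by
  have hyv := (Sd_R_iff hv).1 hy
  have hy1 := hv1 y (R_le hy).2
  have h1 := bil ok hx.1.1 hx.1.2 hyv.1.1.1 hyv.1.1.2
  obtain ⟨_, _, x3, _, x5⟩ := mem_Rv.1 hx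
  obtain ⟨_, _, y3, _, y5⟩ := mem_Rv.1 hyv.1
  rw [Finset.sum_union hT, Finset.sum_insert hv] at h1
  have h2 : ∑ q ∈ s.T, (S.u q x * S.r q y + S.r q x * S.u q y) = 0 := by
    refine Finset.sum_eq_zero fun q hq => ?_
    rw [x3 q hq, y3 q hq, mul_zero, zero_mul, add_zero]
  have h3 : ∑ w ∈ s.T1, (S.u1 w x * S.r1 w y + S.r1 w x * S.u1 w y + S.u2 w x * S.r2 w y +
      S.r2 w x * S.u2 w y) = 0 := by
    refine Finset.sum_eq_zero fun w hw => ?_
    rw [(x5 w hw).1, (x5 w hw).2, (y5 w hw).1, (y5 w hw).2]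
    exact Sd_four _ _ _ _ _
  rw [h2, h3, hyv.2.1, hyv.2.2, hy1.1, hy1.2, ← loc_bf] at h1
  simpa using h1

theorem Sd_lift (ok : S.Ok C) {s : St Q P} {T0 : Finset Q} (hT : Disjoint s.T T0)
    (hcl : S.Clean s T0) {v : P} (hv : v ∉ s.T1)
    (hv1 : ∀ x ∈ S.FF (s.T ∪ T0) s.T1, S.r1 v x = 0 ∧ S.r2 v x = 0) {j : J}
    {x : X} (hx : x ∈ Rv S s T0 v j) : ∃ z ∈ S.R s T0 j, S.loc T0 z = S.loc T0 x := by
  have h1 := lagR ok hT (hcl j)
  have h2 : S.loc T0 x ∈ (S.R s T0 j).map (S.loc T0) := by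
    apply h1.max
    rintro _ ⟨y, hy, rfl⟩
    exact Sd_bf ok hT hv hv1 hx hy
  exact h2

theorem Sd_N (ok : S.Ok C) {s : St Q P} {T0 : Finset Q} (hT : Disjoint s.T T0)
    (hcl : S.Clean s T0) {v : P} (hv : v ∉ s.T1)
    (hv1 : ∀ x ∈ S.FF (s.T ∪ T0) s.T1, S.r1 v x = 0 ∧ S.r2 v x = 0) (j : J) (m n : ZMod 2) :
    ∃ κ ∈ Rv S s T0 v j, S.loc T0 κ = 0 ∧ S.u1 v κ = m ∧ S.u2 v κ = n := by
  obtain ⟨hfin, hcard⟩ := Sd_card ok hT hv j
  have h1 := lagR ok hT (hcl j)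
  have h2 := Sd_count (Rv S s T0 v j) (S.loc T0)
  have hle : (Rv S s T0 v j).map (S.loc T0) ≤ (S.R s T0 j).map (S.loc T0) := by
    rintro _ ⟨x, hx, rfl⟩
    obtain ⟨z, hz, hzx⟩ := Sd_lift ok hT hcl hv hv1 hx
    exact ⟨z, hz, hzx⟩
  have hfU : Finite (US {q // q ∈ T0}) := inferInstance
  have h3 : Nat.card ((Rv S s T0 v j).map (S.loc T0)) ≤ 2 ^ T0.card := by
    refine (Nat.card_le_card_of_injective (AddSubgroup.inclusion hle)
      (AddSubgroup.inclusion_injective hle)).trans ?_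
    rw [h1.card, Fintype.card_coe]
  have h4 : 4 ≤ Nat.card ↥(Rv S s T0 v j ⊓ (S.loc T0).ker) := by
    have h5 := hcard.trans (h2.trans (Nat.mul_le_mul_right _ h3))
    rw [pow_add] at h5
    have h6 := Nat.le_of_mul_le_mul_left h5 (by positivity)
    simpa using h6
  have hbij : Function.Bijective (fun x : ↥(Rv S s T0 v j ⊓ (S.loc T0).ker) =>
      ((S.u1 v x.1, S.u2 v x.1) : ZMod 2 × ZMod 2)) := by
    apply Function.Injective.bijective_of_nat_card_le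
    · intro x y hxy
      have e1 : S.u1 v x.1 = S.u1 v y.1 := congrArg Prod.fst hxy
      have e2 : S.u2 v x.1 = S.u2 v y.1 := congrArg Prod.snd hxy
      have e3 : x.1 - y.1 ∈ Rv S s T0 v j := sub_mem x.2.1 y.2.1
      have e4 : S.loc T0 (x.1 - y.1) = 0 := by
        have ex : S.loc T0 x.1 = 0 := x.2.2
        have ey : S.loc T0 y.1 = 0 := y.2.2
        rw [map_sub, ex, ey, sub_zero]
      have e5 : x.1 - y.1 ∈ S.R s T0 j := (Sd_R_iff hv).2
        ⟨e3, by rw [map_sub, e1, sub_self], by rw [map_sub, e2, sub_self]⟩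
      have e6 := hcl j _ e5 e4
      exact Subtype.ext (sub_eq_zero.1 e6)
    · refine le_trans ?_ h4
      rw [Nat.card_prod, Nat.card_zmod]
  obtain ⟨κ, hκ⟩ := hbij.surjective (m, n)
  exact ⟨κ.1, κ.2.1, κ.2.2, congrArg Prod.fst hκ, congrArg Prod.snd hκ⟩

theorem Sd_q (ok : S.Ok C) {s : St Q P} {T0 : Finset Q} (hT : Disjoint s.T T0) {v : P}
    (hv : v ∉ s.T1) {j : J} {x : X} (hx : x ∈ Rv S s T0 v j) (h0 : S.loc T0 x = 0) :
    S.u1 v x * S.r1 v x + S.u2 v x * S.r2 v x = 0 := by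
  have h1 := ok.quad j (s.T ∪ T0) (insert v s.T1) x hx.1.1 hx.1.2
  obtain ⟨_, _, x3, _, x5⟩ := mem_Rv.1 hx
  rw [Finset.sum_union hT, Finset.sum_insert hv] at h1
  have h2 : ∑ q ∈ s.T, S.u q x * S.r q x = 0 := by
    refine Finset.sum_eq_zero fun q hq => ?_
    rw [x3 q hq, mul_zero]
  have h3 : ∑ q ∈ T0, S.u q x * S.r q x = 0 := by
    refine Finset.sum_eq_zero fun q hq => ?_
    have h4 : S.u q x = 0 := congrArg Prod.fst (congrFun h0 ⟨q, hq⟩)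
    rw [h4, zero_mul]
  have h4 : ∑ w ∈ s.T1, (S.u1 w x * S.r1 w x + S.u2 w x * S.r2 w x) = 0 := by
    refine Finset.sum_eq_zero fun w hw => ?_
    rw [(x5 w hw).1, (x5 w hw).2]
    exact Sd_quad2 _ _ _
  rw [h2, h3, h4] at h1
  simpa using h1

theorem Sd_eta (ok : S.Ok C) {s : St Q P} {T0 : Finset Q} (hT : Disjoint s.T T0)
    (hcl : S.Clean s T0) {v : P} (hv : v ∉ s.T1)
    (hv1 : ∀ x ∈ S.FF (s.T ∪ T0) s.T1, S.r1 v x = 0 ∧ S.r2 v x = 0) (j : J) :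
    ∃ η : ZMod 2, ∀ κ ∈ Rv S s T0 v j, S.loc T0 κ = 0 →
      S.r1 v κ = η * S.u2 v κ ∧ S.r2 v κ = η * S.u1 v κ := by
  obtain ⟨x, hx, hx0, hx1, hx2⟩ := Sd_N ok hT hcl hv hv1 j 1 0
  obtain ⟨y, hy, hy0, hy1, hy2⟩ := Sd_N ok hT hcl hv hv1 j 0 1
  have e1 := Sd_q ok hT hv hx hx0
  have e2 := Sd_q ok hT hv hy hy0
  have hxy : x + y ∈ Rv S s T0 v j := add_mem hx hy
  have hxy0 : S.loc T0 (x + y) = 0 := by rw [map_add, hx0, hy0, add_zero]
  have e3 := Sd_q ok hT hv hxy hxy0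
  rw [hx1, hx2, one_mul, zero_mul, add_zero] at e1
  rw [hy1, hy2, one_mul, zero_mul, zero_add] at e2
  rw [map_add, map_add, map_add, map_add, hx1, hx2, hy1, hy2, e1, e2] at e3
  have e4 : S.r1 v y = S.r2 v x := by
    rw [← Sd_two]
    simpa using e3
  have huniq : ∀ κ ∈ Rv S s T0 v j, S.loc T0 κ = 0 → ∀ κ' ∈ Rv S s T0 v j, S.loc T0 κ' = 0 →
      S.u1 v κ = S.u1 v κ' → S.u2 v κ = S.u2 v κ' → κ = κ' := by
    intro κ hκ hκ0 κ' hκ' hκ'0 h1 h2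
    have e5 : κ - κ' ∈ S.R s T0 j := (Sd_R_iff hv).2
      ⟨sub_mem hκ hκ', by rw [map_sub, h1, sub_self], by rw [map_sub, h2, sub_self]⟩
    have e6 := hcl j _ e5 (by rw [map_sub, hκ0, hκ'0, sub_zero])
    exact sub_eq_zero.1 e6
  have h01 : ∀ a : ZMod 2, a = 0 ∨ a = 1 := by decide
  refine ⟨S.r2 v x, ?_⟩
  intro κ hκ hκ0
  rcases h01 (S.u1 v κ) with h1 | h1 <;> rcases h01 (S.u2 v κ) with h2 | h2
  · have h3 : κ = 0 := huniq κ hκ hκ0 0 (zero_mem _) (map_zero _) (by rw [h1, map_zero])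
      (by rw [h2, map_zero])
    rw [h3]
    simp
  · have h3 : κ = y := huniq κ hκ hκ0 y hy hy0 (by rw [h1, hy1]) (by rw [h2, hy2])
    rw [h3, hy1, hy2, e2, e4]
    simp
  · have h3 : κ = x := huniq κ hκ hκ0 x hx hx0 (by rw [h1, hx1]) (by rw [h2, hx2])
    rw [h3, hx1, hx2, e1]
    simp
  · have h3 : κ = x + y := huniq κ hκ hκ0 (x + y) hxy hxy0
      (by rw [h1, map_add, hx1, hy1, add_zero]) (by rw [h2, map_add, hx2, hy2, zero_add])
    rw [h3, map_add, map_add, map_add, map_add, hx1, hx2, hy1, hy2, e1, e2, e4]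
    simp

theorem Sd_eta_all (ok : S.Ok C) {s : St Q P} {T0 : Finset Q} (hT : Disjoint s.T T0)
    (hcl : S.Clean s T0) {v : P} (hv : v ∉ s.T1)
    (hv1 : ∀ x ∈ S.FF (s.T ∪ T0) s.T1, S.r1 v x = 0 ∧ S.r2 v x = 0) :
    ∃ η : ZMod 2, ∀ j, ∀ κ ∈ Rv S s T0 v j, S.loc T0 κ = 0 →
      S.r1 v κ = η * S.u2 v κ ∧ S.r2 v κ = η * S.u1 v κ := by
  choose η hη using fun j => Sd_eta ok hT hcl hv hv1 j
  by_cases hJ : Nonempty J
  · obtain ⟨j0⟩ := hJ
    refine ⟨η j0, ?_⟩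
    intro j
    have h1 : η j = η j0 := by
      obtain ⟨x, hx, hx0, hx1, hx2⟩ := Sd_N ok hT hcl hv hv1 j 1 0
      obtain ⟨y, hy, hy0, hy1, hy2⟩ := Sd_N ok hT hcl hv hv1 j0 1 0
      have ex := (hη j x hx hx0).2
      have ey := (hη j0 y hy hy0).2
      rw [hx1, mul_one] at ex
      rw [hy1, mul_one] at ey
      obtain ⟨_, x2, _, x4, _⟩ := mem_Rv.1 hx
      obtain ⟨_, y2, _, y4, _⟩ := mem_Rv.1 hy
      have h2 : x - y ∈ S.FF (s.T ∪ T0) s.T1 := by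
        constructor
        · intro q hq
          rw [Finset.mem_union] at hq
          rw [map_sub, x2 q (fun h => hq (Or.inl h)) (fun h => hq (Or.inr h)),
            y2 q (fun h => hq (Or.inl h)) (fun h => hq (Or.inr h)), sub_zero]
        · intro w hw
          by_cases hwv : w = v
          · rw [hwv, map_sub, map_sub, hx1, hx2, hy1, hy2, sub_self, sub_self]
            exact ⟨rfl, rfl⟩
          · rw [map_sub, map_sub, (x4 w hw hwv).1, (x4 w hw hwv).2, (y4 w hw hwv).1,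
              (y4 w hw hwv).2, sub_self]
            exact ⟨rfl, rfl⟩
      have h3 := (hv1 _ h2).2
      rw [map_sub, ex, ey] at h3
      exact sub_eq_zero.1 h3
    rw [← h1]
    exact hη j
  · exact ⟨0, fun j => absurd ⟨j⟩ hJ⟩

theorem Sd_c {v : P} {p : Pt} (η : ZMod 2)
    (h : ∀ i j, S.ep i v = S.ep j v ↔ (i ∈ C p ↔ j ∈ C p)) :
    ∃ c : ZMod 2, (∀ j, j ∈ C p → c + S.ep j v = η + 1) ∧ (∀ j, j ∉ C p → c + S.ep j v = η) := by
  have d1 : ∀ a b : ZMod 2, a + 1 + b + b = a + 1 := by decide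
  have d2 : ∀ a b c : ZMod 2, c ≠ b → a + 1 + b + c = a := by decide
  have d3 : ∀ a b : ZMod 2, a + b + b = a := by decide
  by_cases h1 : ∃ j0, j0 ∈ C p
  · obtain ⟨j0, hj0⟩ := h1
    refine ⟨η + 1 + S.ep j0 v, ?_, ?_⟩
    · intro j hj
      have h2 : S.ep j v = S.ep j0 v := (h j j0).2 ⟨fun _ => hj0, fun _ => hj⟩
      rw [h2]
      exact d1 _ _
    · intro j hj
      have h2 : S.ep j v ≠ S.ep j0 v := fun h3 => hj (((h j j0).1 h3).2 hj0)
      exact d2 _ _ _ h2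
  · by_cases h2 : ∃ j0, j0 ∉ C p
    · obtain ⟨j0, hj0⟩ := h2
      refine ⟨η + S.ep j0 v, fun j hj => absurd ⟨j, hj⟩ h1, ?_⟩
      intro j hj
      have h3 : S.ep j v = S.ep j0 v := (h j j0).2 ⟨fun h4 => absurd h4 hj, fun h4 => absurd h4 hj0⟩
      rw [h3]
      exact d3 _ _
    · exact ⟨0, fun j hj => absurd ⟨j, hj⟩ h1, fun j hj => absurd ⟨j, hj⟩ h2⟩

theorem marker (ok : S.Ok C) {s : St Q P} {T0 : Finset Q} (hT : Disjoint s.T T0)
    (hcl : S.Clean s T0) (p : Pt) : ∃ v c η, Mark S C s T0 p v c η := by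
  obtain ⟨v, hv, hv1, hep⟩ := ok.cheb1 p (s.T ∪ T0) s.T1
  obtain ⟨η, hη⟩ := Sd_eta_all ok hT hcl hv hv1
  obtain ⟨c, hcin, hcout⟩ := Sd_c (S := S) (C := C) η hep
  have hzero : ∀ j, ∀ x ∈ S.R s T0 j, S.u1 v x = 0 ∧ S.u2 v x = 0 ∧ S.r1 v x = 0 ∧
      S.r2 v x = 0 := by
    intro j x hx
    have h1 := (Sd_R_iff hv).1 hx
    have h2 := hv1 x (R_le hx).2
    exact ⟨h1.2.1, h1.2.2, h2.1, h2.2⟩
  have hsub : ∀ j, ∀ x ∈ S.R s T0 j, x ∈ S.R (s.add1 v c) T0 j := by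
    intro j x hx
    obtain ⟨h1, h2, h3, h4⟩ := hzero j x hx
    rw [Sd_add1_iff hv]
    refine ⟨((Sd_R_iff hv).1 hx).1, ?_, ?_⟩
    · rw [h3, h2, mul_zero]
    · rw [h4, h1, mul_zero]
  have d1 : ∀ a b : ZMod 2, a * b = (a + 1) * b → b = 0 := by decide
  refine ⟨v, c, η, ⟨hv, hcin, hcout, hzero, ?_, fun j _ => hsub j, ?_, ?_, ?_⟩⟩
  · intro j hj x
    refine ⟨?_, hsub j x⟩
    intro hx
    obtain ⟨h1, h2, h3⟩ := (Sd_add1_iff hv).1 hx
    rw [hcin j hj] at h2 h3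
    obtain ⟨z, hz, hzx⟩ := Sd_lift ok hT hcl hv hv1 h1
    obtain ⟨z1, z2, z3, z4⟩ := hzero j z hz
    have h4 : x - z ∈ Rv S s T0 v j := sub_mem h1 ((Sd_R_iff hv).1 hz).1
    obtain ⟨h5, h6⟩ := hη j (x - z) h4 (by rw [map_sub, hzx, sub_self])
    rw [map_sub, map_sub, z3, z2, sub_zero, sub_zero, h2] at h5
    rw [map_sub, map_sub, z4, z1, sub_zero, sub_zero, h3] at h6
    exact (Sd_R_iff hv).2 ⟨h1, d1 _ _ h6.symm, d1 _ _ h5.symm⟩
  · intro j _ x hx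
    obtain ⟨z, hz, hzx⟩ := Sd_lift ok hT hcl hv hv1 ((Sd_add1_iff hv).1 hx).1
    exact ⟨z, hz, hzx.symm⟩
  · intro j hj m n
    obtain ⟨κ, hκ, hκ0, hκ1, hκ2⟩ := Sd_N ok hT hcl hv hv1 j m n
    obtain ⟨h1, h2⟩ := hη j κ hκ hκ0
    refine ⟨κ, ?_, hκ0, hκ1, hκ2⟩
    rw [Sd_add1_iff hv, hcout j hj]
    exact ⟨hκ, h1, h2⟩
  · intro j _ κ hκ hκ0 h1 h2
    exact hcl j κ ((Sd_R_iff hv).2 ⟨((Sd_add1_iff hv).1 hκ).1, h1, h2⟩) hκ0

end H26MQ
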