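import Pool.Agent.H26.MQ.Sd

/-!
ROW Se (project MP_78d38b_MQ, about 250 lines): the block. Elementary.

Let `v, c, η` be as in `marker`, `s1 := s.add1 v c`. Let `q1` be the prime of `ok.cheb2 (s.T ∪ T0) s1.T1 φ1`,
`φ1 x := bf a (loc x) + r1 v x + (η + 1) u2 v x` (a homomorphism). `s2 := s1.add2 q1`.
`j ∈ C p`: on `R s1 T0 j = R s T0 j` (inn) all components at `v` vanish (zero), so `r q1 = bf a (loc .)` (R_le): `stepB` (clean by inn and
`hcl`): `N_j(s2) = 0` and the image is `rho a`.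
`j ∉ C p`: `κ` from `ex j _ 0 1` (`u1 = 0, u2 = 1`): `r1 v κ = η u2 = η` (`mem_R` of s1 at `v`: `r1 = (e v + ep) u2`, `e v = c`
(`Function.update_self`), `c + ep = η`), `r q1 κ = 0 + η + (η + 1) = 1`. `stepA`: `x ∈ R s2 T0 j ↔ x ∈ R s1 T0 j ∧ r q1 x = 0`.
 The image under `loc` is the one of `R s T0 j`: `⊇`: `y ∈ R s T0 j`, `y ∈ R s1 T0 j` (sub); if `r q1 y = 0` done, else take `y + κ`. `⊆`: dec.
 `κ ∈ R s2 T0 j` with `loc κ = 0`: `0 = r q1 κ = r1 + (η + 1) u2 = u2`.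
Let `q2` be the prime of `ok.cheb2 (insert q1 (s.T ∪ T0)) s1.T1 φ2`, `φ2 x := bf b (loc x) + r2 v x + (η + 1) u1 v x`. `s3 := s2.add2 q2`.
`j ∈ C p`: every `x ∈ R s2 T0 j` satisfies `r2 v x = (c + ep) u1 v x = (η + 1) u1 v x` (`mem_R` of s2 at `v ∈ s2.T1`), so `r q2 x = bf b (loc x)`
(R_le: `x ∈ FF (s2.T ∪ T0) s2.T1`, `s2.T ∪ T0 = insert q1 (s.T ∪ T0)`): `stepB` (`N_j(s2) = 0`): `N_j(s3) = 0`, image `rho b (rho a ..)`.
`j ∉ C p`: `κ` from `ex j _ 1 0`: `κ ∈ R s1 T0 j`, `r q1 κ = r1 + (η + 1) u2 = η * 0 + 0 = 0`, so `κ ∈ R s2 T0 j`; `r q2 κ = r2 + (η + 1) u1 = η + η + 1 = 1`.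
 `stepA`: `x ∈ R s3 T0 j ↔ x ∈ R s2 T0 j ∧ r q2 x = 0`; image as before (`y` or `y + κ`). `N_j(s3) = 0`: `x ∈ R s3`, `loc x = 0`: `u2 v x = 0` (above),
 `0 = r q2 x = r2 v x + (η + 1) u1 v x = η u1 + (η + 1) u1 = u1 v x`, so `x = 0` by inj.
`s3.T = insert q2 (insert q1 s.T)`, `q1 ∉ s.T ∪ T0`, `q2 ∉ insert q1 (s.T ∪ T0)`: disjoint from `T0`, card + 2.
-/

set_option autoImplicit false
open scoped Classical

namespace H26MQ

variable {J X Q P Pt : Type} [AddCommGroup X] {S : Sys J X Q P} {C : Pt → Set J}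

theorem Se_or (z : ZMod 2) : z = 0 ∨ z = 1 := by
  revert z
  decide

theorem Se_img {s s' : St Q P} {T0 : Finset Q} {j : J} {q : Q} {κ : X}
    (h : ∀ x, x ∈ S.R s' T0 j ↔ x ∈ S.R s T0 j ∧ S.r q x = 0) (hκ : κ ∈ S.R s T0 j)
    (h0 : S.loc T0 κ = 0) (h1 : S.r q κ = 1) :
    (S.R s' T0 j).map (S.loc T0) = (S.R s T0 j).map (S.loc T0) := by
  ext z
  rw [AddSubgroup.mem_map, AddSubgroup.mem_map]
  constructor
  · rintro ⟨x, hx, rfl⟩
    exact ⟨x, ((h x).1 hx).1, rfl⟩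
  · rintro ⟨y, hy, rfl⟩
    rcases Se_or (S.r q y) with h2 | h2
    · exact ⟨y, (h y).2 ⟨hy, h2⟩, rfl⟩
    · refine ⟨y + κ, (h _).2 ⟨add_mem hy hκ, ?_⟩, ?_⟩
      · rw [map_add, h2, h1]
        decide
      · rw [map_add, h0, add_zero]

/-- the functional `x ↦ bf a (loc x) + f x + c * g x` -/
noncomputable def Se_phi (S : Sys J X Q P) (T0 : Finset Q) (a : US {q // q ∈ T0}) (f g : X →+ ZMod 2)
    (c : ZMod 2) : X →+ ZMod 2 where
  toFun x := bf a (S.loc T0 x) + f x + c * g x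
  map_zero' := by
    rw [map_zero, map_zero, map_zero, bf_zero]
    ring
  map_add' x y := by
    rw [map_add, map_add, map_add, bf_add]
    ring

theorem Se_phi_apply (S : Sys J X Q P) (T0 : Finset Q) (a : US {q // q ∈ T0}) (f g : X →+ ZMod 2)
    (c : ZMod 2) (x : X) : Se_phi S T0 a f g c x = bf a (S.loc T0 x) + f x + c * g x := rfl

theorem Se_two (x : ZMod 2) : x + x = 0 := CharTwo.add_self_eq_zero x

theorem block (ok : S.Ok C) {s : St Q P} {T0 : Finset Q} (hT : Disjoint s.T T0)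
    (hcl : S.Clean s T0) (p : Pt) {a b : US {q // q ∈ T0}} (ha : qf a = 1) (hb : qf b = 1) :
    ∃ s' : St Q P, Disjoint s'.T T0 ∧ S.Clean s' T0 ∧ s'.T.card = s.T.card + 2 ∧
      ∀ j, (S.R s' T0 j).map (S.loc T0) =
        if j ∈ C p then (((S.R s T0 j).map (S.loc T0)).map (rho a)).map (rho b)
        else (S.R s T0 j).map (S.loc T0) := by
  obtain ⟨v, c, η, mk⟩ := marker ok hT hcl p
  obtain ⟨s1, hs1⟩ : ∃ s1, s1 = s.add1 v c := ⟨_, rfl⟩
  have hT1 : s1.T = s.T := by rw [hs1]; rfl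
  have hv1 : v ∈ s1.T1 := by rw [hs1]; exact Finset.mem_insert_self _ _
  have he1 : s1.e v = c := by
    rw [hs1]
    simp [St.add1]
  have hd1 : Disjoint s1.T T0 := by rw [hT1]; exact hT
  have minn := mk.inn
  have msub := mk.sub
  have mdec := mk.dec
  have mex := mk.ex
  have minj := mk.inj
  rw [← hs1] at minn msub mdec mex minj
  -- first prime
  obtain ⟨q1, hq1, hr1⟩ := ok.cheb2 (s1.T ∪ T0) s1.T1 (Se_phi S T0 a (S.r1 v) (S.u2 v) (η + 1))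
  rw [Finset.mem_union, not_or] at hq1
  obtain ⟨s2, hs2⟩ : ∃ s2, s2 = s1.add2 q1 := ⟨_, rfl⟩
  have hT2 : s2.T = insert q1 s1.T := by rw [hs2]; rfl
  have hv2 : v ∈ s2.T1 := by rw [hs2]; exact hv1
  have he2 : s2.e v = c := by rw [hs2]; exact he1
  have hd2 : Disjoint s2.T T0 := by
    rw [hT2, Finset.disjoint_insert_left]
    exact ⟨hq1.2, hd1⟩
  -- second prime
  obtain ⟨q2, hq2, hr2⟩ := ok.cheb2 (s2.T ∪ T0) s2.T1 (Se_phi S T0 b (S.r2 v) (S.u1 v) (η + 1))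
  rw [Finset.mem_union, not_or] at hq2
  obtain ⟨s3, hs3⟩ : ∃ s3, s3 = s2.add2 q2 := ⟨_, rfl⟩
  have hT3 : s3.T = insert q2 s2.T := by rw [hs3]; rfl
  have hd3 : Disjoint s3.T T0 := by
    rw [hT3, Finset.disjoint_insert_left]
    exact ⟨hq2.2, hd2⟩
  -- values of the functionals
  have hval1 : ∀ j, ∀ x ∈ S.R s1 T0 j, S.r q1 x = bf a (S.loc T0 x) + S.r1 v x + (η + 1) * S.u2 v x :=
    fun j x hx => hr1 x (R_le hx).2
  have hval2 : ∀ j, ∀ x ∈ S.R s2 T0 j, S.r q2 x = bf b (S.loc T0 x) + S.r2 v x + (η + 1) * S.u1 v x :=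
    fun j x hx => hr2 x (R_le hx).2
  -- j in C p
  have hin : ∀ j, j ∈ C p → (∀ x ∈ S.R s3 T0 j, S.loc T0 x = 0 → x = 0) ∧
      (S.R s3 T0 j).map (S.loc T0) = (((S.R s T0 j).map (S.loc T0)).map (rho a)).map (rho b) := by
    intro j hj
    have e1 : S.R s1 T0 j = S.R s T0 j := AddSubgroup.ext fun x => minn j hj x
    have hN1 : ∀ x ∈ S.R s1 T0 j, S.loc T0 x = 0 → x = 0 := by
      rw [e1]
      exact hcl j
    have hφ1 : ∀ x ∈ S.R s1 T0 j, S.r q1 x = bf a (S.loc T0 x) := by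
      intro x hx
      obtain ⟨-, z2, z3, -⟩ := mk.zero j x ((minn j hj x).1 hx)
      rw [hval1 j x hx, z2, z3, mul_zero, add_zero, add_zero]
    obtain ⟨hN2, m2⟩ := stepB ok hd1 hq1.1 hq1.2 hN1 ha hφ1
    rw [← hs2] at hN2 m2
    have hφ2 : ∀ x ∈ S.R s2 T0 j, S.r q2 x = bf b (S.loc T0 x) := by
      intro x hx
      have h2 := ((Sys.mem_R.1 hx).2.2.2.2 v hv2).2
      rw [he2, mk.cin j hj] at h2
      rw [hval2 j x hx, h2, add_assoc, Se_two, add_zero]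
    obtain ⟨hN3, m3⟩ := stepB ok hd2 hq2.1 hq2.2 hN2 hb hφ2
    rw [← hs3] at hN3 m3
    exact ⟨hN3, by rw [m3, m2, e1]⟩
  have hout : ∀ j, j ∉ C p → (∀ x ∈ S.R s3 T0 j, S.loc T0 x = 0 → x = 0) ∧
      (S.R s3 T0 j).map (S.loc T0) = (S.R s T0 j).map (S.loc T0) := by
    intro j hj
    have hat : ∀ x ∈ S.R s1 T0 j, S.r1 v x = η * S.u2 v x ∧ S.r2 v x = η * S.u1 v x := by
      intro x hx
      have h2 := (Sys.mem_R.1 hx).2.2.2.2 v hv1
      rw [he1, mk.cout j hj] at h2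
      exact h2
    have e1 : (S.R s1 T0 j).map (S.loc T0) = (S.R s T0 j).map (S.loc T0) := by
      ext z
      rw [AddSubgroup.mem_map, AddSubgroup.mem_map]
      constructor
      · rintro ⟨x, hx, rfl⟩
        obtain ⟨y, hy, hxy⟩ := mdec j hj x hx
        exact ⟨y, hy, hxy.symm⟩
      · rintro ⟨y, hy, rfl⟩
        exact ⟨y, msub j hj y hy, rfl⟩
    obtain ⟨κ, hκ, k0, k1, k2⟩ := mex j hj 0 1
    have rκ : S.r q1 κ = 1 := by
      rw [hval1 j κ hκ, k0, bf_zero, (hat κ hκ).1, k2, mul_one, mul_one, zero_add, ← add_assoc, Se_two,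
        zero_add]
    have sA := stepA ok hd1 hq1.1 hq1.2 hκ k0 rκ
    rw [← hs2] at sA
    have m2 := Se_img sA hκ k0 rκ
    have hu2 : ∀ x ∈ S.R s2 T0 j, S.loc T0 x = 0 → S.u2 v x = 0 := by
      intro x hx hx0
      obtain ⟨g1, g2⟩ := (sA x).1 hx
      rw [hval1 j x g1, hx0, bf_zero, (hat x g1).1, zero_add, add_mul, one_mul, ← add_assoc, Se_two,
        zero_add] at g2
      exact g2
    obtain ⟨κ', hκ', k0', k1', k2'⟩ := mex j hj 1 0
    have hκ2 : κ' ∈ S.R s2 T0 j := by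
      refine (sA κ').2 ⟨hκ', ?_⟩
      rw [hval1 j κ' hκ', k0', bf_zero, (hat κ' hκ').1, k2', mul_zero, mul_zero, add_zero, add_zero]
    have rκ' : S.r q2 κ' = 1 := by
      rw [hval2 j κ' hκ2, k0', bf_zero, (hat κ' hκ').2, k1', mul_one, mul_one, zero_add, ← add_assoc,
        Se_two, zero_add]
    have sB := stepA ok hd2 hq2.1 hq2.2 hκ2 k0' rκ'
    rw [← hs3] at sB
    have m3 := Se_img sB hκ2 k0' rκ'
    refine ⟨fun x hx hx0 => ?_, by rw [m3, m2, e1]⟩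
    obtain ⟨g1, g2⟩ := (sB x).1 hx
    have g3 := (sA x).1 g1
    have g4 := hu2 x g1 hx0
    rw [hval2 j x g1, hx0, bf_zero, (hat x g3.1).2, zero_add, add_mul, one_mul, ← add_assoc, Se_two,
      zero_add] at g2
    exact minj j hj x g3.1 hx0 g2 g4
  refine ⟨s3, hd3, fun j => ?_, ?_, fun j => ?_⟩
  · by_cases hj : j ∈ C p
    · exact (hin j hj).1
    · exact (hout j hj).1
  · rw [hT3, Finset.card_insert_of_notMem hq2.1, hT2, Finset.card_insert_of_notMem hq1.1, hT1]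
  · split_ifs with hj
    · exact (hin j hj).2
    · exact (hout j hj).2

end H26MQ
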